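import Pool.Agent.H87S.Defs

/-!
The actual assignments.

PROOF PLAN.  `act_prod`: for `p ∈ P` at most one `i` has `p ∣ c i + M j` (`sep`), so `∏_i GP P (z i) (c i + M j)
= ∏_{p ∈ P} (z i p if p ∣ c i + M j for the unique i, else 1)`.  `act_log`: `log (Dd (act j)) =
∑_{p ∈ P} [∃ i, p ∣ c i + M j] log p`, and for given `p`, `i` the number of `j < N` with
`p ∣ c i + M j` is at most `N/p + 1` (`p ∤ M`).
-/

namespace Pool.Agent.H87S

open Finset

private theorem ActLog_uniq {P : Finset ℕ} {k M : ℕ} {c : Fin k → ℕ} (h : Adm P k M c)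
    {p : ℕ} (hp : p ∈ P) (j : ℕ) {i i' : Fin k} (h1 : p ∣ c i + M * j) (h2 : p ∣ c i' + M * j) :
    i = i' := by
  by_contra hne
  apply h.sep p hp i i' hne
  have h3 : c i + M * j ≡ c i' + M * j [MOD p] :=
    ((Nat.modEq_zero_iff_dvd.2 h1).trans (Nat.modEq_zero_iff_dvd.2 h2).symm)
  exact Nat.ModEq.add_right_cancel' _ h3

private theorem ActLog_count {p M : ℕ} (hp : p.Prime) (hM : ¬ p ∣ M) (c N : ℕ) :
    (((range N).filter (fun j => p ∣ c + M * j)).card : ℝ) ≤ (N : ℝ) / p + 1 := by
  have hcard : ((range N).filter (fun j => p ∣ c + M * j)).card ≤ (range (N / p + 1)).card := by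
    apply Finset.card_le_card_of_injOn (fun j => j / p)
    · intro j hj
      have hj' := Finset.mem_coe.1 hj
      rw [mem_filter, mem_range] at hj'
      rw [Finset.mem_coe, mem_range]
      exact Nat.lt_succ_of_le (Nat.div_le_div_right hj'.1.le)
    · intro j hj j' hj' he
      have h1 := (mem_filter.1 (Finset.mem_coe.1 hj)).2
      have h2 := (mem_filter.1 (Finset.mem_coe.1 hj')).2
      have h3 : c + M * j ≡ c + M * j' [MOD p] :=
        ((Nat.modEq_zero_iff_dvd.2 h1).trans (Nat.modEq_zero_iff_dvd.2 h2).symm)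
      have h4 : M * j ≡ M * j' [MOD p] := Nat.ModEq.add_left_cancel' _ h3
      have h5 : j ≡ j' [MOD p] := by
        apply Nat.ModEq.cancel_left_of_coprime _ h4
        exact (Nat.Prime.coprime_iff_not_dvd hp).2 hM
      have h6 : j / p = j' / p := he
      rw [← Nat.div_add_mod j p, ← Nat.div_add_mod j' p, h6]
      congr 1
  rw [card_range] at hcard
  calc (((range N).filter (fun j => p ∣ c + M * j)).card : ℝ) ≤ ((N / p + 1 : ℕ) : ℝ) := by
        exact_mod_cast hcard
    _ = ((N / p : ℕ) : ℝ) + 1 := by push_cast; ring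
    _ ≤ (N : ℝ) / p + 1 := by
        have := @Nat.cast_div_le ℝ _ _ _ N p
        linarith

theorem act_prod {P : Finset ℕ} {k M : ℕ} {c : Fin k → ℕ} (h : Adm P k M c)
    (z : Fin k → ℕ → ℂ) (j : ℕ) :
    ∏ i : Fin k, GP P (z i) (c i + M * j) = Zf z (act P k c M j) := by
  classical
  have h1 : ∀ i : Fin k, GP P (z i) (c i + M * j) =
      ∏ p : ↥P, (if (p : ℕ) ∣ c i + M * j then z i p else 1) := by
    intro i
    unfold GP
    rw [prod_filter, ← Finset.prod_coe_sort]
  simp only [h1]
  rw [prod_comm]
  unfold Zf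
  apply prod_congr rfl
  intro p _
  unfold act
  by_cases he : ∃ i : Fin k, (p : ℕ) ∣ c i + M * j
  · rw [dif_pos he]
    have hs := he.choose_spec
    rw [prod_eq_single he.choose]
    · rw [if_pos hs]
    · intro i _ hi
      rw [if_neg]
      intro hd
      exact hi (ActLog_uniq h p.2 j hd hs)
    · intro hn
      exact absurd (mem_univ _) hn
  · rw [dif_neg he]
    apply prod_eq_one
    intro i _
    rw [if_neg]
    intro hd
    exact he ⟨i, hd⟩

theorem act_log {P : Finset ℕ} {k M : ℕ} {c : Fin k → ℕ} (h : Adm P k M c) (N : ℕ) :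
    ∑ j ∈ range N, Real.log (Dd (act P k c M j)) ≤
      ∑ p ∈ P, Real.log p * (k * ((N : ℝ) / p + 1)) := by
  classical
  have h1 : ∀ j : ℕ, Real.log (Dd (act P k c M j)) ≤
      ∑ p ∈ P, ∑ i : Fin k, Real.log p * (if p ∣ c i + M * j then 1 else 0) := by
    intro j
    unfold Dd
    rw [Nat.cast_prod, Real.log_prod]
    · rw [← Finset.sum_coe_sort P]
      apply sum_le_sum
      intro p _
      have hlog : 0 ≤ Real.log ((p : ℕ) : ℝ) := Real.log_natCast_nonneg _
      unfold act
      by_cases he : ∃ i : Fin k, (p : ℕ) ∣ c i + M * j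
      · rw [dif_pos he]
        have hs := he.choose_spec
        have h2 := single_le_sum (s := (univ : Finset (Fin k)))
          (f := fun i => Real.log ((p : ℕ) : ℝ) * (if (p : ℕ) ∣ c i + M * j then (1 : ℝ) else 0))
          (fun i _ => by
            split_ifs
            · simpa using hlog
            · simp) (mem_univ he.choose)
        dsimp only at h2 ⊢
        rw [if_pos hs, mul_one] at h2
        exact h2
      · rw [dif_neg he]
        dsimp only
        rw [Nat.cast_one, Real.log_one]
        apply sum_nonneg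
        intro i _
        split_ifs
        · simpa using hlog
        · simp
    · intro p _
      have hp := (h.prime p p.2).pos
      unfold act
      by_cases he : ∃ i : Fin k, (p : ℕ) ∣ c i + M * j
      · rw [dif_pos he]
        exact_mod_cast hp.ne'
      · rw [dif_neg he]
        simp
  calc ∑ j ∈ range N, Real.log (Dd (act P k c M j)) ≤
        ∑ j ∈ range N, ∑ p ∈ P, ∑ i : Fin k, Real.log p * (if p ∣ c i + M * j then 1 else 0) :=
        sum_le_sum fun j _ => h1 j
    _ = ∑ p ∈ P, ∑ i : Fin k, Real.log p *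
          (((range N).filter (fun j => p ∣ c i + M * j)).card : ℝ) := by
        rw [sum_comm]
        apply sum_congr rfl
        intro p _
        rw [sum_comm]
        apply sum_congr rfl
        intro i _
        rw [← mul_sum]
        congr 1
        rw [sum_boole]
    _ ≤ ∑ p ∈ P, ∑ _i : Fin k, Real.log p * ((N : ℝ) / p + 1) := by
        apply sum_le_sum
        intro p hp
        apply sum_le_sum
        intro i _
        exact mul_le_mul_of_nonneg_left (ActLog_count (h.prime p hp) (h.cop p hp) (c i) N)
          (Real.log_natCast_nonneg _)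
    _ = ∑ p ∈ P, Real.log p * (k * ((N : ℝ) / p + 1)) := by
        apply sum_congr rfl
        intro p _
        rw [sum_const, card_univ, Fintype.card_fin, nsmul_eq_mul]
        ring

end Pool.Agent.H87S
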