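import Pool.Agent.H87S.Defs

/-!
Pointwise approximation of `f(n)` by `gam(n) n^(it) GP(n)`.

PROOF PLAN.  `m = mpart w q n`; every prime `p ∣ n` with `p > w`, `p ∤ q` divides `n` exactly once, so `n/m` is the
product `r` of these primes, coprime to `m` and to `q`, and `f n = f m ∏_{p ∣ r} f p`
(`MultD.mul`), `n^(it) = m^(it) ∏ p^(it)` (`n >= 1`), `χ(n/m) = ∏ χ(p)`, `|χ(p)|^2 = 1` (`p ∤ q`):
`f p = zf p * χ p * p^(it)`.  So `f n = gam n * n^(it) * ∏_{p ∣ n, p > w, p ∤ q} zf p`.  The primes `p > y >= q`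
do not divide `q`, and `|∏_{p > y} zf p - 1| <= ∑_{p ∣ n, p > y} |1 - zf p|` (all factors in the unit disc).
-/

namespace Pool.Agent.H87S

open Finset

theorem mpart_pos (w q n : ℕ) : 1 ≤ mpart w q n := by
  unfold mpart
  refine Nat.one_le_iff_ne_zero.2 (prod_ne_zero_iff.2 fun p hp => ?_)
  have hp1 : p.Prime := Nat.prime_of_mem_primeFactors (mem_filter.1 hp).1
  exact pow_ne_zero _ hp1.ne_zero

theorem mpart_dvd (w q n : ℕ) (hn : 1 ≤ n) : mpart w q n ∣ n := by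
  have h1 : ∏ p ∈ n.primeFactors, p ^ n.factorization p = n :=
    Nat.prod_factorization_pow_eq_self (by omega)
  have h2 : mpart w q n ∣ ∏ p ∈ n.primeFactors, p ^ n.factorization p := by
    unfold mpart
    exact prod_dvd_prod_of_subset _ _ _ (filter_subset _ _)
  rwa [h1] at h2

theorem gam_norm_le {f : ℕ → ℂ} (hf : MultD f) {q : ℕ} (χ : DirichletCharacter ℂ q) (t : ℝ)
    (w n : ℕ) : ‖gam f χ t w n‖ ≤ 1 := by
  unfold gam
  rw [norm_mul, norm_mul, norm_natpow_neg_it _ (mpart_pos w q n) t, mul_one]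
  calc ‖f (mpart w q n)‖ * ‖χ ((n / mpart w q n : ℕ) : ZMod q)‖ ≤ 1 * 1 :=
        mul_le_mul (hf.le _ (mpart_pos w q n)) (DirichletCharacter.norm_le_one χ _)
          (norm_nonneg _) zero_le_one
    _ = 1 := one_mul 1

private theorem Approx_mult {f : ℕ → ℂ} (hf : MultD f) (m : ℕ) (hm : 1 ≤ m) (S : Finset ℕ)
    (hS : ∀ p ∈ S, p.Prime) (hSm : ∀ p ∈ S, ¬ p ∣ m) :
    f (m * ∏ p ∈ S, p) = f m * ∏ p ∈ S, f p := by
  classical
  induction S using Finset.induction_on with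
  | empty => simp
  | insert a S ha ih =>
    have hpos : 1 ≤ m * ∏ p ∈ S, p := by
      refine Nat.one_le_iff_ne_zero.2 (mul_ne_zero (by omega) (prod_ne_zero_iff.2 fun p hp => ?_))
      exact (hS p (mem_insert_of_mem hp)).ne_zero
    have hap : a.Prime := hS a (mem_insert_self a S)
    have hcop : Nat.Coprime (m * ∏ p ∈ S, p) a := by
      refine Nat.Coprime.mul_left ?_ ?_
      · exact ((Nat.Prime.coprime_iff_not_dvd hap).2 (hSm a (mem_insert_self a S))).symm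
      · refine Nat.Coprime.prod_left fun p hp => ?_
        refine (Nat.coprime_primes (hS p (mem_insert_of_mem hp)) hap).2 ?_
        rintro rfl
        exact ha hp
    have h1 : m * ∏ p ∈ insert a S, p = (m * ∏ p ∈ S, p) * a := by
      rw [prod_insert ha]
      ring
    rw [h1, hf.mul _ _ hpos hap.one_le hcop, ih (fun p hp => hS p (mem_insert_of_mem hp))
      (fun p hp => hSm p (mem_insert_of_mem hp)), prod_insert ha]
    ring

private theorem Approx_cpow (S : Finset ℕ) (s : ℂ) :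
    ((∏ p ∈ S, p : ℕ) : ℂ) ^ s = ∏ p ∈ S, (p : ℂ) ^ s := by
  classical
  induction S using Finset.induction_on with
  | empty => simp
  | insert a S ha ih =>
    rw [prod_insert ha, prod_insert ha, ← ih]
    push_cast
    have h1 := Complex.natCast_mul_natCast_cpow a (∏ p ∈ S, p) s
    push_cast at h1
    exact h1

private theorem Approx_prod (S : Finset ℕ) (z : ℕ → ℂ) (hz : ∀ p ∈ S, ‖z p‖ ≤ 1) :
    ‖∏ p ∈ S, z p - 1‖ ≤ ∑ p ∈ S, ‖1 - z p‖ := by
  classical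
  induction S using Finset.induction_on with
  | empty => simp
  | insert a S ha ih =>
    rw [prod_insert ha, sum_insert ha]
    have h1 : z a * ∏ p ∈ S, z p - 1 = z a * (∏ p ∈ S, z p - 1) + -(1 - z a) := by ring
    have h2 := ih fun p hp => hz p (mem_insert_of_mem hp)
    have h3 := hz a (mem_insert_self a S)
    rw [h1]
    calc ‖z a * (∏ p ∈ S, z p - 1) + -(1 - z a)‖ ≤ ‖z a * (∏ p ∈ S, z p - 1)‖ + ‖-(1 - z a)‖ :=
          norm_add_le _ _
      _ = ‖z a‖ * ‖∏ p ∈ S, z p - 1‖ + ‖1 - z a‖ := by rw [norm_mul, norm_neg]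
      _ ≤ 1 * ‖∏ p ∈ S, z p - 1‖ + ‖1 - z a‖ := by gcongr
      _ ≤ ‖1 - z a‖ + ∑ p ∈ S, ‖1 - z p‖ := by linarith

theorem approx_point {f : ℕ → ℂ} (hf : MultD f) {q : ℕ} (χ : DirichletCharacter ℂ q) (t : ℝ)
    (w y n : ℕ) (hq : 1 ≤ q) (hqy : q ≤ y) (hwy : w ≤ y) (hn : 1 ≤ n)
    (hsq : ∀ p : ℕ, p.Prime → w < p → ¬ p ^ 2 ∣ n) :
    ‖f n - gam f χ t w n * (n : ℂ) ^ ((t : ℂ) * Complex.I) *
        GP ((pr w y).filter (fun p => ¬ p ∣ q)) (zf f χ t) n‖ ≤
      ∑ p ∈ n.primeFactors.filter (fun p => y < p), ‖1 - zf f χ t p‖ := by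
  classical
  set m := mpart w q n with hm
  set R := n.primeFactors.filter (fun p => ¬ (p ≤ w ∨ p ∣ q)) with hR
  have hm1 : 1 ≤ m := mpart_pos w q n
  have hRp : ∀ p ∈ R, p.Prime ∧ p ∣ n ∧ w < p ∧ ¬ p ∣ q := by
    intro p hp
    obtain ⟨h1, h2⟩ := mem_filter.1 hp
    push Not at h2
    exact ⟨Nat.prime_of_mem_primeFactors h1, Nat.dvd_of_mem_primeFactors h1, h2.1, h2.2⟩
  have hfac : ∀ p ∈ R, n.factorization p = 1 := by
    intro p hp
    obtain ⟨hp1, hp2, hp3, _⟩ := hRp p hp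
    have h1 := (hp1.dvd_iff_one_le_factorization (by omega)).1 hp2
    have h2 : ¬ 2 ≤ n.factorization p := fun h =>
      hsq p hp1 hp3 ((hp1.pow_dvd_iff_le_factorization (by omega)).2 h)
    omega
  have hnm : n = m * ∏ p ∈ R, p := by
    have h1 : ∏ p ∈ n.primeFactors, p ^ n.factorization p = n :=
      Nat.prod_factorization_pow_eq_self (by omega)
    have h2 := prod_filter_mul_prod_filter_not n.primeFactors (fun p => p ≤ w ∨ p ∣ q)
      (fun p => p ^ n.factorization p)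
    have h3 : ∏ p ∈ R, p ^ n.factorization p = ∏ p ∈ R, p :=
      prod_congr rfl fun p hp => by rw [hfac p hp, pow_one]
    rw [h1] at h2
    rw [← h3]
    exact h2.symm
  have hRm : ∀ p ∈ R, ¬ p ∣ m := by
    intro p hp hpm
    obtain ⟨hp1, hp2, hp3, hp4⟩ := hRp p hp
    rw [hm] at hpm
    unfold mpart at hpm
    obtain ⟨r, hr, hpr⟩ := (hp1.prime.dvd_finsetProd_iff _).1 hpm
    obtain ⟨hr1, hr2⟩ := mem_filter.1 hr
    have h1 : p = r := (Nat.prime_dvd_prime_iff_eq hp1 (Nat.prime_of_mem_primeFactors hr1)).1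
      (hp1.dvd_of_dvd_pow hpr)
    subst h1
    rcases hr2 with h | h
    · omega
    · exact hp4 h
  have hdiv : n / m = ∏ p ∈ R, p := by
    conv_lhs => rw [hnm]
    exact Nat.mul_div_cancel_left _ (by omega)
  have hfn : f n = f m * ∏ p ∈ R, f p := by
    conv_lhs => rw [hnm]
    exact Approx_mult hf m hm1 R (fun p hp => (hRp p hp).1) hRm
  have hfp : ∀ p ∈ R, f p = zf f χ t p * (χ (p : ZMod q) * (p : ℂ) ^ ((t : ℂ) * Complex.I)) := by
    intro p hp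
    obtain ⟨hp1, hp2, hp3, hp4⟩ := hRp p hp
    have hunit : IsUnit ((p : ℕ) : ZMod q) := by
      rw [ZMod.isUnit_iff_coprime]
      exact (Nat.Prime.coprime_iff_not_dvd hp1).2 hp4
    have h1 : ‖χ ((p : ℕ) : ZMod q)‖ = 1 := by
      obtain ⟨u, hu⟩ := hunit
      rw [← hu]
      exact DirichletCharacter.unit_norm_eq_one χ u
    have h2 : (starRingEnd ℂ) (χ (p : ZMod q)) * χ (p : ZMod q) = 1 := by
      rw [mul_comm, Complex.mul_conj, Complex.normSq_eq_norm_sq, h1]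
      simp
    have hp0 : (p : ℂ) ≠ 0 := by exact_mod_cast hp1.ne_zero
    have h3 : (p : ℂ) ^ (-((t : ℂ) * Complex.I)) * (p : ℂ) ^ ((t : ℂ) * Complex.I) = 1 := by
      rw [← Complex.cpow_add _ _ hp0, neg_add_cancel, Complex.cpow_zero]
    unfold zf
    calc f p = f p * ((starRingEnd ℂ) (χ (p : ZMod q)) * χ (p : ZMod q)) *
          ((p : ℂ) ^ (-((t : ℂ) * Complex.I)) * (p : ℂ) ^ ((t : ℂ) * Complex.I)) := by
            rw [h2, h3]; ring
      _ = _ := by ring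
  have hm0 : (m : ℂ) ≠ 0 := by exact_mod_cast (by omega : m ≠ 0)
  have h3 : (m : ℂ) ^ (-((t : ℂ) * Complex.I)) * (m : ℂ) ^ ((t : ℂ) * Complex.I) = 1 := by
    rw [← Complex.cpow_add _ _ hm0, neg_add_cancel, Complex.cpow_zero]
  have hnc : (n : ℂ) ^ ((t : ℂ) * Complex.I) = (m : ℂ) ^ ((t : ℂ) * Complex.I) *
      ∏ p ∈ R, (p : ℂ) ^ ((t : ℂ) * Complex.I) := by
    have h1 := Complex.natCast_mul_natCast_cpow m (∏ p ∈ R, p) ((t : ℂ) * Complex.I)
    rw [Approx_cpow] at h1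
    rw [← h1]
    congr 1
    exact_mod_cast hnm
  have hchi : χ ((n / m : ℕ) : ZMod q) = ∏ p ∈ R, χ (p : ZMod q) := by
    rw [hdiv, Nat.cast_prod, map_prod]
  have hexact : f n = gam f χ t w n * (n : ℂ) ^ ((t : ℂ) * Complex.I) * ∏ p ∈ R, zf f χ t p := by
    have h4 : gam f χ t w n = f m * (m : ℂ) ^ (-((t : ℂ) * Complex.I)) * ∏ p ∈ R, χ (p : ZMod q) := by
      unfold gam
      rw [← hm, hchi]
    rw [hfn, prod_congr rfl hfp, prod_mul_distrib, prod_mul_distrib, h4, hnc]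
    calc f m * ((∏ p ∈ R, zf f χ t p) * ((∏ p ∈ R, χ (p : ZMod q)) *
          ∏ p ∈ R, (p : ℂ) ^ ((t : ℂ) * Complex.I))) = f m * 1 * (∏ p ∈ R, χ (p : ZMod q)) *
          (∏ p ∈ R, (p : ℂ) ^ ((t : ℂ) * Complex.I)) * ∏ p ∈ R, zf f χ t p := by
            ring
      _ = _ := by
        rw [← h3]
        ring
  have hsplit : ∏ p ∈ R, zf f χ t p = GP ((pr w y).filter (fun p => ¬ p ∣ q)) (zf f χ t) n *
      ∏ p ∈ R.filter (fun p => y < p), zf f χ t p := by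
    rw [← prod_filter_mul_prod_filter_not R (fun p => y < p) (fun p => zf f χ t p), mul_comm]
    congr 1
    unfold GP
    refine prod_congr ?_ fun _ _ => rfl
    ext p
    simp only [hR, mem_filter, Nat.mem_primeFactors, mem_pr, not_or, not_le, not_lt]
    constructor
    · rintro ⟨⟨⟨h1, h2, _⟩, h3, h4⟩, h5⟩
      exact ⟨⟨⟨⟨h3, h5⟩, h1⟩, h4⟩, h2⟩
    · rintro ⟨⟨⟨⟨h3, h5⟩, h1⟩, h4⟩, h2⟩
      exact ⟨⟨⟨h1, h2, by omega⟩, h3, h4⟩, h5⟩
  have hz : ∀ p ∈ R.filter (fun p => y < p), ‖zf f χ t p‖ ≤ 1 := fun p hp =>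
    zf_norm_le hf χ t p (hRp p (mem_filter.1 hp).1).1.one_le
  have hGP : ‖GP ((pr w y).filter (fun p => ¬ p ∣ q)) (zf f χ t) n‖ ≤ 1 :=
    GP_norm_le _ _ (fun p hp => zf_norm_le hf χ t p
      (mem_pr.1 (mem_filter.1 hp).1).2.one_le) n
  rw [hexact, hsplit]
  set g := gam f χ t w n
  set N := (n : ℂ) ^ ((t : ℂ) * Complex.I) with hN
  set G := GP ((pr w y).filter (fun p => ¬ p ∣ q)) (zf f χ t) n
  set Q := ∏ p ∈ R.filter (fun p => y < p), zf f χ t p with hQ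
  have h5 : g * N * (G * Q) - g * N * G = g * N * G * (Q - 1) := by ring
  rw [h5, norm_mul, norm_mul, norm_mul, hN, norm_natpow_it n hn t, mul_one]
  have h6 : ‖g‖ * ‖G‖ ≤ 1 := by
    calc ‖g‖ * ‖G‖ ≤ 1 * 1 := mul_le_mul (gam_norm_le hf χ t w n) hGP (norm_nonneg _) zero_le_one
      _ = 1 := one_mul 1
  calc ‖g‖ * ‖G‖ * ‖Q - 1‖ ≤ 1 * ‖Q - 1‖ := mul_le_mul_of_nonneg_right h6 (norm_nonneg _)
    _ = ‖Q - 1‖ := one_mul _
    _ ≤ ∑ p ∈ R.filter (fun p => y < p), ‖1 - zf f χ t p‖ := Approx_prod _ _ hz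
    _ ≤ _ := by
      refine sum_le_sum_of_subset_of_nonneg ?_ fun _ _ _ => norm_nonneg _
      intro p hp
      obtain ⟨h7, h8⟩ := mem_filter.1 hp
      exact mem_filter.2 ⟨(mem_filter.1 h7).1, h8⟩

end Pool.Agent.H87S
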