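import Pool.Agent.H87S.Approx

/-!
The approximation on average.

PROOF PLAN.  The `n <= x` divisible by `p^2` for some prime `p > w`: at most `∑_{m > w} x/m^2 <= x/w`; for these the
difference is at most `2`.  For the others `approx_point`; interchange the sums: `p ∣ n`, `n <= x` has at
most `x/p` solutions.
-/

namespace Pool.Agent.H87S

open Finset

/-- number of multiples -/
private theorem ApproxSum_card (x d : ℕ) :
    (((Icc 1 x).filter (fun n => d ∣ n)).card : ℝ) ≤ (x : ℝ) / d := by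
  have h1 : (Icc 1 x).filter (fun n => d ∣ n) = (Ioc 0 x).filter (fun n => d ∣ n) := by
    ext n
    simp only [mem_filter, mem_Icc, mem_Ioc]
    constructor
    · rintro ⟨⟨h, h'⟩, h''⟩
      exact ⟨⟨by omega, h'⟩, h''⟩
    · rintro ⟨⟨h, h'⟩, h''⟩
      exact ⟨⟨by omega, h'⟩, h''⟩
  rw [h1, Nat.Ioc_filter_dvd_card_eq_div]
  exact Nat.cast_div_le

private theorem ApproxSum_bad (x w : ℕ) (hw : 1 ≤ w) :
    ∑ n ∈ Icc 1 x, (∑ m ∈ Ioc w x, if m ^ 2 ∣ n then (2 : ℝ) else 0) ≤ 2 * x / w := by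
  rw [sum_comm]
  have h1 : ∀ m ∈ Ioc w x, (∑ n ∈ Icc 1 x, if m ^ 2 ∣ n then (2 : ℝ) else 0) ≤
      2 * x * ((m : ℝ) ^ 2)⁻¹ := by
    intro m _
    rw [← sum_filter, sum_const, nsmul_eq_mul]
    have := ApproxSum_card x (m ^ 2)
    push_cast at this
    rw [div_eq_mul_inv] at this
    linarith
  refine (sum_le_sum h1).trans ?_
  rw [← mul_sum]
  by_cases hwx : w ≤ x
  · have h2 := sum_Ioc_inv_sq_le_sub (α := ℝ) (k := w) (n := x) (by omega) hwx
    have h3 : (0 : ℝ) ≤ (x : ℝ)⁻¹ := by positivity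
    have h4 : ∑ i ∈ Ioc w x, ((i : ℝ) ^ 2)⁻¹ ≤ (w : ℝ)⁻¹ := by linarith
    rw [div_eq_mul_inv]
    exact mul_le_mul_of_nonneg_left h4 (by positivity)
  · rw [Ioc_eq_empty (by omega)]
    simp only [sum_empty, mul_zero]
    positivity

theorem approx_sum {f : ℕ → ℂ} (hf : MultD f) {q : ℕ} (χ : DirichletCharacter ℂ q) (t : ℝ)
    (w y x : ℕ) (hw : 1 ≤ w) (hq : 1 ≤ q) (hqy : q ≤ y) (hwy : w ≤ y) :
    ∑ n ∈ Icc 1 x, ‖f n - gam f χ t w n * (n : ℂ) ^ ((t : ℂ) * Complex.I) *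
        GP ((pr w y).filter (fun p => ¬ p ∣ q)) (zf f χ t) n‖ ≤
      2 * x / w + x * ∑ p ∈ pr y x, ‖1 - zf f χ t p‖ / p := by
  have hz0 : ∀ p, 0 ≤ ‖1 - zf f χ t p‖ := fun p => norm_nonneg _
  have hpt : ∀ n ∈ Icc 1 x, ‖f n - gam f χ t w n * (n : ℂ) ^ ((t : ℂ) * Complex.I) *
        GP ((pr w y).filter (fun p => ¬ p ∣ q)) (zf f χ t) n‖ ≤
      (∑ m ∈ Ioc w x, if m ^ 2 ∣ n then (2 : ℝ) else 0) +
        ∑ p ∈ pr y x, if p ∣ n then ‖1 - zf f χ t p‖ else 0 := by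
    intro n hn
    obtain ⟨hn1, hnx⟩ := mem_Icc.mp hn
    have hs1 : 0 ≤ ∑ m ∈ Ioc w x, if m ^ 2 ∣ n then (2 : ℝ) else 0 :=
      sum_nonneg (fun m _ => by split_ifs <;> norm_num)
    have hs2 : 0 ≤ ∑ p ∈ pr y x, if p ∣ n then ‖1 - zf f χ t p‖ else 0 :=
      sum_nonneg (fun p _ => by split_ifs; exacts [hz0 p, le_rfl])
    by_cases hbad : ∃ p : ℕ, p.Prime ∧ w < p ∧ p ^ 2 ∣ n
    · obtain ⟨p, hp, hwp, hpn⟩ := hbad
      have hpx : p ≤ x := by
        have h1 : p ^ 2 ≤ n := Nat.le_of_dvd (by omega) hpn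
        have h2 : p ≤ p ^ 2 := Nat.le_self_pow (by norm_num) p
        omega
      have h2 : (2 : ℝ) ≤ ∑ m ∈ Ioc w x, if m ^ 2 ∣ n then (2 : ℝ) else 0 := by
        have h3 := single_le_sum (f := fun m => if m ^ 2 ∣ n then (2 : ℝ) else 0)
          (s := Ioc w x) (fun m _ => by split_ifs <;> norm_num) (mem_Ioc.mpr ⟨hwp, hpx⟩)
        simp only [if_pos hpn] at h3
        exact h3
      have hG : ‖GP ((pr w y).filter (fun p => ¬ p ∣ q)) (zf f χ t) n‖ ≤ 1 := by
        apply GP_norm_le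
        intro p hp
        have hp' := (mem_pr.mp (mem_filter.mp hp).1).2
        exact zf_norm_le hf χ t p hp'.one_le
      have h4 : ‖f n - gam f χ t w n * (n : ℂ) ^ ((t : ℂ) * Complex.I) *
          GP ((pr w y).filter (fun p => ¬ p ∣ q)) (zf f χ t) n‖ ≤ 2 := by
        refine (norm_sub_le _ _).trans ?_
        rw [norm_mul, norm_mul, norm_natpow_it n hn1 t, mul_one]
        have h5 := hf.le n hn1
        have h6 := gam_norm_le hf χ t w n
        have h7 : ‖gam f χ t w n‖ *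
            ‖GP ((pr w y).filter (fun p => ¬ p ∣ q)) (zf f χ t) n‖ ≤ 1 * 1 :=
          mul_le_mul h6 hG (norm_nonneg _) zero_le_one
        linarith
      linarith
    · push Not at hbad
      have h1 := approx_point hf χ t w y n hq hqy hwy hn1 hbad
      refine h1.trans ?_
      have h2 : ∑ p ∈ n.primeFactors.filter (fun p => y < p), ‖1 - zf f χ t p‖ ≤
          ∑ p ∈ pr y x, if p ∣ n then ‖1 - zf f χ t p‖ else 0 := by
        rw [← sum_filter]
        apply sum_le_sum_of_subset_of_nonneg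
        · intro p hp
          obtain ⟨hp1, hp2⟩ := mem_filter.mp hp
          have hp3 := Nat.dvd_of_mem_primeFactors hp1
          have hp4 := Nat.le_of_dvd (by omega) hp3
          exact mem_filter.mpr ⟨mem_pr.mpr ⟨⟨hp2, by omega⟩, Nat.prime_of_mem_primeFactors hp1⟩,
            hp3⟩
        · exact fun p _ _ => hz0 p
      linarith
  refine (sum_le_sum hpt).trans ?_
  rw [sum_add_distrib]
  apply add_le_add (ApproxSum_bad x w hw)
  rw [sum_comm, mul_sum]
  apply sum_le_sum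
  intro p _
  rw [← sum_filter, sum_const, nsmul_eq_mul]
  have h1 := mul_le_mul_of_nonneg_right (ApproxSum_card x p) (hz0 p)
  calc _ ≤ (x : ℝ) / p * ‖1 - zf f χ t p‖ := h1
    _ = x * (‖1 - zf f χ t p‖ / p) := by ring

end Pool.Agent.H87S
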