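import Pool.Agent.H87S.Defs

/-!
The structured factor `gam` is constant on residue classes modulo `MM`, for good arguments.

PROOF PLAN.  Let `n ≡ c` modulo `M = MM w L q`, `c` a good argument.  For `p <= w`: `v_p(c) < L <= v_p(M)`, for `p ∣ q`,
`p > w`: `v_p(c) <= 1 < v_p(q) + 1 = v_p(M)` (`v_p(q) >= 1`); so `v_p(n) = v_p(c)` for all these primes and
`mpart n = mpart c =: m`.  `n/m ≡ c/m` modulo `M/m` and `q ∣ M/m` (`v_p(M) - v_p(m) >= v_p(q)` for all
`p ∣ q`), so `χ(n/m) = χ(c/m)`.  `MM_le`: `∏_{p <= w} p^L <= (w^w)^L`, the factors `p^{v_p(q)}` multiply to `q`,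
the remaining primes to at most `q`.  `bad_count`: `p^L ∣ MM` for `p <= w`, so exactly `MM/p^L` of the
`c ∈ [1, MM]` have `p^L ∣ c + h`; same with `p^2` for `p ∣ q`, `p > w`; `∑_{p <= w} p^(-L) <= w/2^L`,
`∑_{p > w} 1/p^2 <= 1/w`.
-/

namespace Pool.Agent.H87S

open Finset

theorem MM_pos (w L q : ℕ) : 1 ≤ MM w L q := by
  unfold MM
  apply Nat.succ_le_of_lt
  apply Nat.mul_pos
  · apply prod_pos
    intro p hp
    exact Nat.pow_pos (mem_pr.mp hp).2.pos
  · apply prod_pos
    intro p hp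
    exact Nat.pow_pos (Nat.prime_of_mem_primeFactors (mem_filter.mp hp).1).pos

/-- the part of `n` on the relevant primes, as a product over a fixed set -/
private theorem Cls_mpart (w q n : ℕ) (hq : 1 ≤ q) :
    mpart w q n = (∏ p ∈ pr 0 w, p ^ n.factorization p) *
      ∏ p ∈ q.primeFactors.filter (fun p => w < p), p ^ n.factorization p := by
  have hdis : Disjoint (pr 0 w) (q.primeFactors.filter (fun p => w < p)) := by
    rw [disjoint_left]
    intro p hp hp'
    have h1 := (mem_pr.mp hp).1.2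
    have h2 := (mem_filter.mp hp').2
    omega
  rw [← prod_union hdis]
  unfold mpart
  apply prod_subset
  · intro p hp
    obtain ⟨hp1, hp2⟩ := mem_filter.mp hp
    have hpp := Nat.prime_of_mem_primeFactors hp1
    by_cases hpw : p ≤ w
    · exact mem_union_left _ (mem_pr.mpr ⟨⟨hpp.pos, hpw⟩, hpp⟩)
    · apply mem_union_right
      rcases hp2 with h | h
      · exact absurd h hpw
      · exact mem_filter.mpr ⟨Nat.mem_primeFactors.mpr ⟨hpp, h, by omega⟩, by omega⟩
  · intro p hp hp'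
    have hpp : p.Prime ∧ (p ≤ w ∨ p ∣ q) := by
      rcases mem_union.mp hp with h | h
      · exact ⟨(mem_pr.mp h).2, Or.inl (mem_pr.mp h).1.2⟩
      · have h1 := (mem_filter.mp h).1
        exact ⟨Nat.prime_of_mem_primeFactors h1, Or.inr (Nat.dvd_of_mem_primeFactors h1)⟩
    have h1 : p ∉ n.primeFactors := fun h => hp' (mem_filter.mpr ⟨h, hpp.2⟩)
    have h2 : n.factorization p = 0 := by
      rw [← Nat.support_factorization] at h1
      exact Finsupp.notMem_support_iff.mp h1
    rw [h2, pow_zero]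

private theorem Cls_mpart_pos (w q n : ℕ) : 1 ≤ mpart w q n := by
  unfold mpart
  apply Nat.succ_le_of_lt
  apply prod_pos
  intro p hp
  exact Nat.pow_pos (Nat.prime_of_mem_primeFactors (mem_filter.mp hp).1).pos

private theorem Cls_mpart_dvd (w q n : ℕ) (hn : 1 ≤ n) : mpart w q n ∣ n := by
  have h2 := Nat.prod_factorization_pow_eq_self (n := n) (by omega)
  rw [Finsupp.prod, Nat.support_factorization] at h2
  have h1 : mpart w q n ∣ ∏ p ∈ n.primeFactors, p ^ n.factorization p :=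
    prod_dvd_prod_of_subset _ _ _ (filter_subset _ _)
  rw [h2] at h1
  exact h1

private theorem Cls_mpart_self (w q : ℕ) (hq : 1 ≤ q) : mpart w q q = q := by
  unfold mpart
  have h1 : q.primeFactors.filter (fun p => p ≤ w ∨ p ∣ q) = q.primeFactors := by
    apply filter_true_of_mem
    intro p hp
    exact Or.inr (Nat.dvd_of_mem_primeFactors hp)
  rw [h1]
  have h2 := Nat.prod_factorization_pow_eq_self (n := q) (by omega)
  rw [Finsupp.prod, Nat.support_factorization] at h2
  exact h2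

private theorem Cls_prod_pr_le (w : ℕ) (hw : 1 ≤ w) : ∏ p ∈ pr 0 w, p ≤ w ^ w := by
  have h1 : ∏ p ∈ pr 0 w, p ≤ ∏ _p ∈ pr 0 w, w := by
    apply prod_le_prod'
    intro p hp
    exact (mem_pr.mp hp).1.2
  refine h1.trans ?_
  rw [prod_const]
  apply Nat.pow_le_pow_right (by omega)
  unfold pr
  refine (card_filter_le _ _).trans ?_
  rw [Nat.card_Ioc]
  omega

theorem MM_le (w L q : ℕ) (hw : 1 ≤ w) (hq : 1 ≤ q) : MM w L q ≤ (w ^ w) ^ L * q ^ 2 := by
  have e1 : MM w L q = ((∏ p ∈ pr 0 w, p) ^ L * ∏ p ∈ q.primeFactors.filter (fun p => w < p), p) *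
      ((∏ p ∈ pr 0 w, p ^ q.factorization p) *
        ∏ p ∈ q.primeFactors.filter (fun p => w < p), p ^ q.factorization p) := by
    unfold MM
    have h1 : ∏ p ∈ pr 0 w, p ^ (L + q.factorization p) =
        (∏ p ∈ pr 0 w, p) ^ L * ∏ p ∈ pr 0 w, p ^ q.factorization p := by
      rw [← prod_pow, ← prod_mul_distrib]
      exact prod_congr rfl (fun p _ => pow_add _ _ _)
    have h2 : ∏ p ∈ q.primeFactors.filter (fun p => w < p), p ^ (q.factorization p + 1) =
        (∏ p ∈ q.primeFactors.filter (fun p => w < p), p ^ q.factorization p) *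
          ∏ p ∈ q.primeFactors.filter (fun p => w < p), p := by
      rw [← prod_mul_distrib]
      exact prod_congr rfl (fun p _ => pow_succ _ _)
    rw [h1, h2]
    ring
  rw [e1, ← Cls_mpart w q q hq, Cls_mpart_self w q hq]
  have h3 : ∏ p ∈ q.primeFactors.filter (fun p => w < p), p ≤ q := by
    have h4 : ∏ p ∈ q.primeFactors.filter (fun p => w < p), p ∣ ∏ p ∈ q.primeFactors, p :=
      prod_dvd_prod_of_subset _ _ _ (filter_subset _ _)
    exact Nat.le_of_dvd (by omega) (h4.trans (Nat.prod_primeFactors_dvd q))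
  have h5 := Nat.pow_le_pow_left (Cls_prod_pr_le w hw) L
  calc _ ≤ ((w ^ w) ^ L * q) * q := Nat.mul_le_mul_right _ (Nat.mul_le_mul h5 h3)
    _ = (w ^ w) ^ L * q ^ 2 := by ring

theorem not_dvd_MM (w L q p : ℕ) (hp : p.Prime) (hpw : w < p) (hpq : ¬ p ∣ q) :
    ¬ p ∣ MM w L q := by
  intro h
  unfold MM at h
  rcases (Nat.Prime.dvd_mul hp).mp h with h | h
  · obtain ⟨r, hr, hd⟩ := (Prime.dvd_finsetProd_iff hp.prime _).mp h
    have hr' := mem_pr.mp hr
    have := (Nat.prime_dvd_prime_iff_eq hp hr'.2).mp (hp.dvd_of_dvd_pow hd)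
    omega
  · obtain ⟨r, hr, hd⟩ := (Prime.dvd_finsetProd_iff hp.prime _).mp h
    have hr' := (mem_filter.mp hr).1
    have h1 := (Nat.prime_dvd_prime_iff_eq hp (Nat.prime_of_mem_primeFactors hr')).mp
      (hp.dvd_of_dvd_pow hd)
    rw [h1] at hpq
    exact hpq (Nat.dvd_of_mem_primeFactors hr')

/-- valuations of congruent numbers agree if they are small -/
private theorem Cls_fact {p e M n c : ℕ} (hp : p.Prime) (hM : p ^ e ∣ M) (hn : 1 ≤ n)
    (hc : 1 ≤ c) (hnc : n ≡ c [MOD M]) (hv : c.factorization p < e) :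
    n.factorization p = c.factorization p := by
  have h1 : ∀ j, j ≤ e → (p ^ j ∣ n ↔ p ^ j ∣ c) := by
    intro j hj
    exact (hnc.of_dvd ((pow_dvd_pow p hj).trans hM)).dvd_iff (dvd_refl _)
  have h2 : c.factorization p ≤ n.factorization p := by
    apply (hp.pow_dvd_iff_le_factorization (by omega)).mp
    exact (h1 _ hv.le).mpr ((hp.pow_dvd_iff_le_factorization (by omega)).mpr le_rfl)
  have h3 : ¬ c.factorization p + 1 ≤ n.factorization p := by
    intro h
    have h4 := (hp.pow_dvd_iff_le_factorization (by omega)).mpr h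
    have h5 := (hp.pow_dvd_iff_le_factorization (by omega)).mp ((h1 _ hv).mp h4)
    omega
  omega

private theorem Cls_dvd1 (w L q p : ℕ) (hp : p ∈ pr 0 w) : p ^ (L + q.factorization p) ∣ MM w L q :=
  (dvd_prod_of_mem (fun p => p ^ (L + q.factorization p)) hp).trans (Dvd.intro _ rfl)

private theorem Cls_dvd2 (w L q p : ℕ) (hp : p ∈ q.primeFactors.filter (fun p => w < p)) :
    p ^ (q.factorization p + 1) ∣ MM w L q :=
  (dvd_prod_of_mem (fun p => p ^ (q.factorization p + 1)) hp).trans (Dvd.intro_left _ rfl)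

private theorem Cls_v1 {w L q c p : ℕ} (hc : 1 ≤ c) (hg : GoodArg w L q c) (hp : p ∈ pr 0 w) :
    c.factorization p < L := by
  have hp' := mem_pr.mp hp
  by_contra h
  push Not at h
  exact hg.1 p hp'.2 hp'.1.2 ((hp'.2.pow_dvd_iff_le_factorization (by omega)).mpr h)

private theorem Cls_v2 {w L q c p : ℕ} (hc : 1 ≤ c) (hg : GoodArg w L q c)
    (hp : p ∈ q.primeFactors.filter (fun p => w < p)) : c.factorization p ≤ 1 := by
  obtain ⟨hp1, hp2⟩ := mem_filter.mp hp
  have hpp := Nat.prime_of_mem_primeFactors hp1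
  by_contra h
  push Not at h
  exact hg.2 p hpp hp2 (Nat.dvd_of_mem_primeFactors hp1)
    ((hpp.pow_dvd_iff_le_factorization (by omega)).mpr h)

private theorem Cls_q1 {w q p : ℕ} (hq : 1 ≤ q)
    (hp : p ∈ q.primeFactors.filter (fun p => w < p)) : 1 ≤ q.factorization p := by
  obtain ⟨hp1, hp2⟩ := mem_filter.mp hp
  have hpp := Nat.prime_of_mem_primeFactors hp1
  exact (hpp.dvd_iff_one_le_factorization (by omega)).mp (Nat.dvd_of_mem_primeFactors hp1)

theorem gam_const {f : ℕ → ℂ} (hf : MultD f) {q : ℕ} (χ : DirichletCharacter ℂ q) (t : ℝ)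
    (w L n c : ℕ) (hq : 1 ≤ q) (hL : 1 ≤ L) (hn : 1 ≤ n) (hc : 1 ≤ c)
    (hnc : n ≡ c [MOD MM w L q]) (hg : GoodArg w L q c) :
    gam f χ t w n = gam f χ t w c := by
  have hm : mpart w q n = mpart w q c := by
    rw [Cls_mpart w q n hq, Cls_mpart w q c hq]
    congr 1
    · apply prod_congr rfl
      intro p hp
      rw [Cls_fact (mem_pr.mp hp).2 (Cls_dvd1 w L q p hp) hn hc hnc
        (by have := Cls_v1 hc hg hp; omega)]
    · apply prod_congr rfl
      intro p hp
      rw [Cls_fact (Nat.prime_of_mem_primeFactors (mem_filter.mp hp).1) (Cls_dvd2 w L q p hp)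
        hn hc hnc (by have := Cls_v2 hc hg hp; have := Cls_q1 hq hp; omega)]
  have hmn : mpart w q c ∣ n := hm ▸ Cls_mpart_dvd w q n hn
  have hmc : mpart w q c ∣ c := Cls_mpart_dvd w q c hc
  have hmq : mpart w q c * q ∣ MM w L q := by
    have h1 : mpart w q c * q = (∏ p ∈ pr 0 w, p ^ (c.factorization p + q.factorization p)) *
        ∏ p ∈ q.primeFactors.filter (fun p => w < p),
          p ^ (c.factorization p + q.factorization p) := by
      have h2 : mpart w q c * q = mpart w q c * mpart w q q := by rw [Cls_mpart_self w q hq]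
      rw [h2, Cls_mpart w q c hq, Cls_mpart w q q hq]
      simp only [pow_add, prod_mul_distrib]
      ring
    rw [h1]
    unfold MM
    apply mul_dvd_mul
    · apply prod_dvd_prod_of_dvd
      intro p hp
      apply pow_dvd_pow
      have := Cls_v1 hc hg hp
      omega
    · apply prod_dvd_prod_of_dvd
      intro p hp
      apply pow_dvd_pow
      have := Cls_v2 hc hg hp
      omega
  have hpos : 1 ≤ mpart w q c := Cls_mpart_pos w q c
  obtain ⟨n', hn'⟩ := hmn
  obtain ⟨c', hc'⟩ := hmc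
  have hdn : n / mpart w q c = n' := Nat.div_eq_of_eq_mul_right hpos hn'
  have hdc : c / mpart w q c = c' := Nat.div_eq_of_eq_mul_right hpos hc'
  have hmod : n' ≡ c' [MOD q] := by
    have h1 : mpart w q c * n' ≡ mpart w q c * c' [MOD mpart w q c * q] := by
      rw [← hn', ← hc']
      exact hnc.of_dvd hmq
    exact Nat.ModEq.mul_left_cancel' (by omega) h1
  have hcast : (n' : ZMod q) = (c' : ZMod q) := (ZMod.natCast_eq_natCast_iff _ _ _).mpr hmod
  unfold gam
  rw [hm, hdn, hdc, hcast]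

private theorem Cls_count {M d : ℕ} (hd : d ∣ M) (h : ℕ) :
    (((Icc 1 M).filter (fun c => d ∣ c + h)).card : ℝ) = (M : ℝ) / d := by
  rcases Nat.eq_zero_or_pos d with hd0 | hd0
  · subst hd0
    have hM : M = 0 := Nat.eq_zero_of_zero_dvd hd
    subst hM
    simp
  have h1 : ((Icc 1 M).filter (fun c => d ∣ c + h)).card =
      ((Ioc h (M + h)).filter (fun x => d ∣ x)).card := by
    apply card_bij (fun c _ => c + h)
    · intro c hc
      obtain ⟨hc1, hc2⟩ := mem_filter.mp hc
      have := mem_Icc.mp hc1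
      exact mem_filter.mpr ⟨mem_Ioc.mpr ⟨by omega, by omega⟩, hc2⟩
    · intro a _ b _ hab
      omega
    · intro x hx
      obtain ⟨hx1, hx2⟩ := mem_filter.mp hx
      have := mem_Ioc.mp hx1
      exact ⟨x - h, mem_filter.mpr ⟨mem_Icc.mpr ⟨by omega, by omega⟩,
        by rw [Nat.sub_add_cancel (by omega)]; exact hx2⟩, by omega⟩
  have h2 : ((Ioc 0 h).filter (fun x => d ∣ x)).card + ((Ioc h (M + h)).filter (fun x => d ∣ x)).card
      = ((Ioc 0 (M + h)).filter (fun x => d ∣ x)).card := by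
    rw [← card_union_of_disjoint]
    · rw [← filter_union, Ioc_union_Ioc_eq_Ioc (by omega) (by omega)]
    · apply disjoint_filter_filter
      rw [disjoint_left]
      intro x hx hx'
      have h3 := mem_Ioc.mp hx
      have h4 := mem_Ioc.mp hx'
      omega
  rw [Nat.Ioc_filter_dvd_card_eq_div, Nat.Ioc_filter_dvd_card_eq_div] at h2
  obtain ⟨k, rfl⟩ := hd
  have h3 : (d * k + h) / d = k + h / d := by
    rw [Nat.add_comm, Nat.add_mul_div_left _ _ hd0]
    omega
  have h4 : ((Icc 1 (d * k)).filter (fun c => d ∣ c + h)).card = k := by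
    rw [h1]
    omega
  rw [h4]
  have hd1 : (d : ℝ) ≠ 0 := by positivity
  push_cast
  field_simp

open Classical in
theorem bad_count (w L q H : ℕ) (hw : 1 ≤ w) (hq : 1 ≤ q) :
    (((Icc 1 (MM w L q)).filter (fun c => ∃ h < H, ¬ GoodArg w L q (c + h))).card : ℝ) ≤
      H * MM w L q * ((w : ℝ) / 2 ^ L + 1 / w) := by
  set M := MM w L q with hM
  set T2 := q.primeFactors.filter (fun p => w < p) with hT2
  have hsub : (Icc 1 M).filter (fun c => ∃ h < H, ¬ GoodArg w L q (c + h)) ⊆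
      (range H).biUnion (fun h =>
        ((pr 0 w).biUnion (fun p => (Icc 1 M).filter (fun c => p ^ L ∣ c + h))) ∪
        (T2.biUnion (fun p => (Icc 1 M).filter (fun c => p ^ 2 ∣ c + h)))) := by
    intro c hc
    obtain ⟨hc1, h, hh, hb⟩ := mem_filter.mp hc
    rw [mem_biUnion]
    refine ⟨h, mem_range.mpr hh, ?_⟩
    unfold GoodArg at hb
    rw [not_and_or] at hb
    rcases hb with hb | hb
    · push Not at hb
      obtain ⟨p, hp, hpw, hd⟩ := hb
      apply mem_union_left
      rw [mem_biUnion]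
      exact ⟨p, mem_pr.mpr ⟨⟨hp.pos, hpw⟩, hp⟩, mem_filter.mpr ⟨hc1, hd⟩⟩
    · push Not at hb
      obtain ⟨p, hp, hpw, hpq, hd⟩ := hb
      apply mem_union_right
      rw [mem_biUnion]
      exact ⟨p, mem_filter.mpr ⟨Nat.mem_primeFactors.mpr ⟨hp, hpq, by omega⟩, hpw⟩,
        mem_filter.mpr ⟨hc1, hd⟩⟩
  have hcard : ((((Icc 1 M).filter (fun c => ∃ h < H, ¬ GoodArg w L q (c + h))).card : ℕ) : ℝ) ≤
      ∑ h ∈ range H, ((∑ p ∈ pr 0 w, (((Icc 1 M).filter (fun c => p ^ L ∣ c + h)).card : ℝ)) +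
        ∑ p ∈ T2, (((Icc 1 M).filter (fun c => p ^ 2 ∣ c + h)).card : ℝ)) := by
    have h1 := (card_le_card hsub).trans card_biUnion_le
    have h2 : ∀ h ∈ range H, (((pr 0 w).biUnion (fun p => (Icc 1 M).filter (fun c => p ^ L ∣ c + h))) ∪
        (T2.biUnion (fun p => (Icc 1 M).filter (fun c => p ^ 2 ∣ c + h)))).card ≤
        (∑ p ∈ pr 0 w, ((Icc 1 M).filter (fun c => p ^ L ∣ c + h)).card) +
        ∑ p ∈ T2, ((Icc 1 M).filter (fun c => p ^ 2 ∣ c + h)).card := by
      intro h _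
      exact (card_union_le _ _).trans (add_le_add card_biUnion_le card_biUnion_le)
    have h3 := h1.trans (sum_le_sum h2)
    exact_mod_cast h3
  refine hcard.trans ?_
  have hMpos : (0 : ℝ) < M := by
    have := MM_pos w L q
    rw [← hM] at this
    exact_mod_cast this
  have hA : ∀ h, ∑ p ∈ pr 0 w, (((Icc 1 M).filter (fun c => p ^ L ∣ c + h)).card : ℝ) ≤
      M * ((w : ℝ) / 2 ^ L) := by
    intro h
    have h1 : ∀ p ∈ pr 0 w, (((Icc 1 M).filter (fun c => p ^ L ∣ c + h)).card : ℝ) ≤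
        (M : ℝ) * (1 / 2 ^ L) := by
      intro p hp
      have hp2 : 2 ≤ p := (mem_pr.mp hp).2.two_le
      have hd : p ^ L ∣ M := (pow_dvd_pow p (Nat.le_add_right L _)).trans (Cls_dvd1 w L q p hp)
      rw [Cls_count hd h, div_eq_mul_one_div]
      apply mul_le_mul_of_nonneg_left _ hMpos.le
      push_cast
      apply one_div_le_one_div_of_le (by positivity)
      exact pow_le_pow_left₀ (by norm_num) (by exact_mod_cast hp2) L
    refine (sum_le_sum h1).trans ?_
    rw [sum_const, nsmul_eq_mul]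
    have h2 : ((pr 0 w).card : ℝ) ≤ w := by
      have h3 : (pr 0 w).card ≤ w := by
        unfold pr
        refine (card_filter_le _ _).trans ?_
        rw [Nat.card_Ioc]
        omega
      exact_mod_cast h3
    calc ((pr 0 w).card : ℝ) * (M * (1 / 2 ^ L)) ≤ w * (M * (1 / 2 ^ L)) :=
          mul_le_mul_of_nonneg_right h2 (by positivity)
      _ = M * ((w : ℝ) / 2 ^ L) := by ring
  have hB : ∀ h, ∑ p ∈ T2, (((Icc 1 M).filter (fun c => p ^ 2 ∣ c + h)).card : ℝ) ≤
      M * (1 / (w : ℝ)) := by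
    intro h
    have h1 : ∀ p ∈ T2, (((Icc 1 M).filter (fun c => p ^ 2 ∣ c + h)).card : ℝ) =
        (M : ℝ) * ((p : ℝ) ^ 2)⁻¹ := by
      intro p hp
      have hq1 := Cls_q1 hq hp
      have hd : p ^ 2 ∣ M := (pow_dvd_pow p (by omega)).trans (Cls_dvd2 w L q p hp)
      rw [Cls_count hd h, div_eq_mul_inv]
      push_cast
      rfl
    rw [sum_congr rfl h1, ← mul_sum]
    apply mul_le_mul_of_nonneg_left _ hMpos.le
    have h2 : T2 ⊆ Ioc w (max w q) := by
      intro p hp
      obtain ⟨hp1, hp2⟩ := mem_filter.mp hp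
      have := Nat.le_of_mem_primeFactors hp1
      exact mem_Ioc.mpr ⟨hp2, by omega⟩
    have h3 : ∑ p ∈ T2, ((p : ℝ) ^ 2)⁻¹ ≤ ∑ p ∈ Ioc w (max w q), ((p : ℝ) ^ 2)⁻¹ :=
      sum_le_sum_of_subset_of_nonneg h2 (fun _ _ _ => by positivity)
    have h4 := sum_Ioc_inv_sq_le_sub (α := ℝ) (k := w) (n := max w q) (by omega)
      (le_max_left _ _)
    have h5 : (0 : ℝ) ≤ ((max w q : ℕ) : ℝ)⁻¹ := by positivity
    rw [one_div]
    linarith
  calc ∑ h ∈ range H, ((∑ p ∈ pr 0 w, (((Icc 1 M).filter (fun c => p ^ L ∣ c + h)).card : ℝ)) +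
        ∑ p ∈ T2, (((Icc 1 M).filter (fun c => p ^ 2 ∣ c + h)).card : ℝ))
      ≤ ∑ _h ∈ range H, (M * ((w : ℝ) / 2 ^ L) + M * (1 / (w : ℝ))) :=
        sum_le_sum (fun h _ => add_le_add (hA h) (hB h))
    _ = H * M * ((w : ℝ) / 2 ^ L + 1 / w) := by
        rw [sum_const, card_range, nsmul_eq_mul]
        ring

end Pool.Agent.H87S
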