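import Pool.Agent.H87S.Defs

/-!
The random model.

PROOF PLAN.  `∏_{p} ∑_{o : Option (Fin k)} F p o = ∑_τ ∏_p F p (τ p)` (`Finset.prod_univ_sum`,
`Fintype.piFinset_univ`), `Fintype.sum_option`.  For the logarithm: `log (Dd τ) = ∑_p [τ p ≠ none] log p`,
and `∑_τ nu τ [τ p ≠ none] = k/p` (the other factors sum to `1`).
-/

namespace Pool.Agent.H87S

open Finset

private theorem Model_prod_sum {R : Type*} [CommRing R] {P : Finset ℕ} {k : ℕ}
    (F : ↥P → Option (Fin k) → R) :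
    ∑ τ : Asg P k, ∏ p : ↥P, F p (τ p) = ∏ p : ↥P, ∑ o : Option (Fin k), F p o := by
  rw [Finset.prod_univ_sum, Fintype.piFinset_univ]

/-- the one prime weight -/
private noncomputable def Model_w {k : ℕ} (p : ℕ) (o : Option (Fin k)) : ℝ :=
  match o with
  | none => 1 - (k : ℝ) / (p : ℝ)
  | some _ => 1 / (p : ℝ)

private theorem Model_nu {P : Finset ℕ} {k : ℕ} (τ : Asg P k) :
    nu τ = ∏ p : ↥P, Model_w (p : ℕ) (τ p) := by
  unfold nu
  refine Finset.prod_congr rfl fun p _ => ?_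
  unfold Model_w
  rcases τ p with _ | i <;> rfl

private theorem Model_pos {P : Finset ℕ} {k : ℕ} (hP : ∀ p ∈ P, k < p) (p : ↥P) :
    (0 : ℝ) < ((p : ℕ) : ℝ) := by
  have h := hP p p.2
  exact_mod_cast (by omega : 0 < (p : ℕ))

private theorem Model_w_sum {k p : ℕ} (hp : k < p) :
    ∑ o : Option (Fin k), Model_w p o = 1 := by
  have h0 : (0 : ℝ) < (p : ℝ) := by exact_mod_cast (by omega : 0 < p)
  rw [Fintype.sum_option]
  have h1 : ∀ i : Fin k, Model_w p (some i) = 1 / (p : ℝ) := fun i => rfl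
  have h2 : Model_w p (none : Option (Fin k)) = 1 - (k : ℝ) / (p : ℝ) := rfl
  rw [Finset.sum_congr rfl (fun i _ => h1 i), h2, Finset.sum_const, Finset.card_univ,
    Fintype.card_fin, nsmul_eq_mul]
  ring

theorem nu_nonneg {P : Finset ℕ} {k : ℕ} (hP : ∀ p ∈ P, k < p) (τ : Asg P k) : 0 ≤ nu τ := by
  rw [Model_nu]
  refine Finset.prod_nonneg fun p _ => ?_
  have h0 := Model_pos hP p
  have hk : (k : ℝ) ≤ ((p : ℕ) : ℝ) := by exact_mod_cast (hP p p.2).le
  rcases τ p with _ | i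
  · show 0 ≤ 1 - (k : ℝ) / (((p : ℕ)) : ℝ)
    have : (k : ℝ) / (((p : ℕ)) : ℝ) ≤ 1 := by
      rw [div_le_one h0]
      exact hk
    linarith
  · show 0 ≤ 1 / (((p : ℕ)) : ℝ)
    positivity

theorem sum_nu {P : Finset ℕ} {k : ℕ} (hP : ∀ p ∈ P, k < p) : ∑ τ : Asg P k, nu τ = 1 := by
  have h1 : ∀ τ : Asg P k, nu τ = ∏ p : ↥P, (fun (p : ↥P) o => Model_w (p : ℕ) o) p (τ p) :=
    fun τ => Model_nu τ
  rw [Finset.sum_congr rfl (fun τ _ => h1 τ), Model_prod_sum]
  exact Finset.prod_eq_one fun p _ => Model_w_sum (hP p p.2)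

/-- the one prime value -/
private noncomputable def Model_z {k : ℕ} (z : Fin k → ℕ → ℂ) (p : ℕ) (o : Option (Fin k)) : ℂ :=
  match o with
  | none => 1
  | some i => z i p

private theorem Model_Zf {P : Finset ℕ} {k : ℕ} (z : Fin k → ℕ → ℂ) (τ : Asg P k) :
    Zf z τ = ∏ p : ↥P, Model_z z (p : ℕ) (τ p) := by
  unfold Zf
  refine Finset.prod_congr rfl fun p _ => ?_
  unfold Model_z
  rcases τ p with _ | i <;> rfl

theorem sum_nu_Zf {P : Finset ℕ} {k : ℕ} (hP : ∀ p ∈ P, k < p) (z : Fin k → ℕ → ℂ) :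
    ∑ τ : Asg P k, (nu τ : ℂ) * Zf z τ =
      ∏ p ∈ P, (1 - ∑ i : Fin k, (1 - z i p) / p) := by
  have h1 : ∀ τ : Asg P k, (nu τ : ℂ) * Zf z τ =
      ∏ p : ↥P, (fun (p : ↥P) o => (Model_w (p : ℕ) o : ℂ) * Model_z z (p : ℕ) o) p (τ p) := by
    intro τ
    rw [Model_nu, Model_Zf, Complex.ofReal_prod, ← Finset.prod_mul_distrib]
  rw [Finset.sum_congr rfl (fun τ _ => h1 τ)]
  refine (Model_prod_sum (fun (p : ↥P) (o : Option (Fin k)) =>
    (Model_w (p : ℕ) o : ℂ) * Model_z z (p : ℕ) o)).trans ?_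
  rw [← Finset.prod_coe_sort P (fun p => (1 - ∑ i : Fin k, (1 - z i p) / (p : ℂ)))]
  refine Finset.prod_congr rfl fun p _ => ?_
  have h0 : ((p : ℕ) : ℂ) ≠ 0 := by
    have := (Model_pos hP p).ne'
    exact_mod_cast this
  rw [Fintype.sum_option]
  have h2 : ∀ i : Fin k, (Model_w (p : ℕ) (some i) : ℂ) * Model_z z (p : ℕ) (some i) =
      z i p / ((p : ℕ) : ℂ) := by
    intro i
    show (((1 / ((p : ℕ) : ℝ) : ℝ)) : ℂ) * z i p = _
    push_cast
    ring
  have h3 : (Model_w (p : ℕ) (none : Option (Fin k)) : ℂ) * Model_z z (p : ℕ) none =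
      1 - (k : ℂ) / ((p : ℕ) : ℂ) := by
    show (((1 - (k : ℝ) / ((p : ℕ) : ℝ) : ℝ)) : ℂ) * 1 = _
    push_cast
    ring
  show (Model_w (p : ℕ) (none : Option (Fin k)) : ℂ) * Model_z z (p : ℕ) none +
    ∑ i : Fin k, (Model_w (p : ℕ) (some i) : ℂ) * Model_z z (p : ℕ) (some i) = _
  rw [Finset.sum_congr rfl (fun i _ => h2 i), h3, ← Finset.sum_div, ← Finset.sum_div,
    Finset.sum_sub_distrib, Finset.sum_const, Finset.card_univ, Fintype.card_fin, nsmul_eq_mul]
  ring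

private theorem Model_log {P : Finset ℕ} {k : ℕ} (hP : ∀ p ∈ P, k < p) (τ : Asg P k) :
    Real.log (Dd τ) = ∑ p : ↥P, (if τ p = none then 0 else Real.log ((p : ℕ) : ℝ)) := by
  unfold Dd
  rw [Nat.cast_prod, Real.log_prod]
  · refine Finset.sum_congr rfl fun p _ => ?_
    rcases τ p with _ | i
    · simp
    · simp
  · intro p _
    have h0 := Model_pos hP p
    rcases τ p with _ | i
    · simp
    · show (((p : ℕ) : ℕ) : ℝ) ≠ 0
      exact h0.ne'

private theorem Model_mass {P : Finset ℕ} {k : ℕ} (hP : ∀ p ∈ P, k < p) (p : ↥P) :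
    ∑ τ : Asg P k, nu τ * (if τ p = none then 0 else Real.log ((p : ℕ) : ℝ)) =
      (k : ℝ) / ((p : ℕ) : ℝ) * Real.log ((p : ℕ) : ℝ) := by
  classical
  have h1 : ∀ τ : Asg P k, nu τ * (if τ p = none then 0 else Real.log ((p : ℕ) : ℝ)) =
      ∏ r : ↥P, (fun (r : ↥P) o => Model_w (r : ℕ) o *
        (if r = p then (if o = none then 0 else Real.log ((p : ℕ) : ℝ)) else 1)) r (τ r) := by
    intro τ
    show _ = ∏ r : ↥P, (Model_w (r : ℕ) (τ r) *
        (if r = p then (if τ r = none then 0 else Real.log ((p : ℕ) : ℝ)) else 1))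
    rw [Finset.prod_mul_distrib, ← Model_nu, Finset.prod_ite_eq' Finset.univ p
      (fun r => (if τ r = none then (0 : ℝ) else Real.log ((p : ℕ) : ℝ)))]
    simp
  rw [Finset.sum_congr rfl (fun τ _ => h1 τ)]
  refine (Model_prod_sum (fun (r : ↥P) (o : Option (Fin k)) => Model_w (r : ℕ) o *
        (if r = p then (if o = none then 0 else Real.log ((p : ℕ) : ℝ)) else 1))).trans ?_
  rw [← Finset.mul_prod_erase Finset.univ _ (Finset.mem_univ p)]
  have h2 : ∏ r ∈ (Finset.univ : Finset ↥P).erase p, ∑ o : Option (Fin k), Model_w (r : ℕ) o *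
      (if r = p then (if o = none then 0 else Real.log ((p : ℕ) : ℝ)) else 1) = 1 := by
    refine Finset.prod_eq_one fun r hr => ?_
    have hne : r ≠ p := (Finset.mem_erase.mp hr).1
    rw [Finset.sum_congr rfl (fun o _ => by rw [if_neg hne, mul_one])]
    exact Model_w_sum (hP r r.2)
  show (∑ o : Option (Fin k), Model_w (p : ℕ) o *
      (if p = p then (if o = none then 0 else Real.log ((p : ℕ) : ℝ)) else 1)) *
    ∏ r ∈ (Finset.univ : Finset ↥P).erase p, ∑ o : Option (Fin k), Model_w (r : ℕ) o *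
      (if r = p then (if o = none then 0 else Real.log ((p : ℕ) : ℝ)) else 1) = _
  rw [h2, mul_one, Fintype.sum_option]
  have h3 : ∀ i : Fin k, Model_w (p : ℕ) (some i) *
      (if p = p then (if (some i : Option (Fin k)) = none then 0 else Real.log ((p : ℕ) : ℝ))
        else 1) = 1 / ((p : ℕ) : ℝ) * Real.log ((p : ℕ) : ℝ) := by
    intro i
    rw [if_pos rfl, if_neg (by simp)]
    rfl
  rw [Finset.sum_congr rfl (fun i _ => h3 i), Finset.sum_const, Finset.card_univ,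
    Fintype.card_fin, nsmul_eq_mul, if_pos rfl, if_pos rfl]
  ring

theorem sum_nu_log {P : Finset ℕ} {k : ℕ} (hP : ∀ p ∈ P, k < p) :
    ∑ τ : Asg P k, nu τ * Real.log (Dd τ) = ∑ p ∈ P, (k : ℝ) / p * Real.log p := by
  have h1 : ∀ τ : Asg P k, nu τ * Real.log (Dd τ) =
      ∑ p : ↥P, nu τ * (if τ p = none then 0 else Real.log ((p : ℕ) : ℝ)) := by
    intro τ
    rw [Model_log hP τ, Finset.mul_sum]
  rw [Finset.sum_congr rfl (fun τ _ => h1 τ), Finset.sum_comm,
    ← Finset.sum_coe_sort P (fun p => (k : ℝ) / p * Real.log p)]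
  exact Finset.sum_congr rfl fun p _ => Model_mass hP p

theorem Zf_norm_le {P : Finset ℕ} {k : ℕ} (z : Fin k → ℕ → ℂ)
    (hz : ∀ i, ∀ p ∈ P, ‖z i p‖ ≤ 1) (τ : Asg P k) : ‖Zf z τ‖ ≤ 1 := by
  unfold Zf
  rw [norm_prod]
  refine Finset.prod_le_one (fun _ _ => norm_nonneg _) fun p _ => ?_
  rcases τ p with _ | i
  · simp
  · exact hz i p p.2

end Pool.Agent.H87S
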