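import Pool.Agent.H87S.Defs

/-!
Sums over primes (Mertens, upper bounds).

PROOF PLAN.  Chebyshev and partial summation, or reuse: `Pool.Agent.H91.PK.MR_sum_log`
(`∑_{q < n, prime, q > 2} log q/q <= log n` for `n >= 65536`), `Pool.Agent.H10.GoldLoc.Mertens`
(`exists_mertens`, `mertens_gen'`), `Pool.Agent.H91.GoldMertens`; any absolute constants are fine.  For
`mertens_diff` a dyadic argument with Chebyshev's bound gives only `C log (log x/log y) + C`, which is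
also fine (the constant `C` is in front of everything).
-/

namespace Pool.Agent.H87S

open Finset

private theorem PrimeSums_fact (n : ℕ) (hn : 1 ≤ n) :
    ∑ p ∈ pr 0 n, ((n / p : ℕ) : ℝ) * Real.log p ≤ n * Real.log n := by
  have h1 : ∏ p ∈ pr 0 n, p ^ (n / p) ∣ n.factorial := by
    refine Finset.prod_dvd_of_isRelPrime ?_ ?_
    · intro p hp q hq hne
      have hp' := (mem_pr.1 hp).2
      have hq' := (mem_pr.1 hq).2
      exact (Nat.coprime_iff_isRelPrime.1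
        (Nat.Coprime.pow _ _ ((Nat.coprime_primes hp' hq').2 hne)))
    · intro p hp
      have hp' := (mem_pr.1 hp).2
      have hpn := (mem_pr.1 hp).1.2
      refine (hp'.pow_dvd_factorial_iff (b := n + 1) ?_).2 ?_
      · exact lt_of_le_of_lt (Nat.log_le_self p n) (Nat.lt_succ_self n)
      · have h2 : n / p ^ 1 ≤ ∑ i ∈ Finset.Ico 1 (n + 1), n / p ^ i :=
          Finset.single_le_sum (f := fun i => n / p ^ i) (fun _ _ => Nat.zero_le _)
            (Finset.mem_Ico.2 ⟨le_rfl, by omega⟩)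
        rwa [pow_one] at h2
  have h2 : ∏ p ∈ pr 0 n, p ^ (n / p) ≤ n ^ n :=
    (Nat.le_of_dvd (Nat.factorial_pos n) h1).trans (Nat.factorial_le_pow n)
  have h3 : ((∏ p ∈ pr 0 n, p ^ (n / p) : ℕ) : ℝ) ≤ (n : ℝ) ^ n := by exact_mod_cast h2
  have h4 : 0 < ∏ p ∈ pr 0 n, p ^ (n / p) :=
    Finset.prod_pos fun p hp => pow_pos (mem_pr.1 hp).2.pos _
  have h5 := Real.log_le_log (by exact_mod_cast h4) h3
  rw [Real.log_pow, Nat.cast_prod, Real.log_prod (fun p hp => by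
    have := (mem_pr.1 hp).2.pos
    positivity)] at h5
  refine le_trans (le_of_eq (Finset.sum_congr rfl fun p _ => ?_)) h5
  rw [Nat.cast_pow, Real.log_pow]

private theorem PrimeSums_main (n : ℕ) (hn : 1 ≤ n) :
    ∑ p ∈ pr 0 n, Real.log p / p ≤ Real.log n + Real.log 4 := by
  have hn0 : (0 : ℝ) < n := by exact_mod_cast hn
  have h1 := PrimeSums_fact n hn
  have h2 : ∑ p ∈ pr 0 n, Real.log p ≤ Real.log 4 * n := by
    have h3 := Chebyshev.theta_le_log4_mul_x (x := (n : ℝ)) hn0.le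
    rw [Chebyshev.theta, Nat.floor_natCast] at h3
    exact h3
  have h3 : (n : ℝ) * ∑ p ∈ pr 0 n, Real.log p / p ≤
      ∑ p ∈ pr 0 n, ((n / p : ℕ) : ℝ) * Real.log p + ∑ p ∈ pr 0 n, Real.log p := by
    rw [Finset.mul_sum, ← Finset.sum_add_distrib]
    refine Finset.sum_le_sum fun p hp => ?_
    have hp0 : 0 < p := (mem_pr.1 hp).2.pos
    have hp1 : (0 : ℝ) < p := by exact_mod_cast hp0
    have hlog : 0 ≤ Real.log p := Real.log_natCast_nonneg p
    have h4 : (n : ℝ) / p ≤ ((n / p : ℕ) : ℝ) + 1 := by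
      rw [div_le_iff₀ hp1]
      have h5 : n < (n / p + 1) * p := by
        have := Nat.lt_div_mul_add (a := n) hp0
        rw [Nat.add_mul, Nat.one_mul]
        omega
      exact_mod_cast h5.le
    calc (n : ℝ) * (Real.log p / p) = (n / p) * Real.log p := by ring
      _ ≤ (((n / p : ℕ) : ℝ) + 1) * Real.log p := mul_le_mul_of_nonneg_right h4 hlog
      _ = _ := by ring
  have h4 : (n : ℝ) * ∑ p ∈ pr 0 n, Real.log p / p ≤ n * (Real.log n + Real.log 4) := by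
    calc _ ≤ _ := h3
      _ ≤ n * Real.log n + Real.log 4 * n := add_le_add h1 h2
      _ = _ := by ring
  exact le_of_mul_le_mul_left h4 hn0

private theorem PrimeSums_sum_log_div (y : ℕ) (hy : 2 ≤ y) :
    ∑ p ∈ pr 0 y, Real.log p / p ≤ 3 * Real.log y := by
  have h1 := PrimeSums_main y (by omega)
  have h2 : Real.log 2 ≤ Real.log y :=
    Real.log_le_log (by norm_num) (by exact_mod_cast hy)
  have h3 : Real.log 4 = 2 * Real.log 2 := by
    rw [show (4 : ℝ) = 2 ^ 2 by norm_num, Real.log_pow]; norm_num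
  linarith

theorem sum_log_div : ∃ C : ℝ, 0 < C ∧ ∀ y : ℕ, 2 ≤ y →
    ∑ p ∈ pr 0 y, Real.log p / p ≤ C * Real.log y :=
  ⟨3, by norm_num, PrimeSums_sum_log_div⟩

private theorem PrimeSums_sq (z : ℕ) (hz : 2 ≤ z) :
    ∑ p ∈ pr z (z ^ 2), (1 : ℝ) / p ≤ 6 := by
  have hz1 : (1 : ℝ) < z := by exact_mod_cast (show 1 < z by omega)
  have hlog : 0 < Real.log z := Real.log_pos hz1
  have h1 := PrimeSums_sum_log_div (z ^ 2) (by nlinarith)
  rw [Nat.cast_pow, Real.log_pow] at h1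
  have h2 : Real.log z * ∑ p ∈ pr z (z ^ 2), (1 : ℝ) / p ≤
      ∑ p ∈ pr 0 (z ^ 2), Real.log p / p := by
    rw [Finset.mul_sum]
    refine (Finset.sum_le_sum (g := fun p : ℕ => Real.log p / p) fun p hp => ?_).trans
      (Finset.sum_le_sum_of_subset_of_nonneg ?_ fun p _ _ => ?_)
    · have hp0 := (mem_pr.1 hp).2.pos
      have hp1 : (0 : ℝ) < p := by exact_mod_cast hp0
      have h3 : Real.log z ≤ Real.log p :=
        Real.log_le_log (by linarith) (by exact_mod_cast (mem_pr.1 hp).1.1.le)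
      rw [mul_one_div]
      exact div_le_div_of_nonneg_right h3 hp1.le
    · intro p hp
      have h3 := mem_pr.1 hp
      exact mem_pr.2 ⟨⟨by omega, h3.1.2⟩, h3.2⟩
    · exact div_nonneg (Real.log_natCast_nonneg p) (Nat.cast_nonneg p)
  have h3 : Real.log z * ∑ p ∈ pr z (z ^ 2), (1 : ℝ) / p ≤ Real.log z * 6 := by
    refine h2.trans (h1.trans (le_of_eq ?_))
    push_cast
    ring
  exact le_of_mul_le_mul_left h3 hlog

private theorem PrimeSums_pow (y : ℕ) (hy : 2 ≤ y) (k : ℕ) :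
    ∑ p ∈ pr y (y ^ 2 ^ k), (1 : ℝ) / p ≤ 6 * k := by
  induction k with
  | zero =>
    have h1 : pr y (y ^ 2 ^ 0) = ∅ := by
      unfold pr
      rw [pow_zero, pow_one, Finset.Ioc_self, Finset.filter_empty]
    rw [h1, Finset.sum_empty]
    norm_num
  | succ k ih =>
    have hz : 2 ≤ y ^ 2 ^ k := hy.trans (Nat.le_self_pow (pow_ne_zero _ (by norm_num)) y)
    have h1 := PrimeSums_sq _ hz
    have h2 : pr y (y ^ 2 ^ (k + 1)) ⊆ pr y (y ^ 2 ^ k) ∪ pr (y ^ 2 ^ k) ((y ^ 2 ^ k) ^ 2) := by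
      intro p hp
      have h3 := mem_pr.1 hp
      rw [Finset.mem_union]
      rcases le_or_gt p (y ^ 2 ^ k) with h4 | h4
      · exact Or.inl (mem_pr.2 ⟨⟨h3.1.1, h4⟩, h3.2⟩)
      · refine Or.inr (mem_pr.2 ⟨⟨h4, ?_⟩, h3.2⟩)
        rw [← pow_mul, ← pow_succ]
        exact h3.1.2
    have h3 : ∑ p ∈ pr y (y ^ 2 ^ (k + 1)), (1 : ℝ) / p ≤
        ∑ p ∈ pr y (y ^ 2 ^ k) ∪ pr (y ^ 2 ^ k) ((y ^ 2 ^ k) ^ 2), (1 : ℝ) / p :=
      Finset.sum_le_sum_of_subset_of_nonneg h2 fun p _ _ => by positivity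
    have h4 : ∑ p ∈ pr y (y ^ 2 ^ k) ∪ pr (y ^ 2 ^ k) ((y ^ 2 ^ k) ^ 2), (1 : ℝ) / p ≤
        ∑ p ∈ pr y (y ^ 2 ^ k), (1 : ℝ) / p +
          ∑ p ∈ pr (y ^ 2 ^ k) ((y ^ 2 ^ k) ^ 2), (1 : ℝ) / p := by
      have h5 := Finset.sum_union_inter (s₁ := pr y (y ^ 2 ^ k))
        (s₂ := pr (y ^ 2 ^ k) ((y ^ 2 ^ k) ^ 2)) (f := fun p : ℕ => (1 : ℝ) / p)
      have h6 : 0 ≤ ∑ p ∈ pr y (y ^ 2 ^ k) ∩ pr (y ^ 2 ^ k) ((y ^ 2 ^ k) ^ 2), (1 : ℝ) / p :=
        Finset.sum_nonneg fun p _ => by positivity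
      linarith
    push_cast
    linarith

theorem mertens_diff : ∃ C : ℝ, 0 < C ∧ ∀ y x : ℕ, 2 ≤ y → y ≤ x →
    ∑ p ∈ pr y x, (1 : ℝ) / p ≤ C * (1 + Real.log (Real.log x / Real.log y)) := by
  refine ⟨12, by norm_num, fun y x hy hyx => ?_⟩
  have hy1 : (1 : ℝ) < y := by exact_mod_cast (show 1 < y by omega)
  have hyx' : (y : ℝ) ≤ x := by exact_mod_cast hyx
  have hly : 0 < Real.log y := Real.log_pos hy1
  have hlx : Real.log y ≤ Real.log x := Real.log_le_log (by linarith) hyx'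
  have hr : 1 ≤ Real.log x / Real.log y := (one_le_div hly).2 hlx
  have hlr : 0 ≤ Real.log (Real.log x / Real.log y) := Real.log_nonneg hr
  have hl2 : 0 < Real.log 2 := Real.log_pos (by norm_num)
  have hl2' : (0.5 : ℝ) ≤ Real.log 2 := by linarith [Real.log_two_gt_d9]
  obtain ⟨k, hk1, hk2⟩ : ∃ k : ℕ, Real.log (Real.log x / Real.log y) / Real.log 2 ≤ k ∧
      (k : ℝ) < Real.log (Real.log x / Real.log y) / Real.log 2 + 1 :=
    ⟨⌈Real.log (Real.log x / Real.log y) / Real.log 2⌉₊, Nat.le_ceil _,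
      Nat.ceil_lt_add_one (div_nonneg hlr hl2.le)⟩
  have h1 : Real.log x / Real.log y ≤ 2 ^ k := by
    rw [div_le_iff₀ hl2] at hk1
    have h2 : Real.log (Real.log x / Real.log y) ≤ Real.log (2 ^ k) := by
      rw [Real.log_pow]; exact hk1
    exact (Real.log_le_log_iff (by linarith) (by positivity)).1 h2
  have h2 : x ≤ y ^ 2 ^ k := by
    rw [div_le_iff₀ hly] at h1
    have h3 : Real.log x ≤ Real.log ((y : ℝ) ^ 2 ^ k) := by
      rw [Real.log_pow]
      push_cast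
      exact h1
    have h4 := (Real.log_le_log_iff (by linarith) (by positivity)).1 h3
    exact_mod_cast h4
  have h3 : ∑ p ∈ pr y x, (1 : ℝ) / p ≤ ∑ p ∈ pr y (y ^ 2 ^ k), (1 : ℝ) / p := by
    refine Finset.sum_le_sum_of_subset_of_nonneg (fun p hp => ?_) fun p _ _ => by positivity
    have h4 := mem_pr.1 hp
    exact mem_pr.2 ⟨⟨h4.1.1, h4.1.2.trans h2⟩, h4.2⟩
  have h4 := PrimeSums_pow y hy k
  have h5 : Real.log (Real.log x / Real.log y) / Real.log 2 ≤
      2 * Real.log (Real.log x / Real.log y) := by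
    rw [div_le_iff₀ hl2]
    nlinarith
  linarith

end Pool.Agent.H87S
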