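import Pool.Agent.H87S.Local
import Pool.Agent.H87S.Model
import Pool.Agent.H87S.ActLog
import Pool.Agent.H87S.PrimeSums

/-!
Correlations of products over primes, total variation argument.

PROOF PLAN.  `lam = log y/log N <= 1/2`.  If `k lam >= c0` (small absolute constant) the trivial bound `2 N`
suffices.  Otherwise `N` is large; `S1 = ∑_P log p/p <= C log y` (`sum_log_div`), `Q = ⌊N^(1/8)⌋ >= 2`,
`k S1/log Q <= C1 k lam <= 1/2`.  Let `μ τ = #{j < N : act j = τ}/N`.  GOOD `τ`: `Dd τ <= N^(1/4)`.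
`local_upper`: `μ τ <= nu τ (1 + C2 N^(-1/2)) (1 + 2 C1 k lam) <= nu τ (1 + C3 k lam)` for good `τ`.
BAD `τ`: `∑_{bad} μ τ <= (4/log N) (1/N) ∑_j log (Dd (act j)) <= C4 k lam` (`act_log`, `|P| log y <= y log y`,
`y^2 <= N`), `∑_{bad} nu τ <= (4/log N) ∑ nu τ log (Dd τ) <= C5 k lam` (`sum_nu_log`).
`∑_{good} (μ-ν)^+ <= C3 k lam`, `∑_{good} (μ-ν) = (1 - μ(bad)) - (1 - ν(bad)) >= -μ(bad)`, so
`∑_{good} |μ-ν| <= 2 C3 k lam + C4 k lam`.  Then `|∑_τ (μ-ν) Zf τ| <= C k lam`; `act_prod`, `sum_nu_Zf`.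
-/

namespace Pool.Agent.H87S

open Finset

private theorem Corr_Dd_pos {P : Finset ℕ} {k : ℕ} (hP : ∀ p ∈ P, p.Prime) (τ : Asg P k) :
    1 ≤ Dd τ := by
  unfold Dd
  refine Nat.succ_le_of_lt (Finset.prod_pos fun p _ => ?_)
  cases τ p with
  | none => exact one_pos
  | some _ => exact (hP p.1 p.2).pos

private theorem Corr_fiber {ι : Type*} [Fintype ι] [DecidableEq ι] {R : Type*} [Semiring R]
    (A : ℕ → ι) (N : ℕ) (g : ι → R) :
    ∑ j ∈ range N, g (A j) =
      ∑ τ, (((range N).filter (fun j => A j = τ)).card : R) * g τ := by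
  rw [← Finset.sum_fiberwise (range N) A (fun j => g (A j))]
  refine Finset.sum_congr rfl fun τ _ => ?_
  rw [Finset.sum_congr rfl (g := fun _ => g τ), Finset.sum_const, nsmul_eq_mul]
  intro j hj
  rw [(mem_filter.mp hj).2]

private theorem Corr_abs {x B : ℝ} (h : x ≤ B) (hB : 0 ≤ B) : |x| ≤ 2 * B - x := by
  rw [abs_le]
  constructor <;> linarith

/-- The pointwise estimate in the non-trivial case. -/
private theorem Corr_point {C1 C2 k L X N lX lN lD lQ S Q D m nu : ℝ} (hC1 : 0 < C1) (hC2 : 0 < C2)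
    (hk : 1 ≤ k) (hL : 0 < L) (hL1 : L ≤ 1) (hkL : 32 * C1 * (k * L) ≤ 1)
    (hX : 4 ≤ X) (hN : N = X ^ 8) (hQ0 : 0 ≤ Q) (hQ : Q ≤ X) (hD : 1 ≤ D) (hm : 0 ≤ m)
    (hnu : 0 ≤ nu) (hS : k * S / lQ ≤ 16 * C1 * (k * L))
    (hlN : lN = 8 * lX) (hlX : 0 < lX)
    (hlD0 : 0 ≤ lD) (hlD : X ^ 2 ≤ D → 2 * lX ≤ lD)
    (hXL : 1 ≤ 3 * X ^ 4 * L)
    (hloc : m * (1 - k * S / lQ) ≤ (N + (1 + C2 * Q ^ 2) * D) * nu) :
    m - N * nu ≤ (3*(1+C2) + 32*C1 + 96*(1+C2)*C1) * (k * L) * N * nu + 4 / lN * (m * lD) := by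
  have hkL0 : 0 < k * L := by positivity
  have hX0 : 0 < X := by linarith
  have hN0 : 0 < N := by rw [hN]; positivity
  have hC3 : 0 ≤ (3*(1+C2) + 32*C1 + 96*(1+C2)*C1) * (k * L) * N * nu := by positivity
  have hlN0 : 0 < lN := by rw [hlN]; linarith
  have h4 : 0 ≤ 4 / lN * (m * lD) := by positivity
  by_cases hb : X ^ 2 ≤ D
  · -- bad
    have h5 := hlD hb
    have h6 : m ≤ 4 / lN * (m * lD) := by
      rw [div_mul_eq_mul_div, le_div_iff₀ hlN0, hlN]
      nlinarith
    have h7 : 0 ≤ N * nu := by positivity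
    linarith
  · have hb' : D ≤ X ^ 2 := (not_le.mp hb).le
    have hq2 : Q ^ 2 ≤ X ^ 2 := by
      exact pow_le_pow_left₀ hQ0 hQ 2
    have h8 : (1 + C2 * Q ^ 2) * D ≤ (1 + C2) * X ^ 4 := by
      have h9 : 1 + C2 * Q ^ 2 ≤ (1 + C2) * X ^ 2 := by nlinarith
      calc (1 + C2 * Q ^ 2) * D ≤ ((1 + C2) * X ^ 2) * X ^ 2 := by
            apply mul_le_mul h9 hb' (by linarith) (by positivity)
        _ = (1 + C2) * X ^ 4 := by ring
    have h10 : X ^ 4 ≤ 3 * L * N := by
      rw [hN]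
      have : 0 < X ^ 4 := by positivity
      nlinarith
    have h11 : (N + (1 + C2 * Q ^ 2) * D) ≤ N * (1 + 3 * (1 + C2) * L) := by
      nlinarith
    set x : ℝ := 16 * C1 * (k * L) with hx
    have hx0 : 0 < x := by positivity
    have hx1 : x ≤ 1 / 2 := by rw [hx]; linarith
    have h12 : m * (1 - x) ≤ N * (1 + 3 * (1 + C2) * L) * nu := by
      calc m * (1 - x) ≤ m * (1 - k * S / lQ) := by
            apply mul_le_mul_of_nonneg_left _ hm
            linarith
        _ ≤ (N + (1 + C2 * Q ^ 2) * D) * nu := hloc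
        _ ≤ _ := mul_le_mul_of_nonneg_right h11 hnu
    -- multiply by (1 + 2x)
    have h13 : m ≤ m * (1 - x) * (1 + 2 * x) := by
      have : 1 ≤ (1 - x) * (1 + 2 * x) := by nlinarith
      nlinarith
    have h14 : m ≤ N * (1 + 3 * (1 + C2) * L) * nu * (1 + 2 * x) :=
      h13.trans (mul_le_mul_of_nonneg_right h12 (by linarith))
    have h15 : (1 + 3 * (1 + C2) * L) * (1 + 2 * x) ≤
        1 + (3*(1+C2) + 32*C1 + 96*(1+C2)*C1) * (k * L) := by
      have h16 : L ≤ k * L := by nlinarith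
      have h17 : L * x ≤ x := by nlinarith
      have h18 : (1 + C2) * L ≤ (1 + C2) * (k * L) := by
        apply mul_le_mul_of_nonneg_left h16 (by linarith)
      have h19 : (1 + C2) * (L * x) ≤ (1 + C2) * x := by
        apply mul_le_mul_of_nonneg_left h17 (by linarith)
      have h20 : (1 + 3 * (1 + C2) * L) * (1 + 2 * x) =
        1 + 3 * ((1 + C2) * L) + 2 * x + 6 * ((1 + C2) * (L * x)) := by ring
      rw [h20]
      have h21 : (1 + C2) * x = 16 * (1 + C2) * C1 * (k * L) := by rw [hx]; ring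
      have h22 : 1 + (3*(1+C2) + 32*C1 + 96*(1+C2)*C1) * (k * L) =
        1 + 3 * ((1 + C2) * (k * L)) + 2 * x + 6 * ((1 + C2) * x) := by rw [h21, hx]; ring
      rw [h22]
      linarith
    have h23 : N * (1 + 3 * (1 + C2) * L) * nu * (1 + 2 * x) ≤
        N * nu * (1 + (3*(1+C2) + 32*C1 + 96*(1+C2)*C1) * (k * L)) := by
      calc _ = N * nu * ((1 + 3 * (1 + C2) * L) * (1 + 2 * x)) := by ring
        _ ≤ _ := mul_le_mul_of_nonneg_left h15 (by positivity)
    have h24 : N * nu * (1 + (3*(1+C2) + 32*C1 + 96*(1+C2)*C1) * (k * L)) =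
      N * nu + (3*(1+C2) + 32*C1 + 96*(1+C2)*C1) * (k * L) * N * nu := by ring
    linarith

theorem corr : ∃ C : ℝ, 0 < C ∧ ∀ (k : ℕ) (P : Finset ℕ) (M : ℕ) (c : Fin k → ℕ), 1 ≤ k →
    Adm P k M c → ∀ y N : ℕ, 2 ≤ y → (∀ p ∈ P, p ≤ y) → y ^ 2 ≤ N →
    ∀ z : Fin k → ℕ → ℂ, (∀ i, ∀ p ∈ P, ‖z i p‖ ≤ 1) →
    ‖∑ j ∈ range N, ∏ i : Fin k, GP P (z i) (c i + M * j) -
        N * ∏ p ∈ P, (1 - ∑ i : Fin k, (1 - z i p) / p)‖ ≤
      C * k * N * (Real.log y / Real.log N) := by
  obtain ⟨C1, hC1, h1⟩ := sum_log_div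
  obtain ⟨C2, hC2, h2⟩ := local_upper
  refine ⟨2 * (16 + 32 * C1) + 2 * ((3*(1+C2) + 32*C1 + 96*(1+C2)*C1) + 4 * (C1 + 1)),
    by positivity, ?_⟩
  intro k P M c hk hA y N hy hPy hyN z hz
  have hPlt : ∀ p ∈ P, k < p := hA.lt
  set m : Asg P k → ℝ := fun τ => (((range N).filter (fun j => act P k c M j = τ)).card : ℝ) with hm
  have hm0 : ∀ τ, 0 ≤ m τ := fun τ => Nat.cast_nonneg _
  have hnu0 : ∀ τ : Asg P k, 0 ≤ nu τ := fun τ => nu_nonneg hPlt τ
  have e1 : ∑ j ∈ range N, ∏ i : Fin k, GP P (z i) (c i + M * j) -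
        N * ∏ p ∈ P, (1 - ∑ i : Fin k, (1 - z i p) / p)
      = ∑ τ : Asg P k, ((m τ - N * nu τ : ℝ) : ℂ) * Zf z τ := by
    rw [← sum_nu_Zf hPlt z, Finset.sum_congr rfl (fun j _ => act_prod hA z j),
      Corr_fiber (act P k c M) N (Zf z), mul_sum, ← sum_sub_distrib]
    refine sum_congr rfl fun τ _ => ?_
    rw [hm]
    push_cast
    ring
  have e2 : ‖∑ j ∈ range N, ∏ i : Fin k, GP P (z i) (c i + M * j) -
        N * ∏ p ∈ P, (1 - ∑ i : Fin k, (1 - z i p) / p)‖ ≤ ∑ τ : Asg P k, |m τ - N * nu τ| := by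
    rw [e1]
    refine (norm_sum_le _ _).trans (sum_le_sum fun τ _ => ?_)
    rw [norm_mul, Complex.norm_real, Real.norm_eq_abs]
    calc _ ≤ |m τ - N * nu τ| * 1 :=
          mul_le_mul_of_nonneg_left (Zf_norm_le z hz τ) (abs_nonneg _)
      _ = _ := mul_one _
  refine e2.trans ?_
  have sm : ∑ τ : Asg P k, m τ = N := by
    have := Corr_fiber (R := ℝ) (act P k c M) N (fun _ => (1 : ℝ))
    simp only [mul_one, sum_const, card_range, nsmul_eq_mul] at this
    rw [this]
  have sn : ∑ τ : Asg P k, (N : ℝ) * nu τ = N := by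
    rw [← mul_sum, sum_nu hPlt, mul_one]
  -- basic real facts
  have hy1 : (2 : ℝ) ≤ y := by exact_mod_cast hy
  have hly : Real.log 2 ≤ Real.log y := Real.log_le_log (by norm_num) hy1
  have hl2 : 0.69 < Real.log 2 := by
    have := Real.log_two_gt_d9
    linarith
  have hyN' : (y : ℝ) ^ 2 ≤ N := by exact_mod_cast hyN
  have hN1 : (0 : ℝ) < N := lt_of_lt_of_le (by positivity) hyN'
  have hlyN : 2 * Real.log y ≤ Real.log N := by
    have := Real.log_le_log (by positivity) hyN'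
    rwa [Real.log_pow, Nat.cast_ofNat] at this
  have hlN0 : 0 < Real.log N := by linarith
  set L : ℝ := Real.log y / Real.log N with hL
  have hL0 : 0 < L := div_pos (by linarith) hlN0
  have hL1 : L ≤ 1 := by
    rw [hL, div_le_one hlN0]
    linarith
  have hk1 : (1 : ℝ) ≤ k := by exact_mod_cast hk
  by_cases hc : 1 ≤ (16 + 32 * C1) * (k * L)
  · -- trivial bound
    have t1 : ∑ τ : Asg P k, |m τ - N * nu τ| ≤ 2 * N := by
      calc ∑ τ : Asg P k, |m τ - N * nu τ| ≤ ∑ τ : Asg P k, (m τ + N * nu τ) := by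
            refine sum_le_sum fun τ _ => ?_
            have a1 : 0 ≤ N * nu τ := mul_nonneg hN1.le (hnu0 τ)
            rw [abs_le]
            constructor <;> linarith [hm0 τ]
        _ = 2 * N := by rw [sum_add_distrib, sm, sn]; ring
    have t2 : 2 * (N : ℝ) ≤ 2 * (16 + 32 * C1) * (k * L) * N := by nlinarith
    have t3 : 0 ≤ 2 * ((3*(1+C2) + 32*C1 + 96*(1+C2)*C1) + 4 * (C1 + 1)) * (k * L) * N := by
      positivity
    calc ∑ τ : Asg P k, |m τ - N * nu τ| ≤ 2 * N := t1
      _ ≤ 2 * (16 + 32 * C1) * (k * L) * N +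
          2 * ((3*(1+C2) + 32*C1 + 96*(1+C2)*C1) + 4 * (C1 + 1)) * (k * L) * N := by linarith
      _ = _ := by ring
  · have hc' : (16 + 32 * C1) * (k * L) < 1 := not_le.mp hc
    have hkL0 : 0 < k * L := by positivity
    have hc16 : 16 * (k * L) < 1 := by nlinarith [mul_pos hC1 hkL0]
    have hc32 : 32 * C1 * (k * L) ≤ 1 := by nlinarith
    have h16L : 16 * L < 1 := by nlinarith
    have h16 : 16 * Real.log y < Real.log N := by
      rw [hL, mul_div_assoc', div_lt_one hlN0] at h16L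
      exact h16L
    -- X
    set X : ℝ := (N : ℝ) ^ (1 / 8 : ℝ) with hX
    have hX0 : 0 < X := Real.rpow_pos_of_pos hN1 _
    have hX8 : (N : ℝ) = X ^ 8 := by
      rw [hX, ← Real.rpow_natCast, ← Real.rpow_mul hN1.le]
      norm_num
    have hlX : Real.log N = 8 * Real.log X := by
      rw [hX8, Real.log_pow]
      norm_num
    have hX4 : 4 ≤ X := by
      have a1 : Real.log 4 ≤ Real.log X := by
        have : Real.log 4 = 2 * Real.log 2 := by
          rw [show (4 : ℝ) = 2 ^ 2 by norm_num, Real.log_pow]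
          norm_num
        rw [this]
        linarith
      exact (Real.log_le_log_iff (by norm_num) hX0).mp a1
    have hlX0 : 0 < Real.log X := by linarith
    set Q : ℕ := ⌊X⌋₊ with hQ
    have hQX : (Q : ℝ) ≤ X := Nat.floor_le hX0.le
    have hQX' : X < Q + 1 := Nat.lt_floor_add_one X
    have hQ4 : 4 ≤ Q := Nat.le_floor (by exact_mod_cast hX4)
    have hQ4' : (4 : ℝ) ≤ Q := by exact_mod_cast hQ4
    have hlQ : Real.log X ≤ 2 * Real.log Q := by
      have : X ≤ (Q : ℝ) ^ 2 := by nlinarith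
      have a2 := Real.log_le_log hX0 this
      rwa [Real.log_pow, Nat.cast_ofNat] at a2
    have hlQ0 : 0 < Real.log Q := by linarith
    -- S
    set S : ℝ := ∑ p ∈ P, Real.log p / p with hS
    have hS0 : 0 ≤ S := by
      refine sum_nonneg fun p _ => ?_
      exact div_nonneg (Real.log_natCast_nonneg p) (Nat.cast_nonneg p)
    have hS1 : S ≤ C1 * Real.log y := by
      refine le_trans ?_ (h1 y hy)
      refine sum_le_sum_of_subset_of_nonneg ?_ ?_
      · intro p hp
        rw [mem_pr]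
        exact ⟨⟨(hA.prime p hp).pos, hPy p hp⟩, hA.prime p hp⟩
      · intro p _ _
        exact div_nonneg (Real.log_natCast_nonneg p) (Nat.cast_nonneg p)
    have hSQ : k * S / Real.log Q ≤ 16 * C1 * (k * L) := by
      rw [div_le_iff₀ hlQ0]
      have a3 : Real.log y = L * Real.log N := by
        rw [hL, div_mul_cancel₀ _ hlN0.ne']
      have a4 : Real.log N ≤ 16 * Real.log Q := by linarith
      calc (k : ℝ) * S ≤ k * (C1 * Real.log y) := mul_le_mul_of_nonneg_left hS1 (by linarith)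
        _ = C1 * (k * L) * Real.log N := by rw [a3]; ring
        _ ≤ C1 * (k * L) * (16 * Real.log Q) :=
            mul_le_mul_of_nonneg_left a4 (by positivity)
        _ = _ := by ring
    have hXL : 1 ≤ 3 * X ^ 4 * L := by
      rw [hL, mul_div_assoc', le_div_iff₀ hlN0, one_mul, hlX]
      have a5 : Real.log X ≤ X := by
        have := Real.log_le_sub_one_of_pos hX0
        linarith
      have a6 : X ^ 4 * 0.69 ≤ X ^ 4 * Real.log y :=
        mul_le_mul_of_nonneg_left (by linarith) (by positivity)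
      have a7 : 64 * X ≤ X ^ 4 := by
        have : (4 : ℝ) ^ 3 ≤ X ^ 3 := pow_le_pow_left₀ (by norm_num) hX4 3
        nlinarith
      nlinarith
    -- pointwise bound
    have pt : ∀ τ : Asg P k, m τ - N * nu τ ≤
        (3*(1+C2) + 32*C1 + 96*(1+C2)*C1) * (k * L) * N * nu τ +
          4 / Real.log N * (m τ * Real.log (Dd τ)) := by
      intro τ
      have hD1 : 1 ≤ Dd τ := Corr_Dd_pos hA.prime τ
      have hD1' : (1 : ℝ) ≤ (Dd τ : ℝ) := by exact_mod_cast hD1
      have hloc := h2 k P M c hA N Q (by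
        have : 2 ^ 2 ≤ y ^ 2 := Nat.pow_le_pow_left hy 2
        omega) (by omega) τ
      refine Corr_point (X := X) (lX := Real.log X) (lQ := Real.log Q) (S := S) (Q := Q)
        (D := Dd τ) hC1 hC2 hk1 hL0 hL1 hc32 hX4 hX8 (by linarith) hQX hD1' (hm0 τ) (hnu0 τ) hSQ
        hlX hlX0 (Real.log_nonneg hD1') ?_ hXL hloc
      intro hXD
      have := Real.log_le_log (by positivity) hXD
      rwa [Real.log_pow, Nat.cast_ofNat] at this
    -- the sum of the logarithms
    have hlog : ∑ τ : Asg P k, m τ * Real.log (Dd τ) ≤ k * N * ((C1 + 1) * Real.log y) := by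
      have b1 : ∑ τ : Asg P k, m τ * Real.log (Dd τ) =
          ∑ j ∈ range N, Real.log (Dd (act P k c M j)) :=
        (Corr_fiber (act P k c M) N (fun τ => Real.log (Dd τ))).symm
      rw [b1]
      refine (act_log hA N).trans ?_
      have b2 : ∑ p ∈ P, Real.log p * (k * ((N : ℝ) / p + 1)) =
          k * N * S + k * ∑ p ∈ P, Real.log p := by
        rw [hS, mul_sum, mul_sum, ← sum_add_distrib]
        refine sum_congr rfl fun p _ => ?_
        ring
      rw [b2]
      have b3 : ∑ p ∈ P, Real.log p ≤ N * Real.log y := by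
        calc ∑ p ∈ P, Real.log p ≤ ∑ p ∈ P, Real.log y := by
              refine sum_le_sum fun p hp => ?_
              refine Real.log_le_log ?_ (by exact_mod_cast hPy p hp)
              exact_mod_cast (hA.prime p hp).pos
          _ = P.card * Real.log y := by rw [sum_const, nsmul_eq_mul]
          _ ≤ N * Real.log y := by
              refine mul_le_mul_of_nonneg_right ?_ (by linarith)
              have c1 : P.card ≤ y := by
                have c2 : P ⊆ Ioc 0 y := fun p hp =>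
                  mem_Ioc.mpr ⟨(hA.prime p hp).pos, hPy p hp⟩
                have c3 := card_le_card c2
                rwa [Nat.card_Ioc, Nat.sub_zero] at c3
              have c4 : y ≤ N := le_trans (Nat.le_self_pow (by norm_num) y) hyN
              exact_mod_cast c1.trans c4
      have b4 : k * N * S ≤ k * N * (C1 * Real.log y) :=
        mul_le_mul_of_nonneg_left hS1 (by positivity)
      have b5 : (k : ℝ) * ∑ p ∈ P, Real.log p ≤ k * (N * Real.log y) :=
        mul_le_mul_of_nonneg_left b3 (by positivity)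
      calc _ ≤ k * N * (C1 * Real.log y) + k * (N * Real.log y) := add_le_add b4 b5
        _ = _ := by ring
    -- total variation
    have tv : ∑ τ : Asg P k, |m τ - N * nu τ| ≤
        2 * ∑ τ : Asg P k, ((3*(1+C2) + 32*C1 + 96*(1+C2)*C1) * (k * L) * N * nu τ +
          4 / Real.log N * (m τ * Real.log (Dd τ))) := by
      have d1 : ∑ τ : Asg P k, (m τ - N * nu τ) = 0 := by
        rw [sum_sub_distrib, sm, sn, sub_self]
      have d2 : ∀ τ : Asg P k, |m τ - N * nu τ| ≤
          2 * ((3*(1+C2) + 32*C1 + 96*(1+C2)*C1) * (k * L) * N * nu τ +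
          4 / Real.log N * (m τ * Real.log (Dd τ))) - (m τ - N * nu τ) := by
        intro τ
        have hD1' : (1 : ℝ) ≤ (Dd τ : ℝ) := by exact_mod_cast Corr_Dd_pos hA.prime τ
        have p1 := pt τ
        have p2 : 0 ≤ (3*(1+C2) + 32*C1 + 96*(1+C2)*C1) * (k * L) * N * nu τ := by
          have := hnu0 τ
          positivity
        have p3 : 0 ≤ 4 / Real.log N * (m τ * Real.log (Dd τ)) :=
          mul_nonneg (div_nonneg (by norm_num) hlN0.le) (mul_nonneg (hm0 τ) (Real.log_nonneg hD1'))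
        exact Corr_abs p1 (add_nonneg p2 p3)
      calc ∑ τ : Asg P k, |m τ - N * nu τ| ≤ ∑ τ : Asg P k,
          (2 * ((3*(1+C2) + 32*C1 + 96*(1+C2)*C1) * (k * L) * N * nu τ +
          4 / Real.log N * (m τ * Real.log (Dd τ))) - (m τ - N * nu τ)) :=
            sum_le_sum fun τ _ => d2 τ
        _ = _ := by rw [sum_sub_distrib, d1, sub_zero, ← mul_sum]
    refine tv.trans ?_
    rw [sum_add_distrib, ← mul_sum, ← mul_sum, sum_nu hPlt, mul_one]
    have f1 : 4 / Real.log N * ∑ τ : Asg P k, m τ * Real.log (Dd τ) ≤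
        4 * (C1 + 1) * (k * L) * N := by
      calc 4 / Real.log N * ∑ τ : Asg P k, m τ * Real.log (Dd τ) ≤
          4 / Real.log N * (k * N * ((C1 + 1) * Real.log y)) :=
            mul_le_mul_of_nonneg_left hlog (by positivity)
        _ = _ := by rw [hL]; ring
    have f2 : 0 ≤ 2 * (16 + 32 * C1) * (k * L) * N := by positivity
    calc _ ≤ 2 * ((3*(1+C2) + 32*C1 + 96*(1+C2)*C1) * (k * L) * N + 4 * (C1 + 1) * (k * L) * N) :=
          mul_le_mul_of_nonneg_left (add_le_add le_rfl f1) (by norm_num)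
      _ ≤ 2 * (16 + 32 * C1) * (k * L) * N + 2 * ((3*(1+C2) + 32*C1 + 96*(1+C2)*C1) * (k * L) * N +
          4 * (C1 + 1) * (k * L) * N) := le_add_of_nonneg_left f2
      _ = _ := by ring

end Pool.Agent.H87S
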