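import Mathlib

/-!
Multiplicative functions, windows of primes, deterministic sequences: common definitions.
-/

namespace Pool.Agent.H87S

open Finset Filter Topology

/-- `f` is multiplicative with values in the closed unit disc (on the positive integers). -/
structure MultD (f : ℕ → ℂ) : Prop where
  one : f 1 = 1
  mul : ∀ m n : ℕ, 1 ≤ m → 1 ≤ n → Nat.Coprime m n → f (m * n) = f m * f n
  le : ∀ n : ℕ, 1 ≤ n → ‖f n‖ ≤ 1

/-- The primes in `(u, v]`. -/
def pr (u v : ℕ) : Finset ℕ := (Ioc u v).filter Nat.Prime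

theorem mem_pr {u v p : ℕ} : p ∈ pr u v ↔ (u < p ∧ p ≤ v) ∧ p.Prime := by
  unfold pr
  rw [mem_filter, mem_Ioc]

/-- `f(p) * conj (χ(p) * p^(it))`. -/
noncomputable def zf (f : ℕ → ℂ) {q : ℕ} (χ : DirichletCharacter ℂ q) (t : ℝ) (p : ℕ) : ℂ :=
  f p * (starRingEnd ℂ) (χ (p : ZMod q)) * (p : ℂ) ^ (-((t : ℂ) * Complex.I))

/-- The square of the pretentious distance between `f` and `χ(n) n^(it)` up to `x`. -/
noncomputable def distSq (f : ℕ → ℂ) {q : ℕ} (χ : DirichletCharacter ℂ q) (t : ℝ) (x : ℕ) : ℝ :=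
  ∑ p ∈ pr 0 x, (1 - (zf f χ t p).re) / p

/-- `f` is non-pretentious. -/
def NonPretentious (f : ℕ → ℂ) : Prop :=
  ∀ (q : ℕ) (χ : DirichletCharacter ℂ q) (t : ℝ), 1 ≤ q →
    Tendsto (fun x : ℕ => distSq f χ t x) atTop atTop

/-- On arbitrarily long windows of primes `f` is close to some `χ(n) n^(it)`, whose conductor and
height are small compared with the window, and far from it on the primes before the window. -/
def CharWindows (f : ℕ → ℂ) : Prop :=
  ∀ B : ℕ, 1 ≤ B → ∃ (q : ℕ) (χ : DirichletCharacter ℂ q) (t : ℝ) (u v : ℕ),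
    1 ≤ q ∧ B ≤ u ∧ ((q : ℝ) + u + |t|) ^ B ≤ v ∧
    ∑ p ∈ pr u v, (1 - (zf f χ t p).re) / p ≤ 1 / B ∧
    (B : ℝ) ≤ ∑ p ∈ (pr 0 u).filter (fun p => ¬ p ∣ q), (1 - (zf f χ t p).re) / p

/-- Deterministic sequences: `a(n) = F(T^n x0)` for a continuous map `T` of zero topological entropy of
a compact metric space and a continuous function `F` with values in the unit disc. -/
def Deterministic (a : ℕ → ℂ) : Prop :=
  ∃ (X : Type) (_ : MetricSpace X) (_ : CompactSpace X) (T : X → X) (x0 : X) (F : X → ℂ),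
    Continuous T ∧ Dynamics.coverEntropy T Set.univ = 0 ∧ Continuous F ∧ (∀ x, ‖F x‖ ≤ 1) ∧
    ∀ n : ℕ, 1 ≤ n → a n = F (T^[n] x0)

/-- The upper logarithmic density of a set of positive integers. -/
noncomputable def upperLogDensity (X : Set ℕ) : ℝ :=
  limsup (fun x : ℕ =>
    (∑ n ∈ Icc 1 x, Set.indicator X (fun n : ℕ => (1 : ℝ) / n) n) / Real.log x) atTop

theorem norm_natpow_it (n : ℕ) (hn : 1 ≤ n) (t : ℝ) : ‖(n : ℂ) ^ ((t : ℂ) * Complex.I)‖ = 1 := by
  have h0 : (0 : ℝ) < n := by exact_mod_cast hn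
  have h1 := Complex.norm_cpow_eq_rpow_re_of_pos h0 ((t : ℂ) * Complex.I)
  have h2 : ((n : ℝ) : ℂ) = (n : ℂ) := Complex.ofReal_natCast n
  rw [h2] at h1
  rw [h1]
  simp

theorem norm_natpow_neg_it (n : ℕ) (hn : 1 ≤ n) (t : ℝ) :
    ‖(n : ℂ) ^ (-((t : ℂ) * Complex.I))‖ = 1 := by
  have h := norm_natpow_it n hn (-t)
  rwa [show ((-t : ℝ) : ℂ) * Complex.I = -((t : ℂ) * Complex.I) by push_cast; ring] at h

theorem zf_norm_le {f : ℕ → ℂ} (hf : MultD f) {q : ℕ} (χ : DirichletCharacter ℂ q) (t : ℝ)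
    (p : ℕ) (hp : 1 ≤ p) : ‖zf f χ t p‖ ≤ 1 := by
  unfold zf
  rw [norm_mul, norm_mul, norm_natpow_neg_it p hp t, mul_one, RCLike.norm_conj]
  calc ‖f p‖ * ‖χ (p : ZMod q)‖ ≤ 1 * 1 :=
        mul_le_mul (hf.le p hp) (DirichletCharacter.norm_le_one χ _) (norm_nonneg _) zero_le_one
    _ = 1 := one_mul 1

theorem zf_re_le {f : ℕ → ℂ} (hf : MultD f) {q : ℕ} (χ : DirichletCharacter ℂ q) (t : ℝ)
    (p : ℕ) (hp : 1 ≤ p) : 0 ≤ 1 - (zf f χ t p).re := by
  have h1 := zf_norm_le hf χ t p hp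
  have h2 := Complex.re_le_norm (zf f χ t p)
  linarith

/-- The product of `z p` over the primes `p ∈ P` dividing `n`. -/
noncomputable def GP (P : Finset ℕ) (z : ℕ → ℂ) (n : ℕ) : ℂ := ∏ p ∈ P.filter (fun p => p ∣ n), z p

theorem GP_norm_le (P : Finset ℕ) (z : ℕ → ℂ) (hz : ∀ p ∈ P, ‖z p‖ ≤ 1) (n : ℕ) :
    ‖GP P z n‖ ≤ 1 := by
  unfold GP
  rw [norm_prod]
  exact prod_le_one (fun _ _ => norm_nonneg _) fun p hp => hz p (mem_filter.mp hp).1

/-- Assignments of the primes of `P`: to nothing or to one of `k` linear forms. -/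
abbrev Asg (P : Finset ℕ) (k : ℕ) := ↥P → Option (Fin k)

/-- The weight of an assignment in the random model. -/
noncomputable def nu {P : Finset ℕ} {k : ℕ} (τ : Asg P k) : ℝ :=
  ∏ p : ↥P, (match τ p with
    | none => 1 - (k : ℝ) / ((p : ℕ) : ℝ)
    | some _ => 1 / ((p : ℕ) : ℝ))

/-- The product of the assigned primes. -/
def Dd {P : Finset ℕ} {k : ℕ} (τ : Asg P k) : ℕ :=
  ∏ p : ↥P, (match τ p with
    | none => 1
    | some _ => (p : ℕ))

/-- The product of the values of the assigned primes. -/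
noncomputable def Zf {P : Finset ℕ} {k : ℕ} (z : Fin k → ℕ → ℂ) (τ : Asg P k) : ℂ :=
  ∏ p : ↥P, (match τ p with
    | none => 1
    | some i => z i (p : ℕ))

open Classical in
/-- The assignment defined by the divisibility of the linear forms `c i + M j`. -/
noncomputable def act (P : Finset ℕ) (k : ℕ) (c : Fin k → ℕ) (M j : ℕ) : Asg P k := fun p =>
  if h : ∃ i : Fin k, (p : ℕ) ∣ c i + M * j then some h.choose else none

/-- Admissible data: primes `p > k` which do not divide `M` and such that the `c i` are distinct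
modulo `p`. -/
structure Adm (P : Finset ℕ) (k M : ℕ) (c : Fin k → ℕ) : Prop where
  prime : ∀ p ∈ P, p.Prime
  lt : ∀ p ∈ P, k < p
  cop : ∀ p ∈ P, ¬ p ∣ M
  sep : ∀ p ∈ P, ∀ i i' : Fin k, i ≠ i' → ¬ (c i ≡ c i' [MOD p])

/-- The part of `n` composed of the primes `p ≤ w` and the primes dividing `q`. -/
noncomputable def mpart (w q n : ℕ) : ℕ :=
  ∏ p ∈ n.primeFactors.filter (fun p => p ≤ w ∨ p ∣ q), p ^ n.factorization p

/-- The structured factor of `f(n)`. -/
noncomputable def gam (f : ℕ → ℂ) {q : ℕ} (χ : DirichletCharacter ℂ q) (t : ℝ) (w n : ℕ) : ℂ :=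
  f (mpart w q n) * ((mpart w q n : ℕ) : ℂ) ^ (-((t : ℂ) * Complex.I)) *
    χ ((n / mpart w q n : ℕ) : ZMod q)

/-- The modulus of the residue classes on which `gam` is constant. -/
noncomputable def MM (w L q : ℕ) : ℕ :=
  (∏ p ∈ pr 0 w, p ^ (L + q.factorization p)) *
    ∏ p ∈ q.primeFactors.filter (fun p => w < p), p ^ (q.factorization p + 1)

/-- `c` is a good argument: no high power of a prime `p ≤ w` and no square of a prime divisor
`p > w` of `q` divides it. -/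
def GoodArg (w L q c : ℕ) : Prop :=
  (∀ p : ℕ, p.Prime → p ≤ w → ¬ p ^ L ∣ c) ∧ ∀ p : ℕ, p.Prime → w < p → p ∣ q → ¬ p ^ 2 ∣ c

end Pool.Agent.H87S
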