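import Pool.Agent.H87S.Defs

/-!
Upper bound for the Euler product.

PROOF PLAN.  `s_p = ∑_i (1 - z i p)/p`, `|s_p| <= 2k/p`; `|1 - s|^2 = 1 - 2 Re s + |s|^2 <=
exp (-2 Re s + |s|^2)`, so `|1-s| <= exp (-Re s + |s|^2/2)`; `Re s_p >= (1 - Re z i0 p)/p` since all terms are
nonnegative; `∑_{p ∈ P} |s_p|^2/2 <= 2 k^2 ∑_{p prime} 1/p^2 <= 2 k^2`.
-/

namespace Pool.Agent.H87S

open Finset

private theorem sum_inv_sq (N : ℕ) :
    ∑ n ∈ Ico 2 (N + 2), 1 / (n : ℝ) ^ 2 ≤ 1 - 1 / ((N : ℝ) + 1) := by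
  induction N with
  | zero => simp
  | succ N ih =>
    rw [Finset.sum_Ico_succ_top (by omega)]
    have h1 : (0 : ℝ) < (N : ℝ) + 1 := by positivity
    have h2 : (0 : ℝ) < (N : ℝ) + 2 := by positivity
    have h3 : 1 / (((N + 2 : ℕ) : ℝ)) ^ 2 ≤ 1 / ((N : ℝ) + 1) - 1 / ((N : ℝ) + 2) := by
      push_cast
      rw [div_sub_div _ _ h1.ne' h2.ne', div_le_div_iff₀ (by positivity) (by positivity)]
      nlinarith
    have h4 : ((N + 1 : ℕ) : ℝ) + 1 = (N : ℝ) + 2 := by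
      push_cast
      ring
    rw [h4]
    linarith

private theorem sum_primes (P : Finset ℕ) (hP : ∀ p ∈ P, p.Prime) :
    ∑ p ∈ P, 1 / (p : ℝ) ^ 2 ≤ 1 := by
  have hsub : P ⊆ Ico 2 (P.sup id + 2) := by
    intro p hp
    rw [mem_Ico]
    have h1 : p ≤ P.sup id := Finset.le_sup (f := id) hp
    exact ⟨(hP p hp).two_le, by omega⟩
  have h1 := Finset.sum_le_sum_of_subset_of_nonneg (f := fun p : ℕ => 1 / (p : ℝ) ^ 2) hsub
    (fun i _ _ => by positivity)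
  have h2 := sum_inv_sq (P.sup id)
  have h3 : (0 : ℝ) ≤ 1 / (((P.sup id : ℕ) : ℝ) + 1) := by positivity
  linarith

private theorem norm_one_sub_le (s : ℂ) : ‖1 - s‖ ≤ Real.exp (-s.re + ‖s‖ ^ 2 / 2) := by
  have h1 : ‖1 - s‖ ^ 2 = 1 - 2 * s.re + ‖s‖ ^ 2 := by
    rw [Complex.sq_norm, Complex.sq_norm, Complex.normSq_apply, Complex.normSq_apply]
    simp only [Complex.sub_re, Complex.one_re, Complex.sub_im, Complex.one_im]
    ring
  have h2 : ‖1 - s‖ ^ 2 ≤ (Real.exp (-s.re + ‖s‖ ^ 2 / 2)) ^ 2 := by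
    rw [h1, ← Real.exp_nat_mul]
    have h3 := Real.add_one_le_exp (((2 : ℕ) : ℝ) * (-s.re + ‖s‖ ^ 2 / 2))
    push_cast at h3 ⊢
    linarith
  exact le_of_sq_le_sq h2 (Real.exp_pos _).le

theorem euler_bound (k : ℕ) (P : Finset ℕ) (hP : ∀ p ∈ P, p.Prime) (z : Fin k → ℕ → ℂ)
    (hz : ∀ i, ∀ p ∈ P, ‖z i p‖ ≤ 1) (i0 : Fin k) :
    ‖∏ p ∈ P, (1 - ∑ i : Fin k, (1 - z i p) / p)‖ ≤
      Real.exp (2 * (k : ℝ) ^ 2) * Real.exp (-∑ p ∈ P, (1 - (z i0 p).re) / p) := by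
  have hfac : ∀ p ∈ P, ‖(1 - ∑ i : Fin k, (1 - z i p) / p)‖ ≤
      Real.exp (-((1 - (z i0 p).re) / p) + 2 * (k : ℝ) ^ 2 * (1 / (p : ℝ) ^ 2)) := by
    intro p hp
    have hp0 : (0 : ℝ) < p := by exact_mod_cast (hP p hp).pos
    refine (norm_one_sub_le _).trans (Real.exp_le_exp.mpr ?_)
    have hterm : ∀ i : Fin k, ((1 - z i p) / (p : ℂ)).re = (1 - (z i p).re) / p := by
      intro i
      have e1 : ((p : ℕ) : ℂ) = (((p : ℕ) : ℝ) : ℂ) := by push_cast; rfl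
      rw [e1, Complex.div_ofReal_re, Complex.sub_re, Complex.one_re]
    have hnn : ∀ i : Fin k, 0 ≤ (1 - (z i p).re) / (p : ℝ) := by
      intro i
      have h1 := (Complex.abs_re_le_norm (z i p)).trans (hz i p hp)
      have h2 := (abs_le.mp h1).2
      exact div_nonneg (by linarith) hp0.le
    have hre : (1 - (z i0 p).re) / p ≤ (∑ i : Fin k, (1 - z i p) / (p : ℂ)).re := by
      rw [Complex.re_sum, Finset.sum_congr rfl (fun i _ => hterm i)]
      exact Finset.single_le_sum (f := fun i : Fin k => (1 - (z i p).re) / (p : ℝ))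
        (fun i _ => hnn i) (mem_univ i0)
    have hnorm : ‖∑ i : Fin k, (1 - z i p) / (p : ℂ)‖ ≤ (k : ℝ) * (2 / p) := by
      refine (norm_sum_le _ _).trans ?_
      have h1 : ∀ i ∈ (univ : Finset (Fin k)), ‖(1 - z i p) / (p : ℂ)‖ ≤ 2 / p := by
        intro i _
        rw [norm_div, Complex.norm_natCast]
        refine div_le_div_of_nonneg_right ?_ hp0.le
        have h2 := norm_sub_le (1 : ℂ) (z i p)
        rw [norm_one] at h2
        linarith [hz i p hp]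
      refine (Finset.sum_le_card_nsmul _ _ _ h1).trans ?_
      rw [card_univ, Fintype.card_fin, nsmul_eq_mul]
    have hsq : ‖∑ i : Fin k, (1 - z i p) / (p : ℂ)‖ ^ 2 ≤ ((k : ℝ) * (2 / p)) ^ 2 :=
      pow_le_pow_left₀ (norm_nonneg _) hnorm 2
    have he : ((k : ℝ) * (2 / p)) ^ 2 / 2 = 2 * (k : ℝ) ^ 2 * (1 / (p : ℝ) ^ 2) := by
      field_simp
    linarith
  rw [norm_prod]
  refine (Finset.prod_le_prod (fun p _ => norm_nonneg _) hfac).trans ?_
  rw [← Real.exp_sum, ← Real.exp_add]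
  refine Real.exp_le_exp.mpr ?_
  rw [Finset.sum_add_distrib, Finset.sum_neg_distrib, ← Finset.mul_sum]
  have h1 := mul_le_mul_of_nonneg_left (sum_primes P hP) (by positivity : (0:ℝ) ≤ 2 * (k : ℝ) ^ 2)
  linarith

end Pool.Agent.H87S
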