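import Pool.Agent.H87S.Defs

/-!
`n^(it)` varies slowly.

PROOF PLAN.  `(n+h)^(it)/n^(it) = exp (i t log (1 + h/n))`, `|exp (i θ) - 1| <= |θ|`,
`0 <= log (1 + h/n) <= h/n`.
-/

namespace Pool.Agent.H87S

theorem slow (n h : ℕ) (hn : 1 ≤ n) (t : ℝ) :
    ‖((n + h : ℕ) : ℂ) ^ ((t : ℂ) * Complex.I) - (n : ℂ) ^ ((t : ℂ) * Complex.I)‖ ≤
      |t| * h / n := by
  have hn0 : (0 : ℝ) < n := by exact_mod_cast hn
  have hnh0 : (0 : ℝ) < ((n + h : ℕ) : ℝ) := by
    push_cast
    positivity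
  have key : ∀ m : ℕ, 0 < m → (m : ℂ) ^ ((t : ℂ) * Complex.I) =
      Complex.exp (Complex.I * ((t * Real.log m : ℝ) : ℂ)) := by
    intro m hm
    have hm' : (m : ℂ) ≠ 0 := by exact_mod_cast hm.ne'
    rw [Complex.cpow_def_of_ne_zero hm']
    congr 1
    rw [← Complex.natCast_log]
    push_cast
    ring
  rw [key (n + h) (by omega), key n (by omega)]
  have h1 : Complex.exp (Complex.I * ((t * Real.log ((n + h : ℕ) : ℝ) : ℝ) : ℂ)) =
      Complex.exp (Complex.I * ((t * Real.log n : ℝ) : ℂ)) *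
        Complex.exp (Complex.I *
          ((t * (Real.log ((n + h : ℕ) : ℝ) - Real.log n) : ℝ) : ℂ)) := by
    rw [← Complex.exp_add]
    congr 1
    push_cast
    ring
  rw [h1]
  have h2 : Complex.exp (Complex.I * ((t * Real.log n : ℝ) : ℂ)) *
        Complex.exp (Complex.I *
          ((t * (Real.log ((n + h : ℕ) : ℝ) - Real.log n) : ℝ) : ℂ)) -
      Complex.exp (Complex.I * ((t * Real.log n : ℝ) : ℂ)) =
      Complex.exp (Complex.I * ((t * Real.log n : ℝ) : ℂ)) *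
        (Complex.exp (Complex.I *
          ((t * (Real.log ((n + h : ℕ) : ℝ) - Real.log n) : ℝ) : ℂ)) - 1) := by ring
  rw [h2, norm_mul]
  have h3 : ‖Complex.exp (Complex.I * ((t * Real.log n : ℝ) : ℂ))‖ = 1 := by
    rw [mul_comm]
    exact Complex.norm_exp_ofReal_mul_I _
  rw [h3, one_mul]
  refine (Real.norm_exp_I_mul_ofReal_sub_one_le).trans ?_
  rw [Real.norm_eq_abs, abs_mul]
  have h4 : Real.log ((n + h : ℕ) : ℝ) - Real.log n = Real.log (1 + h / n) := by
    rw [← Real.log_div hnh0.ne' hn0.ne']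
    congr 1
    push_cast
    field_simp
  have h5 : (0 : ℝ) ≤ h / n := by positivity
  have h6 : 0 ≤ Real.log (1 + (h : ℝ) / n) := Real.log_nonneg (by linarith)
  have h7 : Real.log (1 + (h : ℝ) / n) ≤ h / n := by
    have := Real.log_le_sub_one_of_pos (show (0 : ℝ) < 1 + h / n by linarith)
    linarith
  rw [h4, abs_of_nonneg h6, mul_div_assoc]
  exact mul_le_mul_of_nonneg_left h7 (abs_nonneg t)

end Pool.Agent.H87S
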