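import Pool.Agent.H87S.Defs

/-!
A deterministic sequence has few words of length `H` up to `ε`.

PROOF PLAN.  `F` is uniformly continuous: there is an entourage `U` with `|F x - F y| <= ε` for
`(x,y) ∈ U`.  `coverEntropyEntourage T univ U <= coverEntropy T univ = 0`
(`Dynamics.coverEntropyEntourage_le_coverEntropy`), `coverEntropyEntourage` is the `expGrowthSup` of
`coverMincard T univ U n`, so eventually `coverMincard T univ U n <= exp (κ n)` (`expGrowthSup` API:
e.g. `ExpGrowth.expGrowthSup_le_iff`/`eventually_le_exp`).  A cover of minimal cardinality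
(`IsDynCoverOf`, finite because of compactness or because the bound is finite) gives a finite set `s` with:
for every `x` there is `y ∈ s` with `(T^[h] x, T^[h] y) ∈ U` for all `h < n`.  Take
`W = {h ↦ F (T^[h] y) : y ∈ s}` and `x = T^[n] x0`: `a (n + h) = F (T^[n+h] x0) = F (T^[h] (T^[n] x0))`.
-/

namespace Pool.Agent.H87S

open Finset

theorem words (a : ℕ → ℂ) (ha : Deterministic a) (κ ε : ℝ) (hκ : 0 < κ) (hε : 0 < ε) :
    ∃ H0 : ℕ, ∀ H : ℕ, H0 ≤ H → ∃ W : Finset (ℕ → ℂ), (W.card : ℝ) ≤ Real.exp (κ * H) ∧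
      (∀ w ∈ W, ∀ h, ‖w h‖ ≤ 1) ∧
      ∀ n : ℕ, 1 ≤ n → ∃ w ∈ W, ∀ h < H, ‖a (n + h) - w h‖ ≤ ε := by
  classical
  obtain ⟨X, hm, hcpt, T, x0, F, hT, hent, hF, hF1, haF⟩ := ha
  have hUC : UniformContinuous F := CompactSpace.uniformContinuous_of_continuous hF
  set U : SetRel X X := {p | ‖F p.1 - F p.2‖ ≤ ε} with hU
  have hUmem : U ∈ uniformity X := by
    have h1 := hUC (Metric.dist_mem_uniformity hε)
    refine Filter.mem_of_superset h1 ?_
    intro p hp
    have h2 : dist (F p.1) (F p.2) < ε := hp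
    rw [dist_eq_norm] at h2
    exact h2.le
  have h2 : Dynamics.coverEntropyEntourage T Set.univ U ≤ 0 := by
    rw [← hent]
    exact Dynamics.coverEntropyEntourage_le_coverEntropy T Set.univ hUmem
  have h3 : ExpGrowth.expGrowthSup (fun n : ℕ =>
      ((Dynamics.coverMincard T Set.univ U n : ℕ∞) : ENNReal)) < ((κ : ℝ) : EReal) :=
    lt_of_le_of_lt h2 (by exact_mod_cast hκ)
  have h4 := ExpGrowth.eventually_le_exp h3
  obtain ⟨H0, hH0⟩ := Filter.eventually_atTop.1 h4
  refine ⟨H0, fun H hH => ?_⟩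
  have h5 := hH0 H hH
  have h6 : EReal.exp (((κ : ℝ) : EReal) * ((H : ℕ) : EReal)) =
      ENNReal.ofReal (Real.exp (κ * H)) := by
    have h7 : ((κ : ℝ) : EReal) * ((H : ℕ) : EReal) = ((κ * H : ℝ) : EReal) := by
      push_cast
      rfl
    rw [h7, EReal.exp_coe]
  rw [h6] at h5
  have h8 : Dynamics.coverMincard T Set.univ U H < ⊤ := by
    rw [lt_top_iff_ne_top]
    intro h9
    rw [h9] at h5
    simp at h5
  obtain ⟨s, hs, hcard⟩ := (Dynamics.coverMincard_finite_iff T Set.univ U H).1 h8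
  refine ⟨s.image fun y h => F (T^[h] y), ?_, ?_, ?_⟩
  · have h9 : ((s.image fun y h => F (T^[h] y)).card : ℝ) ≤ s.card := by
      exact_mod_cast Finset.card_image_le
    refine h9.trans ?_
    rw [← hcard] at h5
    have h10 : ((s.card : ℕ) : ENNReal) ≤ ENNReal.ofReal (Real.exp (κ * H)) := by
      simpa using h5
    rw [← ENNReal.ofReal_natCast] at h10
    exact (ENNReal.ofReal_le_ofReal_iff (Real.exp_pos _).le).1 h10
  · intro w hw h
    obtain ⟨y, _, rfl⟩ := Finset.mem_image.1 hw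
    exact hF1 _
  · intro n hn
    obtain ⟨y, hy, hxy⟩ := hs (Set.mem_univ (T^[n] x0))
    refine ⟨_, Finset.mem_image_of_mem _ hy, fun h hh => ?_⟩
    have h9 := Dynamics.mem_dynEntourage.1 hxy h hh
    have h10 : ‖F (T^[h] (T^[n] x0)) - F (T^[h] y)‖ ≤ ε := h9
    rw [haF (n + h) (by omega), add_comm n h, Function.iterate_add_apply]
    exact h10

end Pool.Agent.H87S
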