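import Pool.Agent.H87S.LDClass
import Pool.Agent.H87S.Words
import Pool.Agent.H87S.ApproxSum
import Pool.Agent.H87S.Cls
import Pool.Agent.H87S.Slow

/-!
The finitary form of the orthogonality.
-/

namespace Pool.Agent.H87S

open Finset

private theorem shift_one (b : ℕ → ℂ) (x : ℕ) :
    ∑ n ∈ Icc 1 x, b (n + 1) = ∑ n ∈ Icc 1 x, b n + (b (x + 1) - b 1) := by
  induction x with
  | zero => simp
  | succ k ih =>
    rw [Finset.sum_Icc_succ_top (by omega), Finset.sum_Icc_succ_top (by omega), ih]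
    ring

private theorem shift_h (b : ℕ → ℂ) (hb : ∀ n, 1 ≤ n → ‖b n‖ ≤ 1) (x h : ℕ) :
    ‖∑ n ∈ Icc 1 x, b n - ∑ n ∈ Icc 1 x, b (n + h)‖ ≤ 2 * h := by
  induction h with
  | zero => simp
  | succ k ih =>
    have h1 := shift_one (fun n => b (n + k)) x
    have h2 : ∑ n ∈ Icc 1 x, b (n + (k + 1)) = ∑ n ∈ Icc 1 x, b (n + 1 + k) :=
      sum_congr rfl fun n _ => by congr 1; omega
    rw [h2, h1]
    have h3 : ‖b (x + 1 + k)‖ ≤ 1 := hb _ (by omega)
    have h4 : ‖b (1 + k)‖ ≤ 1 := hb _ (by omega)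
    calc ‖∑ n ∈ Icc 1 x, b n - (∑ n ∈ Icc 1 x, b (n + k) + (b (x + 1 + k) - b (1 + k)))‖
        = ‖(∑ n ∈ Icc 1 x, b n - ∑ n ∈ Icc 1 x, b (n + k)) - b (x + 1 + k) + b (1 + k)‖ := by
          congr 1; ring
      _ ≤ ‖(∑ n ∈ Icc 1 x, b n - ∑ n ∈ Icc 1 x, b (n + k)) - b (x + 1 + k)‖ + ‖b (1 + k)‖ :=
          norm_add_le _ _
      _ ≤ ‖∑ n ∈ Icc 1 x, b n - ∑ n ∈ Icc 1 x, b (n + k)‖ + ‖b (x + 1 + k)‖ + ‖b (1 + k)‖ := by
          have := norm_sub_le (∑ n ∈ Icc 1 x, b n - ∑ n ∈ Icc 1 x, b (n + k)) (b (x + 1 + k))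
          linarith
      _ ≤ 2 * (k + 1 : ℕ) := by push_cast; linarith

private theorem avg (b : ℕ → ℂ) (hb : ∀ n, 1 ≤ n → ‖b n‖ ≤ 1) (x H : ℕ) :
    (H : ℝ) * ‖∑ n ∈ Icc 1 x, b n‖ ≤
      (∑ n ∈ Icc 1 x, ‖∑ h ∈ range H, b (n + h)‖) + 2 * (H : ℝ) ^ 2 := by
  have h1 : (H : ℂ) * ∑ n ∈ Icc 1 x, b n = ∑ n ∈ Icc 1 x, ∑ h ∈ range H, b (n + h) +
      ∑ h ∈ range H, (∑ n ∈ Icc 1 x, b n - ∑ n ∈ Icc 1 x, b (n + h)) := by
    rw [sum_sub_distrib, sum_comm, sum_const, card_range, nsmul_eq_mul]; ring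
  have h2 : (H : ℝ) * ‖∑ n ∈ Icc 1 x, b n‖ = ‖(H : ℂ) * ∑ n ∈ Icc 1 x, b n‖ := by
    rw [norm_mul, Complex.norm_natCast]
  rw [h2, h1]
  refine (norm_add_le _ _).trans (add_le_add (norm_sum_le _ _) ?_)
  calc ‖∑ h ∈ range H, (∑ n ∈ Icc 1 x, b n - ∑ n ∈ Icc 1 x, b (n + h))‖
      ≤ ∑ h ∈ range H, ‖∑ n ∈ Icc 1 x, b n - ∑ n ∈ Icc 1 x, b (n + h)‖ := norm_sum_le _ _
    _ ≤ ∑ h ∈ range H, 2 * (H : ℝ) := sum_le_sum fun h hh => (shift_h b hb x h).trans (by
        have h5 : (h : ℝ) ≤ H := by exact_mod_cast (mem_range.mp hh).le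
        linarith)
    _ = 2 * (H : ℝ) ^ 2 := by rw [sum_const, card_range, nsmul_eq_mul]; ring

open Classical in
private theorem card_classes (x M : ℕ) (hM : 1 ≤ M) (Bad : ℕ → Prop) :
    ((Icc 1 x).filter Bad).card ≤
      ∑ c ∈ Icc 1 M, ((range (x / M + 1)).filter (fun j => Bad (c + M * j))).card := by
  have hsub : (Icc 1 x).filter Bad ⊆ (Icc 1 M).biUnion (fun c =>
      ((range (x / M + 1)).filter (fun j => Bad (c + M * j))).image (fun j => c + M * j)) := by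
    intro n hn
    rw [mem_filter, mem_Icc] at hn
    obtain ⟨⟨hn1, hn2⟩, hB⟩ := hn
    rw [mem_biUnion]
    have hdm := Nat.div_add_mod (n - 1) M
    have hlt := Nat.mod_lt (n - 1) (show 0 < M by omega)
    refine ⟨(n - 1) % M + 1, mem_Icc.mpr ⟨by omega, by omega⟩, ?_⟩
    rw [mem_image]
    have he : (n - 1) % M + 1 + M * ((n - 1) / M) = n := by omega
    refine ⟨(n - 1) / M, ?_, he⟩
    rw [mem_filter, mem_range]
    refine ⟨?_, by rw [he]; exact hB⟩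
    have h3 : (n - 1) / M ≤ x / M := Nat.div_le_div_right (by omega)
    omega
  exact (card_le_card hsub).trans (card_biUnion_le.trans (sum_le_sum fun c _ => card_image_le))

open Classical in
private theorem bad_bound (H M x : ℕ) (hM : 1 ≤ M) (W : Finset (ℕ → ℂ))
    (hW : ∀ ω ∈ W, ∀ h, ‖ω h‖ ≤ 1) (G γ : ℕ → ℂ) (hγ1 : ∀ n, ‖γ n‖ ≤ 1) (good : ℕ → Prop)
    (hγ : ∀ c h j : ℕ, 1 ≤ c → h < H → good (c + h) → γ (c + h + M * j) = γ (c + h))
    (e K β : ℝ) (hK : 0 ≤ K)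
    (hld : ∀ (c : ℕ) (u : ℕ → ℂ), (∀ h < H, ‖u h‖ ≤ 1) →
      (((range (x / M + 1)).filter (fun j =>
        e * H < ‖∑ h ∈ range H, u h * G (c + h + M * j)‖)).card : ℝ) ≤ K)
    (hbad : (((Icc 1 M).filter (fun c => ∃ h < H, ¬ good (c + h))).card : ℝ) ≤ β) :
    (((Icc 1 x).filter (fun n => ∃ ω ∈ W,
        e * H < ‖∑ h ∈ range H, ω h * (γ (n + h) * G (n + h))‖)).card : ℝ)
      ≤ ((x / M + 1 : ℕ) : ℝ) * β + M * (W.card * K) := by
  have h1 := card_classes x M hM (fun n => ∃ ω ∈ W,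
    e * H < ‖∑ h ∈ range H, ω h * (γ (n + h) * G (n + h))‖)
  have h2 : ∀ c ∈ Icc 1 M, (((range (x / M + 1)).filter (fun j => ∃ ω ∈ W,
      e * H < ‖∑ h ∈ range H, ω h * (γ (c + M * j + h) * G (c + M * j + h))‖)).card : ℝ) ≤
      (if ∃ h < H, ¬ good (c + h) then ((x / M + 1 : ℕ) : ℝ) else 0) + W.card * K := by
    intro c hc
    rw [mem_Icc] at hc
    by_cases hg : ∃ h < H, ¬ good (c + h)
    · rw [if_pos hg]
      have h3 : (((range (x / M + 1)).filter (fun j => ∃ ω ∈ W,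
          e * H < ‖∑ h ∈ range H, ω h * (γ (c + M * j + h) * G (c + M * j + h))‖)).card : ℝ) ≤
          ((x / M + 1 : ℕ) : ℝ) := by
        exact_mod_cast (card_filter_le _ _).trans (card_range _).le
      have h4 : 0 ≤ (W.card : ℝ) * K := by positivity
      linarith
    · rw [if_neg hg, zero_add]
      push Not at hg
      have hsub : (range (x / M + 1)).filter (fun j => ∃ ω ∈ W,
          e * H < ‖∑ h ∈ range H, ω h * (γ (c + M * j + h) * G (c + M * j + h))‖) ⊆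
          W.biUnion (fun ω => (range (x / M + 1)).filter (fun j =>
            e * H < ‖∑ h ∈ range H, (ω h * γ (c + h)) * G (c + h + M * j)‖)) := by
        intro j hj
        rw [mem_filter] at hj
        obtain ⟨hj1, ω, hω, hj2⟩ := hj
        rw [mem_biUnion]
        refine ⟨ω, hω, mem_filter.mpr ⟨hj1, ?_⟩⟩
        have h5 : ∑ h ∈ range H, ω h * (γ (c + M * j + h) * G (c + M * j + h)) =
            ∑ h ∈ range H, (ω h * γ (c + h)) * G (c + h + M * j) := by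
          refine sum_congr rfl fun h hh => ?_
          have e1 : c + M * j + h = c + h + M * j := by ring
          rw [e1, hγ c h j hc.1 (mem_range.mp hh) (hg h (mem_range.mp hh))]
          ring
        rwa [h5] at hj2
      calc (((range (x / M + 1)).filter (fun j => ∃ ω ∈ W,
          e * H < ‖∑ h ∈ range H, ω h * (γ (c + M * j + h) * G (c + M * j + h))‖)).card : ℝ)
          ≤ ((W.biUnion (fun ω => (range (x / M + 1)).filter (fun j =>
            e * H < ‖∑ h ∈ range H, (ω h * γ (c + h)) * G (c + h + M * j)‖))).card : ℝ) := by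
            exact_mod_cast card_le_card hsub
        _ ≤ ((∑ ω ∈ W, ((range (x / M + 1)).filter (fun j =>
            e * H < ‖∑ h ∈ range H, (ω h * γ (c + h)) * G (c + h + M * j)‖)).card : ℕ) : ℝ) := by
            exact_mod_cast card_biUnion_le
        _ = ∑ ω ∈ W, (((range (x / M + 1)).filter (fun j =>
            e * H < ‖∑ h ∈ range H, (ω h * γ (c + h)) * G (c + h + M * j)‖)).card : ℝ) := by
            push_cast; rfl
        _ ≤ ∑ ω ∈ W, K := sum_le_sum fun ω hω => hld c _ (fun h _ => by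
            rw [norm_mul]
            exact mul_le_one₀ (hW ω hω h) (norm_nonneg _) (hγ1 _))
        _ = W.card * K := by rw [sum_const, nsmul_eq_mul]
  calc (((Icc 1 x).filter (fun n => ∃ ω ∈ W,
        e * H < ‖∑ h ∈ range H, ω h * (γ (n + h) * G (n + h))‖)).card : ℝ)
      ≤ ((∑ c ∈ Icc 1 M, ((range (x / M + 1)).filter (fun j => ∃ ω ∈ W,
      e * H < ‖∑ h ∈ range H, ω h * (γ (c + M * j + h) * G (c + M * j + h))‖)).card : ℕ) : ℝ) := by
        refine Nat.cast_le.mpr ?_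
        convert h1
    _ = ∑ c ∈ Icc 1 M, (((range (x / M + 1)).filter (fun j => ∃ ω ∈ W,
      e * H < ‖∑ h ∈ range H, ω h * (γ (c + M * j + h) * G (c + M * j + h))‖)).card : ℝ) := by
        push_cast; rfl
    _ ≤ ∑ c ∈ Icc 1 M,
        ((if ∃ h < H, ¬ good (c + h) then ((x / M + 1 : ℕ) : ℝ) else 0) + W.card * K) :=
        sum_le_sum h2
    _ = ((x / M + 1 : ℕ) : ℝ) * (((Icc 1 M).filter (fun c => ∃ h < H, ¬ good (c + h))).card : ℝ) +
        M * (W.card * K) := by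
        rw [sum_add_distrib, ← sum_filter, sum_const, sum_const, Nat.card_Icc, nsmul_eq_mul,
          nsmul_eq_mul, Nat.add_sub_cancel, mul_comm]
    _ ≤ ((x / M + 1 : ℕ) : ℝ) * β + M * (W.card * K) := by
        have h6 : (0 : ℝ) ≤ ((x / M + 1 : ℕ) : ℝ) := Nat.cast_nonneg _
        have h7 := mul_le_mul_of_nonneg_left hbad h6
        linarith

private theorem point_bound (H n : ℕ) (hn : 1 ≤ n) (a G γ T ω : ℕ → ℂ) (e τ : ℝ)
    (ha : ∀ m, 1 ≤ m → ‖a m‖ ≤ 1) (hG : ∀ m, ‖G m‖ ≤ 1) (hγ : ∀ m, ‖γ m‖ ≤ 1)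
    (hT : ∀ m, 1 ≤ m → ‖T m‖ = 1) (hTs : ∀ h < H, ‖T (n + h) - T n‖ ≤ τ)
    (hω : ∀ h < H, ‖a (n + h) - ω h‖ ≤ e) :
    ‖∑ h ∈ range H, γ (n + h) * T (n + h) * G (n + h) * a (n + h)‖ ≤
      H * τ + H * e + ‖∑ h ∈ range H, ω h * (γ (n + h) * G (n + h))‖ := by
  have h1 : ∑ h ∈ range H, γ (n + h) * T (n + h) * G (n + h) * a (n + h) =
      ∑ h ∈ range H, γ (n + h) * (T (n + h) - T n) * G (n + h) * a (n + h) +
      ∑ h ∈ range H, γ (n + h) * T n * G (n + h) * (a (n + h) - ω h) +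
      T n * ∑ h ∈ range H, ω h * (γ (n + h) * G (n + h)) := by
    rw [mul_sum, ← sum_add_distrib, ← sum_add_distrib]
    refine sum_congr rfl fun h _ => ?_
    ring
  rw [h1]
  have h2 : ‖∑ h ∈ range H, γ (n + h) * (T (n + h) - T n) * G (n + h) * a (n + h)‖ ≤ H * τ := by
    calc ‖∑ h ∈ range H, γ (n + h) * (T (n + h) - T n) * G (n + h) * a (n + h)‖
        ≤ ∑ h ∈ range H, ‖γ (n + h) * (T (n + h) - T n) * G (n + h) * a (n + h)‖ :=
          norm_sum_le _ _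
      _ ≤ ∑ h ∈ range H, τ := sum_le_sum fun h hh => by
          rw [norm_mul, norm_mul, norm_mul]
          have b1 := hγ (n + h)
          have b2 := hTs h (mem_range.mp hh)
          have b3 := hG (n + h)
          have b4 := ha (n + h) (by omega)
          have c0 := norm_nonneg (T (n + h) - T n)
          calc ‖γ (n + h)‖ * ‖T (n + h) - T n‖ * ‖G (n + h)‖ * ‖a (n + h)‖
              ≤ 1 * ‖T (n + h) - T n‖ * 1 * 1 := by gcongr
            _ ≤ τ := by linarith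
      _ = H * τ := by rw [sum_const, card_range, nsmul_eq_mul]
  have h3 : ‖∑ h ∈ range H, γ (n + h) * T n * G (n + h) * (a (n + h) - ω h)‖ ≤ H * e := by
    calc ‖∑ h ∈ range H, γ (n + h) * T n * G (n + h) * (a (n + h) - ω h)‖
        ≤ ∑ h ∈ range H, ‖γ (n + h) * T n * G (n + h) * (a (n + h) - ω h)‖ :=
          norm_sum_le _ _
      _ ≤ ∑ h ∈ range H, e := sum_le_sum fun h hh => by
          rw [norm_mul, norm_mul, norm_mul, hT n hn]
          have b1 := hγ (n + h)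
          have b2 := hω h (mem_range.mp hh)
          have b3 := hG (n + h)
          have c0 := norm_nonneg (a (n + h) - ω h)
          calc ‖γ (n + h)‖ * 1 * ‖G (n + h)‖ * ‖a (n + h) - ω h‖
              ≤ 1 * 1 * 1 * ‖a (n + h) - ω h‖ := by gcongr
            _ ≤ e := by linarith
      _ = H * e := by rw [sum_const, card_range, nsmul_eq_mul]
  have h4 : ‖T n * ∑ h ∈ range H, ω h * (γ (n + h) * G (n + h))‖ =
      ‖∑ h ∈ range H, ω h * (γ (n + h) * G (n + h))‖ := by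
    rw [norm_mul, hT n hn, one_mul]
  calc _ ≤ ‖∑ h ∈ range H, γ (n + h) * (T (n + h) - T n) * G (n + h) * a (n + h) +
      ∑ h ∈ range H, γ (n + h) * T n * G (n + h) * (a (n + h) - ω h)‖ +
      ‖T n * ∑ h ∈ range H, ω h * (γ (n + h) * G (n + h))‖ := norm_add_le _ _
    _ ≤ ‖∑ h ∈ range H, γ (n + h) * (T (n + h) - T n) * G (n + h) * a (n + h)‖ +
      ‖∑ h ∈ range H, γ (n + h) * T n * G (n + h) * (a (n + h) - ω h)‖ +
      ‖T n * ∑ h ∈ range H, ω h * (γ (n + h) * G (n + h))‖ := by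
        have := norm_add_le (∑ h ∈ range H, γ (n + h) * (T (n + h) - T n) * G (n + h) * a (n + h))
          (∑ h ∈ range H, γ (n + h) * T n * G (n + h) * (a (n + h) - ω h))
        linarith
    _ ≤ _ := by rw [h4]; linarith

private theorem sum_inv_le (x : ℕ) : ∑ n ∈ Icc 1 x, (1 : ℝ) / n ≤ 1 + Real.log x := by
  have h := harmonic_le_one_add_log x
  rw [harmonic_eq_sum_Icc] at h
  push_cast at h
  simpa [one_div] using h

private theorem norm_le_of_deterministic {a : ℕ → ℂ} (ha : Deterministic a) (m : ℕ) (hm : 1 ≤ m) :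
    ‖a m‖ ≤ 1 := by
  obtain ⟨X, _, _, T, x0, F, _, _, _, hF, hax⟩ := ha
  rw [hax m hm]
  exact hF _

private theorem one_add_log_le (x : ℕ) (hx : 1 ≤ x) : 1 + Real.log x ≤ 2 * Real.sqrt x := by
  have hx0 : (0 : ℝ) < x := by exact_mod_cast hx
  have hs : 0 < Real.sqrt x := Real.sqrt_pos.mpr hx0
  have h1 := Real.log_le_sub_one_of_pos hs
  have h2 : Real.log x = 2 * Real.log (Real.sqrt x) := by
    rw [Real.log_sqrt hx0.le]; ring
  rw [h2]
  linarith

open Classical in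
private theorem core (a : ℕ → ℂ) (ha1 : ∀ m, 1 ≤ m → ‖a m‖ ≤ 1) (f : ℕ → ℂ) (hf : MultD f)
    (H : ℕ) (hH : 1 ≤ H) (e δ : ℝ) (he0 : 0 < e) (hδ : 0 ≤ δ)
    (W : Finset (ℕ → ℂ)) (hWc : (W.card : ℝ) ≤ Real.exp (e ^ 2 / 8 * H))
    (hW1 : ∀ ω ∈ W, ∀ h, ‖ω h‖ ≤ 1)
    (hW : ∀ n : ℕ, 1 ≤ n → ∃ ω ∈ W, ∀ h < H, ‖a (n + h) - ω h‖ ≤ e)
    (hHe : 4 * Real.exp (-(e ^ 2 * H / 8)) ≤ e)
    (hδe : 4 * Real.exp (e ^ 2 / 8 * H) * δ ≤ e)
    (w L : ℕ) (hw : 1 ≤ w) (hL : 1 ≤ L) (hwe : 2 / (w : ℝ) ≤ e)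
    (hwH : (H : ℝ) * (1 / w) ≤ e) (hLH : (H : ℝ) * (w / 2 ^ L) ≤ e)
    (q : ℕ) (χ : DirichletCharacter ℂ q) (t : ℝ) (hq : 1 ≤ q) (y x : ℕ) (hy : 1 ≤ y)
    (hqy : q ≤ y) (hwy : w ≤ y) (hty : |t| ≤ y)
    (hMx : MM w L q ≤ x) (hHy : 2 * (H : ℝ) ≤ e * y) (hy2 : y ^ 4 ≤ x)
    (hη : ∑ p ∈ pr y x, ‖1 - zf f χ t p‖ / p ≤ e)
    (hld : ∀ (c : ℕ) (u : ℕ → ℂ), (∀ h < H, ‖u h‖ ≤ 1) →
      (((range (x / MM w L q + 1)).filter (fun j =>
        e * H < ‖∑ h ∈ range H, u h * GP ((pr w y).filter (fun p => ¬ p ∣ q)) (zf f χ t)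
          (c + h + MM w L q * j)‖)).card : ℝ) ≤
        4 * (x / MM w L q + 1 : ℕ) * (Real.exp (-(e ^ 2 * H / 4)) + δ)) :
    ‖∑ n ∈ Icc 1 x, f n * a n‖ ≤ 16 * e * x := by
  set M := MM w L q with hMdef
  set P := (pr w y).filter (fun p => ¬ p ∣ q) with hP
  set z := zf f χ t with hz
  set N : ℕ := x / M + 1 with hN
  have hM1 : 1 ≤ M := MM_pos w L q
  have hx1 : 1 ≤ x := by
    have : 1 ≤ y ^ 4 := Nat.one_le_pow _ _ hy
    omega
  have hx0 : (0 : ℝ) < x := by exact_mod_cast hx1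
  have hH0 : (0 : ℝ) < H := by exact_mod_cast hH
  have hM0 : (0 : ℝ) < M := by exact_mod_cast hM1
  have hzP : ∀ p ∈ P, ‖z p‖ ≤ 1 := by
    intro p hp
    rw [hP, mem_filter, mem_pr] at hp
    exact zf_norm_le hf χ t p hp.1.2.one_lt.le
  set G : ℕ → ℂ := fun n => GP P z n with hG
  set γ : ℕ → ℂ := fun n => gam f χ t w n with hγ
  set T : ℕ → ℂ := fun n => (n : ℂ) ^ ((t : ℂ) * Complex.I) with hT
  have hG1 : ∀ n, ‖G n‖ ≤ 1 := fun n => GP_norm_le P z hzP n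
  have hγ1 : ∀ n, ‖γ n‖ ≤ 1 := fun n => gam_norm_le hf χ t w n
  have hT1 : ∀ n, 1 ≤ n → ‖T n‖ = 1 := fun n hn => norm_natpow_it n hn t
  set b : ℕ → ℂ := fun n => γ n * T n * G n * a n with hb
  have hb1 : ∀ n, 1 ≤ n → ‖b n‖ ≤ 1 := by
    intro n hn
    simp only [hb]
    rw [norm_mul, norm_mul, norm_mul, hT1 n hn]
    have b1 := hγ1 n
    have b3 := hG1 n
    have b4 := ha1 n hn
    calc ‖γ n‖ * 1 * ‖G n‖ * ‖a n‖ ≤ 1 * 1 * 1 * 1 := by gcongr
      _ = 1 := by norm_num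
  -- the bad set
  set Bad := (Icc 1 x).filter (fun n => ∃ ω ∈ W,
        e * H < ‖∑ h ∈ range H, ω h * (γ (n + h) * G (n + h))‖) with hBad
  set K : ℝ := 4 * (N : ℝ) * (Real.exp (-(e ^ 2 * H / 4)) + δ) with hK
  set β : ℝ := H * M * ((w : ℝ) / 2 ^ L + 1 / w) with hβ
  have hK0 : 0 ≤ K := by
    rw [hK]
    have : 0 ≤ Real.exp (-(e ^ 2 * H / 4)) := (Real.exp_pos _).le
    positivity
  have hγc : ∀ c h j : ℕ, 1 ≤ c → h < H → GoodArg w L q (c + h) →
      γ (c + h + M * j) = γ (c + h) := by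
    intro c h j hc _ hg
    refine gam_const hf χ t w L (c + h + M * j) (c + h) hq hL (by omega) (by omega) ?_ hg
    exact (Nat.modEq_iff_dvd' (by omega)).mpr ⟨j, by rw [← hMdef]; omega⟩ |>.symm
  have hBc : (Bad.card : ℝ) ≤ (N : ℝ) * β + M * (W.card * K) := by
    refine bad_bound H M x hM1 W hW1 G γ hγ1 (GoodArg w L q) hγc e K β hK0 ?_ ?_
    · exact hld
    · exact bad_count w L q H hw hq
  have hNM : (N : ℝ) * M ≤ 2 * x := by
    have h1 : x / M * M ≤ x := Nat.div_mul_le_self x M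
    have h2 : N * M ≤ 2 * x := by rw [hN, add_mul, one_mul]; omega
    exact_mod_cast h2
  have hβ2 : β ≤ 2 * e * M := by
    have h1 : β = M * ((H : ℝ) * (w / 2 ^ L) + (H : ℝ) * (1 / w)) := by rw [hβ]; ring
    rw [h1]
    have h2 : (H : ℝ) * (w / 2 ^ L) + (H : ℝ) * (1 / w) ≤ 2 * e := by linarith
    have h3 := mul_le_mul_of_nonneg_left h2 hM0.le
    linarith
  have hWK : (W.card : ℝ) * K ≤ 2 * e * N := by
    have hN0 : (0 : ℝ) ≤ N := Nat.cast_nonneg _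
    have h1 : (W.card : ℝ) * K ≤ Real.exp (e ^ 2 / 8 * H) * K := mul_le_mul_of_nonneg_right hWc hK0
    have h2 : Real.exp (e ^ 2 / 8 * H) * K = N * (4 * (Real.exp (e ^ 2 / 8 * H) *
        Real.exp (-(e ^ 2 * H / 4))) + 4 * Real.exp (e ^ 2 / 8 * H) * δ) := by rw [hK]; ring
    have h3 : Real.exp (e ^ 2 / 8 * H) * Real.exp (-(e ^ 2 * H / 4)) =
        Real.exp (-(e ^ 2 * H / 8)) := by
      rw [← Real.exp_add]; congr 1; ring
    rw [h3] at h2
    rw [h2] at h1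
    have h4 : 4 * Real.exp (-(e ^ 2 * H / 8)) + 4 * Real.exp (e ^ 2 / 8 * H) * δ ≤ 2 * e := by
      linarith
    have h5 := mul_le_mul_of_nonneg_left h4 hN0
    linarith
  have hBad8 : (Bad.card : ℝ) ≤ 8 * e * x := by
    have hN0 : (0 : ℝ) ≤ N := Nat.cast_nonneg _
    have h1 := mul_le_mul_of_nonneg_left hβ2 hN0
    have h2 := mul_le_mul_of_nonneg_left hWK hM0.le
    have h3 := mul_le_mul_of_nonneg_left hNM (show 0 ≤ 4 * e by linarith)
    nlinarith [hBc, h1, h2, h3]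
  -- pointwise bounds
  have hpt : ∀ n ∈ Icc 1 x, ‖∑ h ∈ range H, b (n + h)‖ ≤
      (H : ℝ) ^ 2 * |t| * (1 / n) + 2 * H * e + (if n ∈ Bad then (H : ℝ) else 0) := by
    intro n hn
    have hn' := mem_Icc.mp hn
    obtain ⟨ω, hω, hωa⟩ := hW n hn'.1
    have h1 := point_bound H n hn'.1 a G γ T ω e (|t| * H / n) ha1 hG1 hγ1 hT1 (by
      intro h hh
      refine (slow n h hn'.1 t).trans ?_
      have h2 : (h : ℝ) ≤ H := by exact_mod_cast hh.le
      gcongr) hωa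
    have h3 : ‖∑ h ∈ range H, ω h * (γ (n + h) * G (n + h))‖ ≤
        H * e + (if n ∈ Bad then (H : ℝ) else 0) := by
      by_cases hB : n ∈ Bad
      · rw [if_pos hB]
        have h4 : ‖∑ h ∈ range H, ω h * (γ (n + h) * G (n + h))‖ ≤ H := by
          calc ‖∑ h ∈ range H, ω h * (γ (n + h) * G (n + h))‖
              ≤ ∑ h ∈ range H, ‖ω h * (γ (n + h) * G (n + h))‖ := norm_sum_le _ _
            _ ≤ ∑ h ∈ range H, (1 : ℝ) := sum_le_sum fun h _ => by
                rw [norm_mul, norm_mul]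
                exact mul_le_one₀ (hW1 ω hω h) (by positivity)
                  (mul_le_one₀ (hγ1 _) (norm_nonneg _) (hG1 _))
            _ = H := by rw [sum_const, card_range, nsmul_eq_mul, mul_one]
        have h5 : 0 ≤ (H : ℝ) * e := by positivity
        linarith
      · rw [if_neg hB, add_zero]
        by_contra hcon
        push Not at hcon
        apply hB
        rw [hBad, mem_filter]
        exact ⟨hn, ω, hω, by linarith⟩
    have h6 : (H : ℝ) * (|t| * H / n) = (H : ℝ) ^ 2 * |t| * (1 / n) := by ring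
    rw [h6] at h1
    have h7 : ‖∑ h ∈ range H, b (n + h)‖ =
        ‖∑ h ∈ range H, γ (n + h) * T (n + h) * G (n + h) * a (n + h)‖ := rfl
    rw [h7]
    linarith
  have hsum : ∑ n ∈ Icc 1 x, ‖∑ h ∈ range H, b (n + h)‖ ≤
      (H : ℝ) ^ 2 * |t| * (1 + Real.log x) + 2 * H * e * x + H * Bad.card := by
    calc ∑ n ∈ Icc 1 x, ‖∑ h ∈ range H, b (n + h)‖
        ≤ ∑ n ∈ Icc 1 x, ((H : ℝ) ^ 2 * |t| * (1 / n) + 2 * H * e +
          (if n ∈ Bad then (H : ℝ) else 0)) := sum_le_sum hpt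
      _ = (H : ℝ) ^ 2 * |t| * ∑ n ∈ Icc 1 x, (1 : ℝ) / n + 2 * H * e * x + H * Bad.card := by
          rw [sum_add_distrib, sum_add_distrib, ← mul_sum, sum_const, Nat.card_Icc,
            Nat.add_sub_cancel, nsmul_eq_mul, ← sum_filter, sum_const, nsmul_eq_mul]
          have h1 : (Icc 1 x).filter (fun n => n ∈ Bad) = Bad := by
            ext n
            rw [mem_filter]
            constructor
            · exact fun h => h.2
            · intro h
              refine ⟨?_, h⟩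
              rw [hBad, mem_filter] at h
              exact h.1
          rw [h1]
          ring
      _ ≤ _ := by
          have h2 := mul_le_mul_of_nonneg_left (sum_inv_le x)
            (show (0 : ℝ) ≤ (H : ℝ) ^ 2 * |t| by positivity)
          linarith
  have havg := avg b hb1 x H
  have htl : (H : ℝ) * |t| * (1 + Real.log x) ≤ e * x := by
    have h1 := one_add_log_le x hx1
    have h2 : 0 ≤ 1 + Real.log x := by
      have := Real.log_nonneg (show (1 : ℝ) ≤ x by exact_mod_cast hx1)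
      linarith
    have hy0 : (0 : ℝ) ≤ y := Nat.cast_nonneg _
    have h3 : (y : ℝ) ^ 2 ≤ Real.sqrt x := by
      apply Real.le_sqrt_of_sq_le
      have h4 : ((y ^ 4 : ℕ) : ℝ) ≤ x := by exact_mod_cast hy2
      push_cast at h4
      have h5 : ((y : ℝ) ^ 2) ^ 2 = (y : ℝ) ^ 4 := by ring
      rw [h5]
      exact h4
    have hs0 := Real.sqrt_nonneg (x : ℝ)
    calc (H : ℝ) * |t| * (1 + Real.log x) ≤ H * y * (2 * Real.sqrt x) := by gcongr
      _ = (2 * H) * (y * Real.sqrt x) := by ring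
      _ ≤ (e * y) * (y * Real.sqrt x) := by gcongr
      _ = e * ((y : ℝ) ^ 2 * Real.sqrt x) := by ring
      _ ≤ e * (Real.sqrt x * Real.sqrt x) := by gcongr
      _ = e * x := by rw [Real.mul_self_sqrt hx0.le]
  have hHx : 2 * (H : ℝ) ≤ e * x := by
    have h1 : y ≤ x := by
      calc y ≤ y ^ 4 := Nat.le_self_pow (by norm_num) y
        _ ≤ x := hy2
    have h2 : (y : ℝ) ≤ x := by exact_mod_cast h1
    calc 2 * (H : ℝ) ≤ e * y := hHy
      _ ≤ e * x := by gcongr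
  have hbsum : ‖∑ n ∈ Icc 1 x, b n‖ ≤ 12 * e * x := by
    have h1 : (H : ℝ) * ‖∑ n ∈ Icc 1 x, b n‖ ≤ H * (12 * e * x) := by
      have h2 := mul_le_mul_of_nonneg_left hBad8 hH0.le
      have h3 := mul_le_mul_of_nonneg_left htl hH0.le
      have h4 := mul_le_mul_of_nonneg_left hHx hH0.le
      nlinarith [havg, hsum, h2, h3, h4]
    exact le_of_mul_le_mul_left h1 hH0
  have happ := approx_sum hf χ t w y x hw hq hqy hwy
  have hdiff : ‖∑ n ∈ Icc 1 x, f n * a n - ∑ n ∈ Icc 1 x, b n‖ ≤ 2 * e * x := by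
    rw [← sum_sub_distrib]
    calc ‖∑ n ∈ Icc 1 x, (f n * a n - b n)‖ ≤ ∑ n ∈ Icc 1 x, ‖f n * a n - b n‖ :=
          norm_sum_le _ _
      _ ≤ ∑ n ∈ Icc 1 x, ‖f n - gam f χ t w n * (n : ℂ) ^ ((t : ℂ) * Complex.I) *
        GP ((pr w y).filter (fun p => ¬ p ∣ q)) (zf f χ t) n‖ := by
          refine sum_le_sum fun n hn => ?_
          have hn' := mem_Icc.mp hn
          have h1 : f n * a n - b n = (f n - gam f χ t w n * (n : ℂ) ^ ((t : ℂ) * Complex.I) *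
            GP ((pr w y).filter (fun p => ¬ p ∣ q)) (zf f χ t) n) * a n := by
            simp only [hb, hγ, hT, hG, hP, hz]
            ring
          rw [h1, norm_mul]
          exact mul_le_of_le_one_right (norm_nonneg _) (ha1 n hn'.1)
      _ ≤ 2 * x / w + x * ∑ p ∈ pr y x, ‖1 - zf f χ t p‖ / p := happ
      _ ≤ e * x + e * x := by
          have h2 : 2 * (x : ℝ) / w = (2 / w) * x := by ring
          rw [h2]
          have h3 := mul_le_mul_of_nonneg_right hwe hx0.le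
          have h4 := mul_le_mul_of_nonneg_left hη hx0.le
          linarith
      _ = 2 * e * x := by ring
  have hfin : ‖∑ n ∈ Icc 1 x, f n * a n‖ ≤
      ‖∑ n ∈ Icc 1 x, f n * a n - ∑ n ∈ Icc 1 x, b n‖ + ‖∑ n ∈ Icc 1 x, b n‖ := by
    have := norm_add_le (∑ n ∈ Icc 1 x, f n * a n - ∑ n ∈ Icc 1 x, b n) (∑ n ∈ Icc 1 x, b n)
    rwa [sub_add_cancel] at this
  have : 0 ≤ e * x := by positivity
  linarith

theorem finitary (a : ℕ → ℂ) (ha : Deterministic a) (ε : ℝ) (hε : 0 < ε) :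
    ∃ (B : ℕ) (D η : ℝ) (y0 : ℕ), 2 ≤ B ∧ 0 < η ∧ ∀ y x : ℕ, y0 ≤ y → y ^ B ≤ x →
      ∀ f : ℕ → ℂ, MultD f → ∀ (q : ℕ) (χ : DirichletCharacter ℂ q) (t : ℝ), 1 ≤ q → q ≤ y →
      |t| ≤ y → ∑ p ∈ pr y x, ‖1 - zf f χ t p‖ / p ≤ η →
      D ≤ ∑ p ∈ (pr 0 y).filter (fun p => ¬ p ∣ q), (1 - (zf f χ t p).re) / p →
      ‖∑ n ∈ Icc 1 x, f n * a n‖ ≤ ε * x := by
  classical
  have ha1 : ∀ m, 1 ≤ m → ‖a m‖ ≤ 1 := fun m hm => norm_le_of_deterministic ha m hm
  obtain ⟨e, he0, he1, heε⟩ : ∃ e : ℝ, 0 < e ∧ e ≤ 1 ∧ 16 * e ≤ ε := by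
    refine ⟨min (ε / 16) 1, by positivity, min_le_right _ _, ?_⟩
    have := min_le_left (ε / 16) 1
    linarith
  obtain ⟨H0, hH0⟩ := words a ha (e ^ 2 / 8) e (by positivity) he0
  obtain ⟨H, hH1, hHH0, hHe⟩ : ∃ H : ℕ, 1 ≤ H ∧ H0 ≤ H ∧
      4 * Real.exp (-(e ^ 2 * H / 8)) ≤ e := by
    refine ⟨max (max 1 H0) ⌈8 / e ^ 2 * Real.log (4 / e)⌉₊, by simp, by simp, ?_⟩
    set H := max (max 1 H0) ⌈8 / e ^ 2 * Real.log (4 / e)⌉₊ with hH
    have h1 : 8 / e ^ 2 * Real.log (4 / e) ≤ (H : ℝ) := by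
      refine (Nat.le_ceil _).trans ?_
      exact_mod_cast le_max_right _ _
    have he2 : 0 < e ^ 2 := by positivity
    have h2 : Real.log (4 / e) ≤ e ^ 2 * H / 8 := by
      have h3 := mul_le_mul_of_nonneg_left h1 (show 0 ≤ e ^ 2 / 8 by positivity)
      have h4 : e ^ 2 / 8 * (8 / e ^ 2 * Real.log (4 / e)) = Real.log (4 / e) := by
        field_simp
      rw [h4] at h3
      linarith
    have h5 : Real.exp (-(e ^ 2 * H / 8)) ≤ Real.exp (-Real.log (4 / e)) :=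
      Real.exp_le_exp.mpr (by linarith)
    rw [Real.exp_neg (Real.log (4 / e)), Real.exp_log (by positivity)] at h5
    have h6 : (4 / e)⁻¹ = e / 4 := by rw [inv_div]
    rw [h6] at h5
    linarith
  obtain ⟨W, hWc, hW1, hW⟩ := hH0 H hHH0
  have hH0' : (0 : ℝ) < H := by exact_mod_cast hH1
  obtain ⟨w, hwH0, hwe0⟩ : ∃ w : ℕ, H ≤ w ∧ ((H : ℝ) + 2) ≤ e * w := by
    refine ⟨max H ⌈((H : ℝ) + 2) / e⌉₊, le_max_left _ _, ?_⟩
    have h1 : ((H : ℝ) + 2) / e ≤ (max H ⌈((H : ℝ) + 2) / e⌉₊ : ℕ) := by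
      refine (Nat.le_ceil _).trans ?_
      exact_mod_cast le_max_right _ _
    rw [div_le_iff₀ he0] at h1
    linarith
  have hw1 : 1 ≤ w := hH1.trans hwH0
  have hw0 : (0 : ℝ) < w := by exact_mod_cast hw1
  have hwe : 2 / (w : ℝ) ≤ e := by
    rw [div_le_iff₀ hw0]; linarith
  have hwH : (H : ℝ) * (1 / w) ≤ e := by
    rw [mul_one_div, div_le_iff₀ hw0]; linarith
  obtain ⟨L, hL1, hLH⟩ : ∃ L : ℕ, 1 ≤ L ∧ (H : ℝ) * (w / 2 ^ L) ≤ e := by
    obtain ⟨n, hn⟩ := pow_unbounded_of_one_lt ((H : ℝ) * w / e) (one_lt_two)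
    refine ⟨n + 1, by omega, ?_⟩
    have h1 : (2 : ℝ) ^ n ≤ 2 ^ (n + 1) := pow_le_pow_right₀ (by norm_num) (by omega)
    rw [← mul_div_assoc, div_le_iff₀ (by positivity)]
    rw [div_lt_iff₀ he0] at hn
    nlinarith
  set δ : ℝ := e / (4 * Real.exp (e ^ 2 / 8 * H)) with hδdef
  have hδ : 0 < δ := by rw [hδdef]; positivity
  have hδe : 4 * Real.exp (e ^ 2 / 8 * H) * δ ≤ e := by
    rw [hδdef, mul_div_cancel₀]
    positivity
  obtain ⟨B0, D0, hB0, hld⟩ := ld_class H hH1 e δ he0 he1 hδ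
  refine ⟨B0 + 4, D0 + 2 * w, e, max (max 2 ((w ^ w) ^ L)) (max w ⌈2 * (H : ℝ) / e⌉₊), by omega, he0,
    ?_⟩
  intro y x hy0 hyx f hf q χ t hq hqy hty hη hD
  have hy2 : 2 ≤ y := (le_max_left _ _).trans ((le_max_left _ _).trans hy0)
  have hyA : (w ^ w) ^ L ≤ y := (le_max_right _ _).trans ((le_max_left _ _).trans hy0)
  have hyw : w ≤ y := (le_max_left _ _).trans ((le_max_right _ _).trans hy0)
  have hyc : ⌈2 * (H : ℝ) / e⌉₊ ≤ y := (le_max_right _ _).trans ((le_max_right _ _).trans hy0)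
  have hHy : 2 * (H : ℝ) ≤ e * y := by
    have h1 : 2 * (H : ℝ) / e ≤ y := (Nat.le_ceil _).trans (by exact_mod_cast hyc)
    rw [div_le_iff₀ he0] at h1
    linarith
  have hM3 : MM w L q ≤ y ^ 3 := by
    calc MM w L q ≤ (w ^ w) ^ L * q ^ 2 := MM_le w L q hw1 hq
      _ ≤ y * y ^ 2 := Nat.mul_le_mul hyA (Nat.pow_le_pow_left hqy 2)
      _ = y ^ 3 := by ring
  have hM1 := MM_pos w L q
  have hBx : y ^ B0 * MM w L q ≤ x := by
    calc y ^ B0 * MM w L q ≤ y ^ B0 * y ^ 3 := Nat.mul_le_mul_left _ hM3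
      _ = y ^ (B0 + 3) := by rw [← pow_add]
      _ ≤ y ^ (B0 + 4) := Nat.pow_le_pow_right (by omega) (by omega)
      _ ≤ x := hyx
  have hMx : MM w L q ≤ x := by
    calc MM w L q = 1 * MM w L q := by ring
      _ ≤ y ^ B0 * MM w L q := Nat.mul_le_mul_right _ (Nat.one_le_pow _ _ (by omega))
      _ ≤ x := hBx
  have hyN : y ^ B0 ≤ x / MM w L q + 1 := by
    have h1 : y ^ B0 ≤ x / MM w L q := (Nat.le_div_iff_mul_le hM1).mpr hBx
    omega
  have hy4 : y ^ 4 ≤ x := by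
    calc y ^ 4 ≤ y ^ (B0 + 4) := Nat.pow_le_pow_right (by omega) (by omega)
      _ ≤ x := hyx
  have hDP : D0 ≤ ∑ p ∈ (pr w y).filter (fun p => ¬ p ∣ q), (1 - (zf f χ t p).re) / p := by
    have h1 : ∑ p ∈ (pr 0 y).filter (fun p => ¬ p ∣ q), (1 - (zf f χ t p).re) / p ≤
        ∑ p ∈ (pr w y).filter (fun p => ¬ p ∣ q), (1 - (zf f χ t p).re) / p +
        ∑ p ∈ Ioc 0 w, (2 : ℝ) := by
      have hsub : (pr 0 y).filter (fun p => ¬ p ∣ q) ⊆
          (pr w y).filter (fun p => ¬ p ∣ q) ∪ (pr 0 w).filter (fun p => ¬ p ∣ q) := by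
        intro p hp
        rw [mem_filter, mem_pr] at hp
        rw [mem_union, mem_filter, mem_filter, mem_pr, mem_pr]
        rcases le_or_gt p w with h | h
        · right; exact ⟨⟨⟨hp.1.1.1, h⟩, hp.1.2⟩, hp.2⟩
        · left; exact ⟨⟨⟨h, hp.1.1.2⟩, hp.1.2⟩, hp.2⟩
      have hnn : ∀ p : ℕ, p.Prime → 0 ≤ (1 - (zf f χ t p).re) / p := fun p hp =>
        div_nonneg (zf_re_le hf χ t p hp.one_lt.le) (Nat.cast_nonneg _)
      have hd : Disjoint ((pr w y).filter (fun p => ¬ p ∣ q)) ((pr 0 w).filter (fun p => ¬ p ∣ q)) := by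
        rw [disjoint_left]
        intro p hp hp'
        rw [mem_filter, mem_pr] at hp hp'
        omega
      calc ∑ p ∈ (pr 0 y).filter (fun p => ¬ p ∣ q), (1 - (zf f χ t p).re) / p
          ≤ ∑ p ∈ (pr w y).filter (fun p => ¬ p ∣ q) ∪ (pr 0 w).filter (fun p => ¬ p ∣ q),
            (1 - (zf f χ t p).re) / p := by
            refine sum_le_sum_of_subset_of_nonneg hsub fun p hp _ => ?_
            rw [mem_union, mem_filter, mem_filter, mem_pr, mem_pr] at hp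
            exact hnn p (by rcases hp with h | h <;> exact h.1.2)
        _ = ∑ p ∈ (pr w y).filter (fun p => ¬ p ∣ q), (1 - (zf f χ t p).re) / p +
            ∑ p ∈ (pr 0 w).filter (fun p => ¬ p ∣ q), (1 - (zf f χ t p).re) / p := sum_union hd
        _ ≤ _ := by
            have h5 : ∑ p ∈ (pr 0 w).filter (fun p => ¬ p ∣ q), (1 - (zf f χ t p).re) / p ≤
                ∑ p ∈ (pr 0 w).filter (fun p => ¬ p ∣ q), (2 : ℝ) := by
              refine sum_le_sum fun p hp => ?_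
              rw [mem_filter, mem_pr] at hp
              have hp1 : (1 : ℝ) ≤ p := by exact_mod_cast hp.1.2.one_lt.le
              have h6 := zf_norm_le hf χ t p hp.1.2.one_lt.le
              have h7 := Complex.abs_re_le_norm (zf f χ t p)
              have h8 := (abs_le.mp (h7.trans h6)).1
              rw [div_le_iff₀ (by linarith)]
              linarith
            have h9 : ∑ p ∈ (pr 0 w).filter (fun p => ¬ p ∣ q), (2 : ℝ) ≤ ∑ p ∈ Ioc 0 w, (2 : ℝ) := by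
              refine sum_le_sum_of_subset_of_nonneg ?_ fun _ _ _ => by norm_num
              intro p hp
              rw [mem_filter, mem_pr] at hp
              rw [mem_Ioc]
              exact hp.1.1
            linarith
    rw [sum_const, Nat.card_Ioc, Nat.sub_zero, nsmul_eq_mul] at h1
    linarith
  have hc := core a ha1 f hf H hH1 e δ he0 hδ.le W hWc hW1 hW hHe hδe w L hw1 hL1 hwe hwH hLH q χ t hq
    y x (by omega) hqy hyw hty hMx hHy hy4 hη (by
      intro c u hu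
      have h1 := hld ((pr w y).filter (fun p => ¬ p ∣ q)) (MM w L q) c y (x / MM w L q + 1)
        (zf f χ t) u hy2 hyN (by
          intro p hp
          rw [mem_filter, mem_pr] at hp
          exact ⟨hp.1.2, by omega, hp.1.1.2, not_dvd_MM w L q p hp.1.2 hp.1.1.1 hp.2⟩)
        (by
          intro p hp
          rw [mem_filter, mem_pr] at hp
          exact zf_norm_le hf χ t p hp.1.2.one_lt.le) hu hDP
      convert h1 using 2)
  calc ‖∑ n ∈ Icc 1 x, f n * a n‖ ≤ 16 * e * x := hc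
    _ ≤ ε * x := by gcongr

end Pool.Agent.H87S
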