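import Pool.Agent.H87S.Defs

/-!
Lower bound for the denominator of the large sieve (Markov's inequality).

PROOF PLAN.  `g p = om p / p`, `h p = om p/(p - om p) = g/(1-g)`.  The squarefree `d <= Q` contain the
products `∏_{p ∈ T} p <= Q`, `T ⊆ P` (distinct `T` give distinct `d`, `d.primeFactors = T`).  With
`V = ∏_{p ∈ P} (1 - g p)`: `V ∑_{T ⊆ P} ∏_T h = 1`, and
`V ∑_{T ⊆ P} (∏_T h) ∑_{p ∈ T} log p = ∑_{p ∈ P} g p log p` (for each `p`:
`V h(p) ∏_{l ≠ p} (1 + h l) = g p`).  If `∏_T p > Q` then `∑_{p ∈ T} log p >= log Q`, so the sets `T` with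
`∏_T p > Q` contribute at most `(∑ g p log p)/log Q` to `V ∑_T ∏_T h = 1`.
-/

namespace Pool.Agent.H87S

open Finset

private theorem GLow_S (P : Finset ℕ) (g h : ℕ → ℝ) (hgh : ∀ p ∈ P, (1 - g p) * (1 + h p) = 1) :
    (∏ p ∈ P, (1 - g p)) * ∑ T ∈ P.powerset, ∏ p ∈ T, h p = 1 := by
  rw [← Finset.prod_one_add, ← prod_mul_distrib]
  exact prod_eq_one hgh

private theorem GLow_F (g h L : ℕ → ℝ) : ∀ P : Finset ℕ,
    (∀ p ∈ P, (1 - g p) * (1 + h p) = 1) →
    (∏ p ∈ P, (1 - g p)) * ∑ T ∈ P.powerset, (∏ p ∈ T, h p) * ∑ p ∈ T, L p =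
      ∑ p ∈ P, g p * L p := by
  intro P
  induction P using Finset.induction_on with
  | empty => intro _; simp
  | insert a P ha ih =>
    intro hgh
    have hgh' : ∀ p ∈ P, (1 - g p) * (1 + h p) = 1 := fun p hp => hgh p (mem_insert_of_mem hp)
    have ih' := ih hgh'
    have hS := GLow_S P g h hgh'
    have hga := hgh a (mem_insert_self a P)
    rw [sum_powerset_insert ha, prod_insert ha, sum_insert ha]
    have e1 : ∑ T ∈ P.powerset, (∏ p ∈ insert a T, h p) * ∑ p ∈ insert a T, L p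
        = h a * L a * ∑ T ∈ P.powerset, ∏ p ∈ T, h p
          + h a * ∑ T ∈ P.powerset, (∏ p ∈ T, h p) * ∑ p ∈ T, L p := by
      rw [mul_sum, mul_sum, ← sum_add_distrib]
      refine sum_congr rfl (fun T hT => ?_)
      have haT : a ∉ T := fun h => ha (mem_powerset.mp hT h)
      rw [prod_insert haT, sum_insert haT]
      ring
    rw [e1]
    set V := ∏ p ∈ P, (1 - g p)
    set S := ∑ T ∈ P.powerset, ∏ p ∈ T, h p
    set F := ∑ T ∈ P.powerset, (∏ p ∈ T, h p) * ∑ p ∈ T, L p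
    have e2 : (1 - g a) * h a = g a := by linarith
    calc (1 - g a) * V * (F + (h a * L a * S + h a * F))
        = ((1 - g a) * (1 + h a)) * (V * F) + ((1 - g a) * h a) * L a * (V * S) := by ring
      _ = g a * L a + ∑ x ∈ P, g x * L x := by rw [hga, e2, hS, ih']; ring

theorem g_low (P : Finset ℕ) (hP : ∀ p ∈ P, p.Prime) (om : ℕ → ℕ) (hom : ∀ p ∈ P, om p < p)
    (Q : ℕ) (hQ : 2 ≤ Q) :
    1 - (∑ p ∈ P, (om p : ℝ) / p * Real.log p) / Real.log Q ≤
      (∏ p ∈ P, (1 - (om p : ℝ) / p)) *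
        ∑ d ∈ (Icc 1 Q).filter Squarefree, ∏ l ∈ d.primeFactors,
          (if l ∈ P then (om l : ℝ) / (l - om l) else 0) := by
  set g : ℕ → ℝ := fun p => (om p : ℝ) / p with hg
  set h : ℕ → ℝ := fun l => if l ∈ P then (om l : ℝ) / (l - om l) else 0 with hh
  have hpos : ∀ p ∈ P, (0 : ℝ) < p := fun p hp => by exact_mod_cast (hP p hp).pos
  have hlt : ∀ p ∈ P, (0 : ℝ) < (p : ℝ) - om p := fun p hp => by
    have : (om p : ℝ) < p := by exact_mod_cast hom p hp
    linarith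
  have hgh : ∀ p ∈ P, (1 - g p) * (1 + h p) = 1 := by
    intro p hp
    have h1 := hpos p hp
    have h2 := hlt p hp
    simp only [hg, hh, if_pos hp]
    field_simp
    ring
  have hh0 : ∀ l, 0 ≤ h l := by
    intro l
    simp only [hh]
    split_ifs with hl
    · exact div_nonneg (Nat.cast_nonneg _) (hlt l hl).le
    · exact le_refl _
  have hV : 0 ≤ ∏ p ∈ P, (1 - g p) := by
    refine prod_nonneg (fun p hp => ?_)
    have h1 := hpos p hp
    have h2 := hlt p hp
    simp only [hg]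
    rw [sub_nonneg, div_le_one h1]
    linarith
  have hlogQ : 0 < Real.log Q := Real.log_pos (by exact_mod_cast (by omega : 1 < Q))
  have hS := GLow_S P g h hgh
  have hF := GLow_F g h (fun p => Real.log p) P hgh
  set V := ∏ p ∈ P, (1 - g p) with hVdef
  -- the products over subsets
  have hTp : ∀ T ∈ P.powerset, ∀ p ∈ T, p.Prime := fun T hT p hp => hP p (mem_powerset.mp hT hp)
  have hlarge : ∀ T ∈ P.powerset, ¬ (∏ p ∈ T, p ≤ Q) → Real.log Q ≤ ∑ p ∈ T, Real.log p := by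
    intro T hT hTQ
    have h1 : (Q : ℝ) ≤ ∏ p ∈ T, (p : ℝ) := by
      have h2 : Q ≤ ∏ p ∈ T, p := by omega
      rw [← Nat.cast_prod]
      exact Nat.cast_le.mpr h2
    rw [← Real.log_prod (fun p hp => by
      have := (hTp T hT p hp).pos
      exact_mod_cast this.ne')]
    exact Real.log_le_log (by exact_mod_cast (by omega : 0 < Q)) h1
  have hsplit := sum_filter_add_sum_filter_not P.powerset (fun T => ∏ p ∈ T, p ≤ Q)
    (fun T => ∏ p ∈ T, h p)
  have hbig : V * ∑ T ∈ P.powerset with ¬ (∏ p ∈ T, p ≤ Q), ∏ p ∈ T, h p ≤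
      (∑ p ∈ P, g p * Real.log p) / Real.log Q := by
    rw [le_div_iff₀ hlogQ, ← hF, mul_assoc]
    apply mul_le_mul_of_nonneg_left _ hV
    rw [sum_mul]
    calc ∑ T ∈ P.powerset with ¬ (∏ p ∈ T, p ≤ Q), (∏ p ∈ T, h p) * Real.log Q
        ≤ ∑ T ∈ P.powerset with ¬ (∏ p ∈ T, p ≤ Q), (∏ p ∈ T, h p) * ∑ p ∈ T, Real.log p := by
          refine sum_le_sum (fun T hT => ?_)
          have hT' := mem_filter.mp hT
          exact mul_le_mul_of_nonneg_left (hlarge T hT'.1 hT'.2) (prod_nonneg (fun p _ => hh0 p))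
      _ ≤ ∑ T ∈ P.powerset, (∏ p ∈ T, h p) * ∑ p ∈ T, Real.log p := by
          apply sum_le_sum_of_subset_of_nonneg (filter_subset _ _)
          intro T hT _
          refine mul_nonneg (prod_nonneg (fun p _ => hh0 p)) (sum_nonneg (fun p hp => ?_))
          exact Real.log_natCast_nonneg p
  have hsmall : ∑ T ∈ P.powerset with (∏ p ∈ T, p ≤ Q), ∏ p ∈ T, h p ≤
      ∑ d ∈ (Icc 1 Q).filter Squarefree, ∏ l ∈ d.primeFactors, h l := by
    have hinj : Set.InjOn (fun T : Finset ℕ => ∏ p ∈ T, p)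
        (P.powerset.filter (fun T => ∏ p ∈ T, p ≤ Q) : Finset (Finset ℕ)) := by
      intro T hT T' hT' he
      have h1 := mem_filter.mp (mem_coe.mp hT)
      have h2 := mem_filter.mp (mem_coe.mp hT')
      have e1 := Nat.primeFactors_prod (hTp T h1.1)
      have e2 := Nat.primeFactors_prod (hTp T' h2.1)
      have he' : ∏ p ∈ T, p = ∏ p ∈ T', p := he
      rw [← e1, ← e2, he']
    have e3 : ∑ T ∈ P.powerset with (∏ p ∈ T, p ≤ Q), ∏ p ∈ T, h p =
        ∑ d ∈ (P.powerset.filter (fun T => ∏ p ∈ T, p ≤ Q)).image (fun T => ∏ p ∈ T, p),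
          ∏ l ∈ d.primeFactors, h l := by
      rw [sum_image hinj]
      refine sum_congr rfl (fun T hT => ?_)
      have h1 := mem_filter.mp hT
      rw [Nat.primeFactors_prod (hTp T h1.1)]
    rw [e3]
    apply sum_le_sum_of_subset_of_nonneg
    · intro d hd
      obtain ⟨T, hT, rfl⟩ := mem_image.mp hd
      have h1 := mem_filter.mp hT
      refine mem_filter.mpr ⟨mem_Icc.mpr ⟨?_, h1.2⟩, ?_⟩
      · exact Nat.one_le_iff_ne_zero.mpr
          (prod_ne_zero_iff.mpr (fun p hp => (hTp T h1.1 p hp).ne_zero))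
      · refine Finset.squarefree_prod_of_pairwise_isCoprime ?_
          (fun p hp => (hTp T h1.1 p hp).prime.squarefree)
        intro p hp q hq hpq
        exact (Nat.coprime_iff_isRelPrime).mp
          ((Nat.coprime_primes (hTp T h1.1 p (mem_coe.mp hp)) (hTp T h1.1 q (mem_coe.mp hq))).mpr hpq)
    · intro d _ _
      exact prod_nonneg (fun p _ => hh0 p)
  have hfin := mul_le_mul_of_nonneg_left hsmall hV
  have hS' : V * ∑ T ∈ P.powerset with (∏ p ∈ T, p ≤ Q), ∏ p ∈ T, h p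
      + V * ∑ T ∈ P.powerset with ¬ (∏ p ∈ T, p ≤ Q), ∏ p ∈ T, h p = 1 := by
    rw [← mul_add, hsplit, hS]
  linarith

end Pool.Agent.H87S
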