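import Pool.Agent.H87S.Defs

/-!
Large deviations from small correlations (Chernoff and the convexity bound for the exponential).

PROOF PLAN.  If `|S| > ε H`, `S = ∑_h u h V h j`, then `Re (θ S) > ε' H`, `ε' = ε/√2`, for one of
`θ = 1, i, -1, -i`.  Fix `θ`, `X_h(j) = Re (θ u_h V_h(j)) ∈ [-1,1]` for `h < H` and `lam = ε' <= 1`.
Convexity: `exp (lam X) <= cosh lam + X sinh lam`.  So
`∑_j exp (lam ∑_h X_h) <= ∑_{T ⊆ [H]} (cosh lam)^(H-|T|) (sinh lam)^|T| ∑_j ∏_{h ∈ T} X_h`.  `T = ∅` gives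
`N (cosh lam)^H <= N exp (lam^2 H/2)` (`Real.cosh_le_exp_half_sq`).  For `T ≠ ∅`:
`X_h = (w_h V_h + conj (w_h V_h))/2`, expand the product into `2^|T|` terms, each bounded by the hypothesis
by `δ N/2^|T|` (`|w_h| <= 1`): total at most `δ N`; so the rest is at most
`δ N (cosh lam + sinh lam)^H = δ N exp (lam H)`.  Markov: `#{j : ∑_h X_h > ε' H} <=
exp (-lam ε' H) N (exp (lam^2 H/2) + δ exp (lam H)) <= N (exp (-ε^2 H/4) + δ exp H)`.
-/

namespace Pool.Agent.H87S

open Finset

/-- Convexity of the exponential. -/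
private theorem LD_exp {x l : ℝ} (hx : |x| ≤ 1) :
    Real.exp (l * x) ≤ Real.cosh l + x * Real.sinh l := by
  obtain ⟨h1, h2⟩ := abs_le.1 hx
  have h := convexOn_exp.2 (Set.mem_univ l) (Set.mem_univ (-l))
    (by linarith : 0 ≤ (1 + x) / 2) (by linarith : 0 ≤ (1 - x) / 2) (by ring)
  simp only [smul_eq_mul] at h
  have e1 : (1 + x) / 2 * l + (1 - x) / 2 * -l = l * x := by ring
  rw [e1] at h
  refine h.trans (le_of_eq ?_)
  rw [Real.cosh_eq, Real.sinh_eq]
  ring

/-- The exponential moment. -/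
private theorem LD_mom (H N : ℕ) (X : ℕ → ℕ → ℝ) (hX : ∀ h < H, ∀ j < N, |X h j| ≤ 1)
    (δ : ℝ) (hδ : 0 ≤ δ)
    (hc : ∀ T : Finset ℕ, T ⊆ range H → T.Nonempty →
      |∑ j ∈ range N, ∏ h ∈ T, X h j| ≤ δ * N) (l : ℝ) (hl : 0 ≤ l) :
    ∑ j ∈ range N, Real.exp (l * ∑ h ∈ range H, X h j) ≤
      N * Real.exp (l ^ 2 / 2 * H) + δ * N * Real.exp (l * H) := by
  have hs0 : 0 ≤ Real.sinh l := Real.sinh_nonneg_iff.2 hl
  have hc0 : 0 < Real.cosh l := Real.cosh_pos l
  have h1 : ∀ j ∈ range N, Real.exp (l * ∑ h ∈ range H, X h j) ≤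
      ∑ T ∈ (range H).powerset, (Real.sinh l ^ T.card * Real.cosh l ^ (range H \ T).card) *
        ∏ h ∈ T, X h j := by
    intro j hj
    rw [mem_range] at hj
    have e1 : Real.exp (l * ∑ h ∈ range H, X h j) = ∏ h ∈ range H, Real.exp (l * X h j) := by
      rw [mul_sum, Real.exp_sum]
    have h2 : ∏ h ∈ range H, Real.exp (l * X h j) ≤
        ∏ h ∈ range H, (X h j * Real.sinh l + Real.cosh l) := by
      refine prod_le_prod (fun h _ => (Real.exp_pos _).le) (fun h hh => ?_)
      have := LD_exp (l := l) (hX h (mem_range.1 hh) j hj)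
      linarith
    rw [e1]
    refine h2.trans (le_of_eq ?_)
    rw [prod_add]
    refine sum_congr rfl fun T _ => ?_
    rw [prod_mul_distrib, prod_const, prod_const]
    ring
  have h2 : ∑ j ∈ range N, Real.exp (l * ∑ h ∈ range H, X h j) ≤
      ∑ T ∈ (range H).powerset, (Real.sinh l ^ T.card * Real.cosh l ^ (range H \ T).card) *
        ∑ j ∈ range N, ∏ h ∈ T, X h j := by
    refine (sum_le_sum h1).trans (le_of_eq ?_)
    rw [sum_comm]
    refine sum_congr rfl fun T _ => ?_
    rw [mul_sum]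
  refine h2.trans ?_
  have h3 : ∀ T ∈ (range H).powerset,
      (Real.sinh l ^ T.card * Real.cosh l ^ (range H \ T).card) *
        ∑ j ∈ range N, ∏ h ∈ T, X h j ≤
      (Real.sinh l ^ T.card * Real.cosh l ^ (range H \ T).card) * (δ * N) +
        (if T = ∅ then Real.cosh l ^ H * N else 0) := by
    intro T hT
    rw [mem_powerset] at hT
    rcases T.eq_empty_or_nonempty with rfl | hne
    · rw [if_pos rfl]
      simp only [card_empty, pow_zero, one_mul, sdiff_empty, card_range, prod_empty, sum_const,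
        nsmul_eq_mul, mul_one]
      have : 0 ≤ Real.cosh l ^ H * (δ * N) := by positivity
      linarith
    · rw [if_neg hne.ne_empty, add_zero]
      refine mul_le_mul_of_nonneg_left ((le_abs_self _).trans (hc T hT hne)) (by positivity)
  refine (sum_le_sum h3).trans ?_
  rw [sum_add_distrib, ← sum_mul, sum_ite_eq' (range H).powerset ∅ (fun _ => Real.cosh l ^ H * N),
    if_pos (empty_mem_powerset _)]
  have h4 : ∑ T ∈ (range H).powerset, (Real.sinh l ^ T.card * Real.cosh l ^ (range H \ T).card) =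
      Real.exp (l * H) := by
    have h5 := prod_add (fun _ : ℕ => Real.sinh l) (fun _ => Real.cosh l) (range H)
    simp only [prod_const, card_range] at h5
    rw [← h5, Real.sinh_add_cosh, ← Real.exp_nat_mul, mul_comm]
  rw [h4]
  have h6 : Real.cosh l ^ H ≤ Real.exp (l ^ 2 / 2 * H) := by
    have h7 := pow_le_pow_left₀ hc0.le (Real.cosh_le_exp_half_sq l) H
    rw [← Real.exp_nat_mul] at h7
    rw [mul_comm (l ^ 2 / 2)]
    exact h7
  have h8 := mul_le_mul_of_nonneg_right h6 (Nat.cast_nonneg (α := ℝ) N)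
  linarith

open Classical in
/-- One half plane. -/
private theorem LD_one (H N : ℕ) (X : ℕ → ℕ → ℝ) (hX : ∀ h < H, ∀ j < N, |X h j| ≤ 1)
    (δ : ℝ) (hδ : 0 ≤ δ)
    (hc : ∀ T : Finset ℕ, T ⊆ range H → T.Nonempty →
      |∑ j ∈ range N, ∏ h ∈ T, X h j| ≤ δ * N) (e : ℝ) (he : 0 < e) (he1 : e ≤ 1) :
    (((range N).filter (fun j => e * H < ∑ h ∈ range H, X h j)).card : ℝ) ≤
      N * (Real.exp (-(e ^ 2 * H / 2)) + δ * Real.exp H) := by
  have hH : (0 : ℝ) ≤ H := Nat.cast_nonneg H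
  have hm := LD_mom H N X hX δ hδ hc e he.le
  have h1 : (((range N).filter (fun j => e * H < ∑ h ∈ range H, X h j)).card : ℝ) *
      Real.exp (e * (e * H)) ≤ ∑ j ∈ range N, Real.exp (e * ∑ h ∈ range H, X h j) := by
    calc (((range N).filter (fun j => e * H < ∑ h ∈ range H, X h j)).card : ℝ) *
        Real.exp (e * (e * H)) =
          ∑ _j ∈ (range N).filter (fun j => e * H < ∑ h ∈ range H, X h j),
            Real.exp (e * (e * H)) := by rw [sum_const, nsmul_eq_mul]
      _ ≤ ∑ j ∈ (range N).filter (fun j => e * H < ∑ h ∈ range H, X h j),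
            Real.exp (e * ∑ h ∈ range H, X h j) := by
          refine sum_le_sum fun j hj => ?_
          rw [mem_filter] at hj
          exact Real.exp_le_exp.2 (mul_le_mul_of_nonneg_left hj.2.le he.le)
      _ ≤ _ := sum_le_sum_of_subset_of_nonneg (filter_subset _ _)
          fun j _ _ => (Real.exp_pos _).le
  have h2 := h1.trans hm
  have hE : 0 < Real.exp (e * (e * H)) := Real.exp_pos _
  have h3 : (N * (Real.exp (-(e ^ 2 * H / 2)) + δ * Real.exp H)) * Real.exp (e * (e * H)) =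
      N * Real.exp (e ^ 2 / 2 * H) + δ * N * Real.exp (H + e * (e * H)) := by
    have e1 : Real.exp (-(e ^ 2 * H / 2)) * Real.exp (e * (e * H)) =
        Real.exp (e ^ 2 / 2 * H) := by
      rw [← Real.exp_add]
      congr 1
      ring
    rw [Real.exp_add, ← e1]
    ring
  have h4 : Real.exp (e * H) ≤ Real.exp (H + e * (e * H)) := by
    refine Real.exp_le_exp.2 ?_
    have h5 : e * (H : ℝ) ≤ 1 * H := mul_le_mul_of_nonneg_right he1 hH
    have h6 : 0 ≤ e * (e * (H : ℝ)) := by positivity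
    linarith
  have h5 := mul_le_mul_of_nonneg_left h4 (by positivity : 0 ≤ δ * (N : ℝ))
  exact le_of_mul_le_mul_right (h2.trans (by rw [h3]; linarith)) hE

/-- The correlations of the real parts. -/
private theorem LD_corr (H N : ℕ) (V : ℕ → ℕ → ℂ) (δ : ℝ) (hδ : 0 ≤ δ)
    (hcorr : ∀ T : Finset ℕ, T ⊆ range H → T.Nonempty → ∀ s : ℕ → Bool,
      ‖∑ j ∈ range N, ∏ h ∈ T, (if s h then V h j else (starRingEnd ℂ) (V h j))‖ ≤ δ * N)
    (w : ℕ → ℂ) (hw : ∀ h < H, ‖w h‖ ≤ 1) (T : Finset ℕ) (hT : T ⊆ range H)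
    (hne : T.Nonempty) : |∑ j ∈ range N, ∏ h ∈ T, (w h * V h j).re| ≤ δ * N := by
  classical
  have e1 : ((∑ j ∈ range N, ∏ h ∈ T, (w h * V h j).re : ℝ) : ℂ) =
      ∑ U ∈ T.powerset, ((∏ h ∈ U, w h / 2) * ∏ h ∈ T \ U, (starRingEnd ℂ) (w h) / 2) *
        ∑ j ∈ range N, ∏ h ∈ T, (if decide (h ∈ U) = true then V h j else
          (starRingEnd ℂ) (V h j)) := by
    push_cast
    have e2 : ∀ j ∈ range N, ∏ h ∈ T, (((w h * V h j).re : ℝ) : ℂ) =
        ∑ U ∈ T.powerset, ((∏ h ∈ U, w h / 2) * ∏ h ∈ T \ U, (starRingEnd ℂ) (w h) / 2) *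
          ∏ h ∈ T, (if decide (h ∈ U) = true then V h j else (starRingEnd ℂ) (V h j)) := by
      intro j _
      have e3 : ∀ h ∈ T, (((w h * V h j).re : ℝ) : ℂ) =
          w h / 2 * V h j + (starRingEnd ℂ) (w h) / 2 * (starRingEnd ℂ) (V h j) := by
        intro h _
        rw [Complex.re_eq_add_conj, map_mul]
        ring
      rw [prod_congr rfl e3, prod_add]
      refine sum_congr rfl fun U hU => ?_
      rw [mem_powerset] at hU
      have e4 : ∏ h ∈ T, (if decide (h ∈ U) = true then V h j else (starRingEnd ℂ) (V h j)) =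
          (∏ h ∈ U, V h j) * ∏ h ∈ T \ U, (starRingEnd ℂ) (V h j) := by
        rw [← prod_sdiff hU, mul_comm]
        congr 1
        · refine prod_congr rfl fun h hh => ?_
          rw [if_pos (decide_eq_true hh)]
        · refine prod_congr rfl fun h hh => ?_
          rw [if_neg]
          simpa using (mem_sdiff.1 hh).2
      rw [e4, prod_mul_distrib, prod_mul_distrib]
      ring
    rw [sum_congr rfl e2, sum_comm]
    refine sum_congr rfl fun U _ => ?_
    rw [mul_sum]
  have h1 : |∑ j ∈ range N, ∏ h ∈ T, (w h * V h j).re| =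
      ‖((∑ j ∈ range N, ∏ h ∈ T, (w h * V h j).re : ℝ) : ℂ)‖ := by
    rw [Complex.norm_real, Real.norm_eq_abs]
  rw [h1, e1]
  refine (norm_sum_le _ _).trans ?_
  have h2 : ∀ U ∈ T.powerset,
      ‖((∏ h ∈ U, w h / 2) * ∏ h ∈ T \ U, (starRingEnd ℂ) (w h) / 2) *
        ∑ j ∈ range N, ∏ h ∈ T, (if decide (h ∈ U) = true then V h j else
          (starRingEnd ℂ) (V h j))‖ ≤ (1 / 2) ^ T.card * (δ * N) := by
    intro U hU
    rw [mem_powerset] at hU
    rw [norm_mul]
    refine mul_le_mul ?_ (hcorr T hT hne fun h => decide (h ∈ U)) (norm_nonneg _) (by positivity)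
    rw [norm_mul, norm_prod, norm_prod]
    have h3 : ∏ h ∈ U, ‖w h / 2‖ ≤ (1 / 2) ^ U.card := by
      rw [← prod_const]
      refine prod_le_prod (fun h _ => norm_nonneg _) fun h hh => ?_
      rw [norm_div, Complex.norm_ofNat]
      have := hw h (mem_range.1 (hT (hU hh)))
      linarith
    have h4 : ∏ h ∈ T \ U, ‖(starRingEnd ℂ) (w h) / 2‖ ≤ (1 / 2) ^ (T \ U).card := by
      rw [← prod_const]
      refine prod_le_prod (fun h _ => norm_nonneg _) fun h hh => ?_
      rw [norm_div, Complex.norm_ofNat, RCLike.norm_conj]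
      have := hw h (mem_range.1 (hT (mem_sdiff.1 hh).1))
      linarith
    have h5 : U.card + (T \ U).card = T.card := by
      rw [add_comm]
      exact card_sdiff_add_card_eq_card hU
    rw [← h5, pow_add]
    exact mul_le_mul h3 h4 (prod_nonneg fun h _ => norm_nonneg _) (by positivity)
  refine (sum_le_sum h2).trans (le_of_eq ?_)
  rw [sum_const, card_powerset, nsmul_eq_mul]
  push_cast
  rw [← mul_assoc, ← mul_pow]
  norm_num

open Classical in
theorem large_dev (H N : ℕ) (V : ℕ → ℕ → ℂ) (hV : ∀ h < H, ∀ j < N, ‖V h j‖ ≤ 1)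
    (δ : ℝ) (hδ : 0 ≤ δ)
    (hcorr : ∀ T : Finset ℕ, T ⊆ range H → T.Nonempty → ∀ s : ℕ → Bool,
      ‖∑ j ∈ range N, ∏ h ∈ T, (if s h then V h j else (starRingEnd ℂ) (V h j))‖ ≤ δ * N)
    (u : ℕ → ℂ) (hu : ∀ h < H, ‖u h‖ ≤ 1) (ε : ℝ) (hε0 : 0 < ε) (hε1 : ε ≤ 1) :
    (((range N).filter (fun j => ε * H < ‖∑ h ∈ range H, u h * V h j‖)).card : ℝ) ≤
      4 * N * (Real.exp (-(ε ^ 2 * H / 4)) + δ * Real.exp H) := by
  have hs2 : (0 : ℝ) < Real.sqrt 2 := Real.sqrt_pos.2 (by norm_num)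
  have hs2' : Real.sqrt 2 ^ 2 = 2 := Real.sq_sqrt (by norm_num)
  have hs1 : (1 : ℝ) ≤ Real.sqrt 2 := by
    rw [Real.one_le_sqrt]
    norm_num
  set e : ℝ := ε / Real.sqrt 2 with he
  have he0 : 0 < e := by positivity
  have he1 : e ≤ 1 := by
    rw [he, div_le_one hs2]
    linarith
  have he2 : e ^ 2 = ε ^ 2 / 2 := by
    rw [he, div_pow, hs2']
  -- one direction
  have hone : ∀ θ : ℂ, ‖θ‖ = 1 →
      (((range N).filter (fun j => e * H < ∑ h ∈ range H, (θ * u h * V h j).re)).card : ℝ) ≤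
        N * (Real.exp (-(ε ^ 2 * H / 4)) + δ * Real.exp H) := by
    intro θ hθ
    have hw : ∀ h < H, ‖θ * u h‖ ≤ 1 := by
      intro h hh
      rw [norm_mul, hθ, one_mul]
      exact hu h hh
    have h1 := LD_one H N (fun h j => (θ * u h * V h j).re) (by
      intro h hh j hj
      refine (Complex.abs_re_le_norm _).trans ?_
      rw [norm_mul]
      exact mul_le_one₀ (hw h hh) (norm_nonneg _) (hV h hh j hj)) δ hδ
      (fun T hT hne => LD_corr H N V δ hδ hcorr (fun h => θ * u h) hw T hT hne) e he0 he1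
    have e3 : -(e ^ 2 * H / 2) = -(ε ^ 2 * (H : ℝ) / 4) := by
      rw [he2]
      ring
    rw [e3] at h1
    exact h1
  have hre : ∀ (θ : ℂ) (j : ℕ), ∑ h ∈ range H, (θ * u h * V h j).re =
      (θ * ∑ h ∈ range H, u h * V h j).re := by
    intro θ j
    rw [mul_sum, Complex.re_sum]
    refine sum_congr rfl fun h _ => ?_
    rw [mul_assoc]
  have hsub : (range N).filter (fun j => ε * H < ‖∑ h ∈ range H, u h * V h j‖) ⊆
      (((range N).filter (fun j => e * H < ∑ h ∈ range H, ((1 : ℂ) * u h * V h j).re)) ∪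
      ((range N).filter (fun j => e * H < ∑ h ∈ range H, ((-1 : ℂ) * u h * V h j).re))) ∪
      (((range N).filter (fun j => e * H < ∑ h ∈ range H, (Complex.I * u h * V h j).re)) ∪
      ((range N).filter (fun j => e * H < ∑ h ∈ range H, (-Complex.I * u h * V h j).re))) := by
    intro j hj
    rw [mem_filter] at hj
    simp only [mem_union, mem_filter, hj.1, true_and, hre]
    set z := ∑ h ∈ range H, u h * V h j with hz
    by_contra hcon
    push Not at hcon
    obtain ⟨⟨h1, h2⟩, h3, h4⟩ := hcon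
    have r1 : ((1 : ℂ) * z).re = z.re := by rw [one_mul]
    have r2 : ((-1 : ℂ) * z).re = -z.re := by rw [neg_one_mul, Complex.neg_re]
    have r3 : (Complex.I * z).re = -z.im := by rw [Complex.I_mul_re]
    have r4 : (-Complex.I * z).re = z.im := by rw [neg_mul, Complex.neg_re, Complex.I_mul_re, neg_neg]
    rw [r1] at h1
    rw [r2] at h2
    rw [r3] at h3
    rw [r4] at h4
    have hH : (0 : ℝ) ≤ H := Nat.cast_nonneg H
    have h5 : z.re ^ 2 ≤ (e * H) ^ 2 := sq_le_sq' (by linarith) h1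
    have h6 : z.im ^ 2 ≤ (e * H) ^ 2 := sq_le_sq' (by linarith) h4
    have h7 : ‖z‖ ^ 2 ≤ (ε * H) ^ 2 := by
      rw [Complex.sq_norm, Complex.normSq_apply]
      have : (e * H) ^ 2 = (ε * H) ^ 2 / 2 := by
        rw [mul_pow, he2]
        ring
      nlinarith
    have h8 : ‖z‖ ≤ ε * H := le_of_sq_le_sq h7 (by positivity)
    exact absurd hj.2 (not_lt.2 h8)
  have hcard := (card_le_card hsub).trans ((card_union_le _ _).trans
    (Nat.add_le_add (card_union_le _ _) (card_union_le _ _)))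
  have hcard' : (((range N).filter (fun j => ε * H < ‖∑ h ∈ range H, u h * V h j‖)).card : ℝ) ≤
      (((range N).filter (fun j => e * H < ∑ h ∈ range H, ((1 : ℂ) * u h * V h j).re)).card +
      ((range N).filter (fun j => e * H < ∑ h ∈ range H, ((-1 : ℂ) * u h * V h j).re)).card) +
      (((range N).filter (fun j => e * H < ∑ h ∈ range H, (Complex.I * u h * V h j).re)).card +
      ((range N).filter (fun j => e * H < ∑ h ∈ range H, (-Complex.I * u h * V h j).re)).card) := by
    exact_mod_cast hcard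
  have a1 := hone 1 (by simp)
  have a2 := hone (-1) (by simp)
  have a3 := hone Complex.I (by simp)
  have a4 := hone (-Complex.I) (by simp)
  linarith

end Pool.Agent.H87S
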