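import Pool.Agent.H87S.Corr
import Pool.Agent.H87S.Euler
import Pool.Agent.H87S.LD

/-!
Large deviations for `GP` in short intervals and residue classes.

PROOF PLAN.  `V h j = GP P z (c + h + M j)`, `conj (GP P z n) = GP P (conj ∘ z) n`.  For `∅ ≠ T ⊆ range H`,
`k = |T| <= H`, enumerate `T` (`Finset.orderEmbOfFin` or `T.equivFin`): the data `c i = c + h_i` are
admissible since `p > H` for `p ∈ P` (`|h - h'| < H < p`).  `corr` and `euler_bound` (`Re (conj z) = Re z`):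
the correlation is at most `N (C H log y/log N + exp (2 H^2) exp (-D)) <= N (C H/B + exp (2 H^2 - D))`
(`y^B <= N`).  Choose `B`, `D` such that this is at most `δ exp (-H) N` and apply `large_dev`.
-/

namespace Pool.Agent.H87S

open Finset

private theorem LDClass_conj (P : Finset ℕ) (z : ℕ → ℂ) (n : ℕ) :
    (starRingEnd ℂ) (GP P z n) = GP P (fun p => (starRingEnd ℂ) (z p)) n := by
  unfold GP
  rw [map_prod]

/-- The bound for the correlations along a nonempty set of shifts. -/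
private theorem LDClass_corr : ∃ C : ℝ, 0 < C ∧ ∀ (H : ℕ) (T : Finset ℕ), T ⊆ range H → T.Nonempty →
    ∀ (s : ℕ → Bool) (P : Finset ℕ) (M c y N B : ℕ) (z : ℕ → ℂ) (D : ℝ), 2 ≤ y → 2 ≤ B →
    y ^ B ≤ N → (∀ p ∈ P, p.Prime ∧ H < p ∧ p ≤ y ∧ ¬ p ∣ M) → (∀ p ∈ P, ‖z p‖ ≤ 1) →
    D ≤ ∑ p ∈ P, (1 - (z p).re) / p →
    ‖∑ j ∈ range N, ∏ h ∈ T, (if s h then GP P z (c + h + M * j)
        else (starRingEnd ℂ) (GP P z (c + h + M * j)))‖ ≤
      (C * H / B + Real.exp (2 * (H : ℝ) ^ 2 - D)) * N := by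
  obtain ⟨C, hC, hcorr⟩ := corr
  refine ⟨C, hC, ?_⟩
  intro H T hT hTne s P M c y N B z D hy hB hyB hP hz hD
  set k := T.card with hk
  have hk1 : 1 ≤ k := hTne.card_pos
  have hkH : k ≤ H := by
    have := card_le_card hT
    rwa [card_range] at this
  set e : Fin k ≃ ↥T := T.equivFin.symm with he
  have heH : ∀ i : Fin k, ((e i : ↥T) : ℕ) < H := fun i => mem_range.mp (hT (e i).2)
  set zz : Fin k → ℕ → ℂ := fun i p => if s (e i : ℕ) then z p else (starRingEnd ℂ) (z p) with hzz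
  have hzz1 : ∀ i, ∀ p ∈ P, ‖zz i p‖ ≤ 1 := by
    intro i p hp
    simp only [hzz]
    split_ifs
    · exact hz p hp
    · rw [RCLike.norm_conj]
      exact hz p hp
  have hadm : Adm P k M (fun i : Fin k => c + (e i : ℕ)) := by
    refine ⟨fun p hp => (hP p hp).1, fun p hp => lt_of_le_of_lt hkH (hP p hp).2.1,
      fun p hp => (hP p hp).2.2.2, ?_⟩
    intro p hp i i' hii hmod
    apply hii
    have h1 : (e i : ℕ) ≡ (e i' : ℕ) [MOD p] := Nat.ModEq.add_left_cancel' c hmod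
    have h2 : (e i : ℕ) = (e i' : ℕ) :=
      Nat.ModEq.eq_of_lt_of_lt h1 (lt_trans (heH i) (hP p hp).2.1)
        (lt_trans (heH i') (hP p hp).2.1)
    exact e.injective (Subtype.ext h2)
  have hyN : y ^ 2 ≤ N := le_trans (Nat.pow_le_pow_right (by omega) hB) hyB
  have h1 := hcorr k P M (fun i : Fin k => c + (e i : ℕ)) hk1 hadm y N hy
    (fun p hp => (hP p hp).2.2.1) hyN zz hzz1
  have hprod : ∀ j, ∏ h ∈ T, (if s h then GP P z (c + h + M * j)
        else (starRingEnd ℂ) (GP P z (c + h + M * j))) =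
      ∏ i : Fin k, GP P (zz i) (c + (e i : ℕ) + M * j) := by
    intro j
    rw [← Finset.prod_coe_sort T, ← Equiv.prod_comp e]
    apply Finset.prod_congr rfl
    intro i _
    by_cases hs : s (e i : ℕ)
    · have : zz i = z := by
        funext p
        simp only [hzz, hs, if_true]
      rw [if_pos hs, this]
    · have : zz i = fun p => (starRingEnd ℂ) (z p) := by
        funext p
        simp only [hzz, hs]
        simp
      rw [if_neg hs, LDClass_conj, this]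
  have hN : 4 ≤ N := le_trans (by nlinarith) hyN
  have hyR : (2 : ℝ) ≤ y := by exact_mod_cast hy
  have hNR : (4 : ℝ) ≤ N := by exact_mod_cast hN
  have hlogy : 0 < Real.log y := Real.log_pos (by linarith)
  have hlogN : 0 < Real.log N := Real.log_pos (by linarith)
  have hBR : (0 : ℝ) < B := by
    have : (2 : ℝ) ≤ B := by exact_mod_cast hB
    linarith
  have hlog : Real.log y / Real.log N ≤ 1 / B := by
    rw [div_le_div_iff₀ hlogN hBR, one_mul, mul_comm]
    have h2 : ((y : ℝ)) ^ B ≤ N := by exact_mod_cast hyB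
    have h3 := Real.log_le_log (by positivity) h2
    rwa [Real.log_pow] at h3
  have hi0 : 0 < k := hk1
  have h2 := euler_bound k P (fun p hp => (hP p hp).1) zz hzz1 ⟨0, hi0⟩
  have hre : ∀ p, (zz ⟨0, hi0⟩ p).re = (z p).re := by
    intro p
    simp only [hzz]
    split_ifs
    · rfl
    · exact Complex.conj_re _
  have h3 : ‖∏ p ∈ P, (1 - ∑ i : Fin k, (1 - zz i p) / p)‖ ≤
      Real.exp (2 * (H : ℝ) ^ 2 - D) := by
    refine h2.trans ?_
    rw [← Real.exp_add, Real.exp_le_exp]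
    have h4 : ∑ p ∈ P, (1 - (zz ⟨0, hi0⟩ p).re) / (p : ℝ) = ∑ p ∈ P, (1 - (z p).re) / (p : ℝ) :=
      Finset.sum_congr rfl fun p _ => by rw [hre]
    rw [h4]
    have h5 : (k : ℝ) ^ 2 ≤ (H : ℝ) ^ 2 := by
      have : (k : ℝ) ≤ H := by exact_mod_cast hkH
      exact pow_le_pow_left₀ (by positivity) this 2
    linarith
  rw [Finset.sum_congr rfl fun j _ => hprod j]
  have hN0 : (0 : ℝ) ≤ N := by positivity
  calc ‖∑ j ∈ range N, ∏ i : Fin k, GP P (zz i) (c + (e i : ℕ) + M * j)‖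
      ≤ ‖∑ j ∈ range N, ∏ i : Fin k, GP P (zz i) (c + (e i : ℕ) + M * j) -
          N * ∏ p ∈ P, (1 - ∑ i : Fin k, (1 - zz i p) / p)‖ +
        ‖(N : ℂ) * ∏ p ∈ P, (1 - ∑ i : Fin k, (1 - zz i p) / p)‖ := by
        have := norm_add_le (∑ j ∈ range N, ∏ i : Fin k, GP P (zz i) (c + (e i : ℕ) + M * j) -
          N * ∏ p ∈ P, (1 - ∑ i : Fin k, (1 - zz i p) / p))
          ((N : ℂ) * ∏ p ∈ P, (1 - ∑ i : Fin k, (1 - zz i p) / p))
        rwa [sub_add_cancel] at this
    _ ≤ C * k * N * (Real.log y / Real.log N) + N * Real.exp (2 * (H : ℝ) ^ 2 - D) := by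
        apply add_le_add h1
        rw [norm_mul, Complex.norm_natCast]
        exact mul_le_mul_of_nonneg_left h3 hN0
    _ ≤ C * H * N * (1 / B) + N * Real.exp (2 * (H : ℝ) ^ 2 - D) := by
        have hkR : (k : ℝ) ≤ H := by exact_mod_cast hkH
        have h6 : C * k * N ≤ C * H * N :=
          mul_le_mul_of_nonneg_right (mul_le_mul_of_nonneg_left hkR hC.le) hN0
        have h7 : C * k * N * (Real.log y / Real.log N) ≤ C * H * N * (1 / B) :=
          mul_le_mul h6 hlog (div_nonneg hlogy.le hlogN.le) (by positivity)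
        linarith
    _ = (C * H / B + Real.exp (2 * (H : ℝ) ^ 2 - D)) * N := by ring

open Classical in
theorem ld_class (H : ℕ) (hH : 1 ≤ H) (ε δ : ℝ) (hε0 : 0 < ε) (hε1 : ε ≤ 1) (hδ : 0 < δ) :
    ∃ (B : ℕ) (D : ℝ), 2 ≤ B ∧ ∀ (P : Finset ℕ) (M c y N : ℕ) (z u : ℕ → ℂ), 2 ≤ y → y ^ B ≤ N →
      (∀ p ∈ P, p.Prime ∧ H < p ∧ p ≤ y ∧ ¬ p ∣ M) → (∀ p ∈ P, ‖z p‖ ≤ 1) →
      (∀ h < H, ‖u h‖ ≤ 1) → D ≤ ∑ p ∈ P, (1 - (z p).re) / p →
      (((range N).filter (fun j =>
          ε * H < ‖∑ h ∈ range H, u h * GP P z (c + h + M * j)‖)).card : ℝ) ≤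
        4 * N * (Real.exp (-(ε ^ 2 * H / 4)) + δ) := by
  obtain ⟨C, hC, hcorr⟩ := LDClass_corr
  have hHR : (1 : ℝ) ≤ H := by exact_mod_cast hH
  set δ' : ℝ := δ * Real.exp (-(H : ℝ)) with hδ'
  have hδ'0 : 0 < δ' := mul_pos hδ (Real.exp_pos _)
  obtain ⟨B0, hB0⟩ := exists_nat_ge (2 * C * H / δ')
  refine ⟨max 2 B0, 2 * (H : ℝ) ^ 2 - Real.log (δ' / 2), le_max_left _ _, ?_⟩
  intro P M c y N z u hy hyB hP hz hu hD
  have hmain := large_dev H N (fun h j => GP P z (c + h + M * j))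
    (fun h _ j _ => GP_norm_le P z hz _) δ' hδ'0.le ?_ u hu ε hε0 hε1
  · have h1 : δ' * Real.exp H = δ := by
      rw [hδ', mul_assoc, ← Real.exp_add, neg_add_cancel, Real.exp_zero, mul_one]
    rw [h1] at hmain
    exact hmain
  · intro T hT hTne s
    have h1 := hcorr H T hT hTne s P M c y N (max 2 B0) z _ hy (le_max_left _ _) hyB hP hz hD
    refine h1.trans ?_
    apply mul_le_mul_of_nonneg_right _ (by positivity : (0 : ℝ) ≤ N)
    have hBpos : (0 : ℝ) < ((max 2 B0 : ℕ) : ℝ) := by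
      have : (0 : ℕ) < max 2 B0 := lt_of_lt_of_le (by norm_num) (le_max_left _ _)
      exact_mod_cast this
    have hBge : 2 * C * H / δ' ≤ ((max 2 B0 : ℕ) : ℝ) := by
      refine hB0.trans ?_
      exact_mod_cast le_max_right 2 B0
    have h2 : C * H / ((max 2 B0 : ℕ) : ℝ) ≤ δ' / 2 := by
      rw [div_le_iff₀ hBpos]
      rw [div_le_iff₀ hδ'0] at hBge
      linarith
    have h3 : Real.exp (2 * (H : ℝ) ^ 2 - (2 * (H : ℝ) ^ 2 - Real.log (δ' / 2))) = δ' / 2 := by
      rw [show 2 * (H : ℝ) ^ 2 - (2 * (H : ℝ) ^ 2 - Real.log (δ' / 2)) = Real.log (δ' / 2) by ring]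
      exact Real.exp_log (by linarith)
    rw [h3]
    linarith

end Pool.Agent.H87S
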