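import Pool.Agent.H87S.Defs

/-!
Slowly growing distance along a subsequence gives long windows.

PROOF PLAN.  Let `B >= 1`.  `u0 >= B` so large that `q + u + |t| <= u^2` for `u >= u0` and that the sum over the primes
`p <= u`, `p ∤ q` is at least `B` for `u >= u0` (non-pretentiousness; the primes dividing `q` contribute a
bounded amount).  If all windows `(u, u^(2B)]`, `u >= u0`, had sum `> 1/B`, then along `u_{i+1} = u_i^(2B)`
the distance squared up to `u_i` would be at least `i/B`, while `log log u_i = i log (2B) + log log u_0`: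
for `x` between `u_i` and `u_{i+1}` this contradicts `distSq f χ t x <= ε log log x` for a suitable fixed
`ε` and arbitrarily large `x`.  Take `v = u^(2B)`, `(q + u + |t|)^B <= u^(2B)`.
-/

namespace Pool.Agent.H87S

open Finset Filter Topology

private theorem Liminf_nonneg {f : ℕ → ℂ} (hf : MultD f) {q : ℕ} (χ : DirichletCharacter ℂ q)
    (t : ℝ) {p : ℕ} (hp : 1 ≤ p) : 0 ≤ (1 - (zf f χ t p).re) / p :=
  div_nonneg (zf_re_le hf χ t p hp) (Nat.cast_nonneg _)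

private theorem Liminf_le_two {f : ℕ → ℂ} (hf : MultD f) {q : ℕ} (χ : DirichletCharacter ℂ q)
    (t : ℝ) {p : ℕ} (hp : 1 ≤ p) : (1 - (zf f χ t p).re) / p ≤ 2 := by
  have h1 := zf_norm_le hf χ t p hp
  have h2 := (abs_le.1 (Complex.abs_re_le_norm (zf f χ t p))).1
  have hp' : (1 : ℝ) ≤ p := by exact_mod_cast hp
  rw [div_le_iff₀ (by linarith)]
  nlinarith

private theorem Liminf_split {f : ℕ → ℂ} {q : ℕ} (χ : DirichletCharacter ℂ q)
    (t : ℝ) {u v : ℕ} (h : u ≤ v) :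
    distSq f χ t v = distSq f χ t u + ∑ p ∈ pr u v, (1 - (zf f χ t p).re) / p := by
  unfold distSq
  rw [← sum_union]
  · refine sum_congr ?_ fun _ _ => rfl
    ext p
    simp only [mem_union, mem_pr]
    constructor
    · rintro ⟨⟨h1, h2⟩, h3⟩
      by_cases h4 : p ≤ u
      · exact Or.inl ⟨⟨h1, h4⟩, h3⟩
      · exact Or.inr ⟨⟨by omega, h2⟩, h3⟩
    · rintro (⟨⟨h1, h2⟩, h3⟩ | ⟨⟨h1, h2⟩, h3⟩)
      · exact ⟨⟨h1, by omega⟩, h3⟩
      · exact ⟨⟨by omega, h2⟩, h3⟩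
  · rw [disjoint_left]
    intro p h1 h2
    have h3 := (mem_pr.1 h1).1
    have h4 := (mem_pr.1 h2).1
    omega

private theorem Liminf_sum_nonneg {f : ℕ → ℂ} (hf : MultD f) {q : ℕ} (χ : DirichletCharacter ℂ q)
    (t : ℝ) (u v : ℕ) : 0 ≤ ∑ p ∈ pr u v, (1 - (zf f χ t p).re) / p :=
  sum_nonneg fun _ hp => Liminf_nonneg hf χ t (mem_pr.1 hp).2.one_lt.le

private theorem Liminf_mono {f : ℕ → ℂ} (hf : MultD f) {q : ℕ} (χ : DirichletCharacter ℂ q)
    (t : ℝ) {u v : ℕ} (h : u ≤ v) : distSq f χ t u ≤ distSq f χ t v := by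
  rw [Liminf_split χ t h]
  linarith [Liminf_sum_nonneg hf χ t u v]

private theorem Liminf_filter {f : ℕ → ℂ} (hf : MultD f) {q : ℕ} (hq : 1 ≤ q)
    (χ : DirichletCharacter ℂ q) (t : ℝ) (u : ℕ) :
    distSq f χ t u - 2 * (q.primeFactors.card : ℝ) ≤
      ∑ p ∈ (pr 0 u).filter (fun p => ¬ p ∣ q), (1 - (zf f χ t p).re) / p := by
  have h1 : distSq f χ t u = ∑ p ∈ (pr 0 u).filter (fun p => p ∣ q), (1 - (zf f χ t p).re) / p +
      ∑ p ∈ (pr 0 u).filter (fun p => ¬ p ∣ q), (1 - (zf f χ t p).re) / p := by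
    unfold distSq
    rw [sum_filter_add_sum_filter_not]
  have h2 : ∑ p ∈ (pr 0 u).filter (fun p => p ∣ q), (1 - (zf f χ t p).re) / p ≤
      ∑ _p ∈ q.primeFactors, (2 : ℝ) := by
    refine (sum_le_sum (g := fun _ => (2 : ℝ)) fun p hp =>
      Liminf_le_two hf χ t (mem_pr.1 (mem_filter.1 hp).1).2.one_lt.le).trans ?_
    refine sum_le_sum_of_subset_of_nonneg ?_ fun _ _ _ => by norm_num
    intro p hp
    obtain ⟨h3, h4⟩ := mem_filter.1 hp
    exact Nat.mem_primeFactors.2 ⟨(mem_pr.1 h3).2, h4, by omega⟩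
  rw [sum_const, nsmul_eq_mul] at h2
  linarith

/-- Among arbitrarily large `u` there is one with a small window. -/
private theorem Liminf_key {f : ℕ → ℂ} (hf : MultD f) {q : ℕ} (χ : DirichletCharacter ℂ q)
    (t : ℝ) (h : ∀ ε : ℝ, 0 < ε → ∃ᶠ x : ℕ in atTop, distSq f χ t x ≤ ε * Real.log (Real.log x))
    (B : ℕ) (hB : 1 ≤ B) (u0 : ℕ) (hu0 : 2 ≤ u0) :
    ∃ u : ℕ, u0 ≤ u ∧ ∑ p ∈ pr u (u ^ (2 * B)), (1 - (zf f χ t p).re) / p ≤ 1 / B := by
  by_contra hcon
  push Not at hcon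
  have hB0 : (0 : ℝ) < B := by exact_mod_cast hB
  set U : ℕ → ℕ := fun i => u0 ^ ((2 * B) ^ i) with hU
  have hUle : ∀ i, u0 ≤ U i := fun i => by
    have h1 : u0 ^ 1 ≤ u0 ^ ((2 * B) ^ i) :=
      Nat.pow_le_pow_right (by omega) (Nat.one_le_pow _ _ (by omega))
    rwa [pow_one] at h1
  have hUs : ∀ i, U (i + 1) = U i ^ (2 * B) := fun i => by
    change u0 ^ ((2 * B) ^ (i + 1)) = (u0 ^ ((2 * B) ^ i)) ^ (2 * B)
    rw [← pow_mul, pow_succ]
  have hdist : ∀ i : ℕ, (i : ℝ) / B ≤ distSq f χ t (U i) := by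
    intro i
    induction i with
    | zero =>
      rw [Nat.cast_zero, zero_div]
      exact Liminf_sum_nonneg hf χ t 0 (U 0)
    | succ i ih =>
      have h1 : U i ≤ U i ^ (2 * B) := Nat.le_self_pow (by omega) _
      have h2 := hcon (U i) (hUle i)
      rw [hUs, Liminf_split χ t h1, Nat.cast_add, Nat.cast_one, add_div]
      linarith
  set ℓ : ℝ := Real.log (2 * B : ℝ) with hℓ
  have hℓ0 : 0 < ℓ := Real.log_pos (by
    have : (1 : ℝ) ≤ B := by exact_mod_cast hB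
    linarith)
  have hlu0 : 0 < Real.log u0 := Real.log_pos (by exact_mod_cast hu0)
  set L0 : ℝ := Real.log (Real.log u0) with hL0
  obtain ⟨i0, hi0⟩ := exists_nat_gt (max L0 1)
  have hε : 0 < 1 / (2 * B * (ℓ + 1)) := by positivity
  obtain ⟨x, hx1, hx2⟩ := ((h _ hε).and_eventually (eventually_ge_atTop (U i0))).exists
  have hex : ∃ i, x < U i := by
    refine ⟨x, ?_⟩
    have h1 : x < (2 * B) ^ x := Nat.lt_pow_self (by omega)
    have h2 : (2 * B) ^ x < u0 ^ ((2 * B) ^ x) := Nat.lt_pow_self (by omega)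
    exact h1.trans h2
  classical
  obtain ⟨j, hj⟩ : ∃ j, j = Nat.find hex := ⟨_, rfl⟩
  have hj1 : x < U j := by rw [hj]; exact Nat.find_spec hex
  have hUmono : Monotone U := monotone_nat_of_le_succ fun i => by
    rw [hUs]
    exact Nat.le_self_pow (by omega) _
  have hij : i0 < j := by
    by_contra hlt
    have := hUmono (not_lt.1 hlt)
    omega
  obtain ⟨i, rfl⟩ : ∃ i, j = i + 1 := ⟨j - 1, by omega⟩
  have hi1 : U i ≤ x := by
    have := Nat.find_min hex (m := i) (by rw [← hj]; omega)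
    omega
  have hii : i0 ≤ i := by omega
  have hxu0 : u0 ≤ x := (hUle i).trans hi1
  have hx2' : (2 : ℝ) ≤ x := by exact_mod_cast hu0.trans hxu0
  have hlx : 0 < Real.log x := Real.log_pos (by linarith)
  have h1 : Real.log x ≤ (2 * B : ℝ) ^ (i + 1) * Real.log u0 := by
    have h2 : Real.log x ≤ Real.log (U (i + 1)) :=
      Real.log_le_log (by linarith) (by exact_mod_cast hj1.le)
    have h3 : Real.log (U (i + 1)) = (2 * B : ℝ) ^ (i + 1) * Real.log u0 := by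
      have h4 : ((U (i + 1) : ℕ) : ℝ) = (u0 : ℝ) ^ ((2 * B) ^ (i + 1)) := by
        rw [hU]
        push_cast
        rfl
      rw [h4, Real.log_pow]
      push_cast
      rfl
    linarith
  have hpw : (0 : ℝ) < (2 * B : ℝ) ^ (i + 1) := by positivity
  have h2 : Real.log (Real.log x) ≤ ((i : ℝ) + 1) * ℓ + L0 := by
    refine (Real.log_le_log hlx h1).trans (le_of_eq ?_)
    rw [Real.log_mul hpw.ne' hlu0.ne', Real.log_pow]
    push_cast
    rfl
  have h3 : (i : ℝ) / B ≤ 1 / (2 * B * (ℓ + 1)) * (((i : ℝ) + 1) * ℓ + L0) :=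
    ((hdist i).trans (Liminf_mono hf χ t hi1)).trans
      (hx1.trans (mul_le_mul_of_nonneg_left h2 hε.le))
  have h4 : (2 : ℝ) * i * (ℓ + 1) ≤ ((i : ℝ) + 1) * ℓ + L0 := by
    rw [one_div, ← div_eq_inv_mul, div_le_div_iff₀ hB0 (by positivity)] at h3
    have h5 : ((2 : ℝ) * i * (ℓ + 1)) * B ≤ (((i : ℝ) + 1) * ℓ + L0) * B := by
      calc _ = (i : ℝ) * (2 * B * (ℓ + 1)) := by ring
        _ ≤ _ := h3
    exact le_of_mul_le_mul_right h5 hB0
  have h5 : (i0 : ℝ) ≤ i := by exact_mod_cast hii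
  have h6 : max L0 1 < (i : ℝ) := lt_of_lt_of_le hi0 h5
  have h7 : L0 < i := (le_max_left _ _).trans_lt h6
  have h8 : (1 : ℝ) < i := (le_max_right _ _).trans_lt h6
  nlinarith [mul_pos (sub_pos.2 h8) hℓ0]

theorem windows_of_liminf (f : ℕ → ℂ) (hf : MultD f) (hnp : NonPretentious f)
    (h : ∃ (q : ℕ) (χ : DirichletCharacter ℂ q) (t : ℝ), 1 ≤ q ∧ ∀ ε : ℝ, 0 < ε →
      ∃ᶠ x : ℕ in atTop, distSq f χ t x ≤ ε * Real.log (Real.log x)) :
    CharWindows f := by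
  obtain ⟨q, χ, t, hq, hε⟩ := h
  intro B hB
  obtain ⟨u1, hu1⟩ := eventually_atTop.1
    ((hnp q χ t hq).eventually_ge_atTop ((B : ℝ) + 2 * (q.primeFactors.card : ℝ)))
  obtain ⟨u2, hu2⟩ := exists_nat_ge ((q : ℝ) + |t| + 1)
  obtain ⟨u, hu, hw⟩ := Liminf_key hf χ t hε B hB (max (max u1 u2) (max B 2))
    ((le_max_right _ _).trans (le_max_right _ _))
  have hu1' : u1 ≤ u := ((le_max_left _ _).trans (le_max_left _ _)).trans hu
  have hu2' : u2 ≤ u := ((le_max_right _ _).trans (le_max_left _ _)).trans hu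
  have huB : B ≤ u := ((le_max_left _ _).trans (le_max_right _ _)).trans hu
  refine ⟨q, χ, t, u, u ^ (2 * B), hq, huB, ?_, hw, ?_⟩
  · have h1 : (u2 : ℝ) ≤ u := by exact_mod_cast hu2'
    have h0 : (0 : ℝ) ≤ (q : ℝ) + u + |t| := by positivity
    have h2 : (q : ℝ) + u + |t| ≤ (u : ℝ) ^ 2 := by nlinarith [sq_nonneg ((u : ℝ) - 1)]
    calc ((q : ℝ) + u + |t|) ^ B ≤ ((u : ℝ) ^ 2) ^ B := pow_le_pow_left₀ h0 h2 B
      _ = ((u ^ (2 * B) : ℕ) : ℝ) := by
        rw [← pow_mul]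
        push_cast
        rfl
  · have h1 := hu1 u hu1'
    have h2 := Liminf_filter hf hq χ t u
    linarith

end Pool.Agent.H87S
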