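import Pool.Agent.H87S.SharpArith
import Pool.Agent.H87S.GLow

/-!
Upper bound for the number of `j < N` with a given assignment.

PROOF PLAN.  Let `A = {p ∈ P : τ p ≠ none}`, `D = Dd τ = ∏_A p`, `P' = P \ A`.  All `j` with `act j = τ` are
congruent modulo `D` (for `p ∈ A`, `τ p = some i`: `p ∣ c i + M j`, `p ∤ M`).  If there is none, trivial
(`nu τ >= 0` as `k < p`).  Otherwise `j = j0 + D m` with `j0` minimal, `m + 1 <= X := (N-1)/D + 1
<= N/D + 1`; let `S` be the set of the `m + 1`.  For `p ∈ P'` the `m + 1` avoid exactly `k` classes modulo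
`p` (`c i + M (j0 + D m) ≡ 0`, distinct for distinct `i` by `sep`, `M D` invertible modulo `p`); take
`Ω p` = these classes, `Ω l = ∅` otherwise.  `sharp_arith` gives `|S| ∑_{d <= Q} ∏ h <= X + C Q^2`; `g_low`
with `P'`, `om = k` gives `|S| (1 - k (∑_P log p/p)/log Q) <= ∏_{P'} (1 - k/p) (N/D + 1 + C Q^2)`, and
`∏_{P'} (1 - k/p) = D nu τ`.
-/

namespace Pool.Agent.H87S

open Finset

private theorem Local_some {P : Finset ℕ} {k : ℕ} {c : Fin k → ℕ} {M j : ℕ} {p : ↥P} {i : Fin k}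
    (h : act P k c M j p = some i) : (p : ℕ) ∣ c i + M * j := by
  unfold act at h
  by_cases h' : ∃ i : Fin k, (p : ℕ) ∣ c i + M * j
  · rw [dif_pos h'] at h
    have h2 := Option.some.inj h
    rw [← h2]
    exact h'.choose_spec
  · rw [dif_neg h'] at h
    cases h

private theorem Local_none {P : Finset ℕ} {k : ℕ} {c : Fin k → ℕ} {M j : ℕ} {p : ↥P}
    (h : act P k c M j p = none) (i : Fin k) : ¬ (p : ℕ) ∣ c i + M * j := by
  unfold act at h
  by_cases h' : ∃ i : Fin k, (p : ℕ) ∣ c i + M * j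
  · rw [dif_pos h'] at h
    cases h
  · exact fun hi => h' ⟨i, hi⟩

/-- the primes which are not assigned -/
private def Local_P {P : Finset ℕ} {k : ℕ} (τ : Asg P k) : Finset ℕ :=
  ((univ : Finset ↥P).filter (fun p => τ p = none)).map (Function.Embedding.subtype _)

private theorem Local_mem {P : Finset ℕ} {k : ℕ} {τ : Asg P k} {p : ℕ} :
    p ∈ Local_P τ ↔ ∃ h : p ∈ P, τ ⟨p, h⟩ = none := by
  unfold Local_P
  rw [mem_map]
  constructor
  · rintro ⟨q, hq, rfl⟩
    exact ⟨q.2, (mem_filter.1 hq).2⟩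
  · rintro ⟨h, hq⟩
    exact ⟨⟨p, h⟩, mem_filter.2 ⟨mem_univ _, hq⟩, rfl⟩

private theorem Local_nu_nonneg {P : Finset ℕ} {k M : ℕ} {c : Fin k → ℕ} (hA : Adm P k M c)
    (τ : Asg P k) : 0 ≤ nu τ := by
  unfold nu
  refine prod_nonneg fun p _ => ?_
  rcases hτ : τ p with _ | i
  · simp only
    have h1 := hA.lt p.1 p.2
    have h2 : (0 : ℝ) < (p : ℕ) := by exact_mod_cast (hA.prime p.1 p.2).pos
    rw [sub_nonneg, div_le_one h2]
    exact_mod_cast h1.le
  · simp only
    positivity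

private theorem Local_Dd_pos {P : Finset ℕ} {k M : ℕ} {c : Fin k → ℕ} (hA : Adm P k M c)
    (τ : Asg P k) : 0 < Dd τ := by
  unfold Dd
  refine prod_pos fun p _ => ?_
  rcases hτ : τ p with _ | i
  · exact one_pos
  · exact (hA.prime p.1 p.2).pos

private theorem Local_prod {P : Finset ℕ} {k M : ℕ} {c : Fin k → ℕ} (hA : Adm P k M c)
    (τ : Asg P k) :
    ∏ p ∈ Local_P τ, (1 - (k : ℝ) / p) = Dd τ * nu τ := by
  unfold Local_P Dd nu
  rw [prod_map, prod_filter]
  push_cast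
  rw [← prod_mul_distrib]
  refine prod_congr rfl fun p _ => ?_
  rcases hτ : τ p with _ | i
  · simp
  · have h2 : ((p : ℕ) : ℝ) ≠ 0 := by exact_mod_cast (hA.prime p.1 p.2).ne_zero
    simp [h2]

private theorem Local_dvd {P : Finset ℕ} {k M : ℕ} {c : Fin k → ℕ} (hA : Adm P k M c)
    {τ : Asg P k} {j j' : ℕ} (hjj : j ≤ j') (hj : act P k c M j = τ) (hj' : act P k c M j' = τ) :
    Dd τ ∣ j' - j := by
  unfold Dd
  refine Finset.prod_dvd_of_isRelPrime ?_ ?_
  · intro p _ q _ hpq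
    have hpq' : (p : ℕ) ≠ q := fun h => hpq (Subtype.ext h)
    have hc := (Nat.coprime_primes (hA.prime p.1 p.2) (hA.prime q.1 q.2)).2 hpq'
    have : Nat.Coprime (match τ p with
      | none => 1
      | some _ => (p : ℕ)) (match τ q with
      | none => 1
      | some _ => (q : ℕ)) := by
      rcases hτ : τ p with _ | i
      · exact Nat.coprime_one_left _
      · rcases hτ' : τ q with _ | i'
        · exact Nat.coprime_one_right _
        · exact hc
    exact Nat.coprime_iff_isRelPrime.1 this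
  · intro p _
    rcases hτ : τ p with _ | i
    · exact one_dvd _
    · have h1 : act P k c M j p = some i := by rw [hj, hτ]
      have h2 : act P k c M j' p = some i := by rw [hj', hτ]
      have h3 := Local_some h1
      have h4 := Local_some h2
      have h5 : (p : ℕ) ∣ M * (j' - j) := by
        have h6 := Nat.dvd_sub h4 h3
        have h7 : c i + M * j' - (c i + M * j) = M * (j' - j) := by
          rw [Nat.mul_sub]
          omega
        rwa [h7] at h6
      exact ((hA.prime p.1 p.2).dvd_mul.1 h5).resolve_left (hA.cop p.1 p.2)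

private theorem Local_not_dvd {P : Finset ℕ} {k M : ℕ} {c : Fin k → ℕ} (hA : Adm P k M c)
    {τ : Asg P k} {l : ℕ} (hl : l ∈ Local_P τ) : ¬ l ∣ Dd τ := by
  obtain ⟨hP, hn⟩ := Local_mem.1 hl
  have hlp := hA.prime l hP
  unfold Dd
  rw [hlp.prime.dvd_finsetProd_iff]
  rintro ⟨p, _, hp⟩
  rcases hτ : τ p with _ | i
  · rw [hτ] at hp
    exact hlp.one_lt.ne' (Nat.dvd_one.1 hp)
  · rw [hτ] at hp
    have h1 := (Nat.prime_dvd_prime_iff_eq hlp (hA.prime p.1 p.2)).1 hp
    have h2 : p = ⟨l, hP⟩ := Subtype.ext h1.symm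
    rw [h2, hn] at hτ
    cases hτ

/-- the forbidden classes -/
private def Local_Om {P : Finset ℕ} {k : ℕ} (c : Fin k → ℕ) (M j0 : ℕ) (τ : Asg P k) (l : ℕ) :
    Finset ℕ :=
  if l ∈ Local_P τ then (univ : Finset (Fin k)).image (fun i =>
    ((1 - ((c i : ZMod l) + M * j0) * ((M : ZMod l) * (Dd τ : ℕ))⁻¹ : ZMod l)).val) else ∅

private theorem Local_ne {P : Finset ℕ} {k M : ℕ} {c : Fin k → ℕ} (hA : Adm P k M c)
    {τ : Asg P k} {l : ℕ} (hl : l ∈ Local_P τ) [Fact l.Prime] :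
    ((M : ZMod l) * (Dd τ : ℕ)) ≠ 0 := by
  obtain ⟨hP, hn⟩ := Local_mem.1 hl
  refine mul_ne_zero ?_ ?_
  · rw [Ne, ZMod.natCast_eq_zero_iff]
    exact hA.cop l hP
  · rw [Ne, ZMod.natCast_eq_zero_iff]
    exact Local_not_dvd hA hl

private theorem Local_card {P : Finset ℕ} {k M : ℕ} {c : Fin k → ℕ} (hA : Adm P k M c)
    {τ : Asg P k} (j0 : ℕ) {l : ℕ} (hl : l ∈ Local_P τ) :
    Local_Om c M j0 τ l ⊆ range l ∧ (Local_Om c M j0 τ l).card = k := by
  obtain ⟨hP, hn⟩ := Local_mem.1 hl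
  have hlp := hA.prime l hP
  have := Fact.mk hlp
  have hne := Local_ne hA hl
  unfold Local_Om
  rw [if_pos hl]
  constructor
  · intro r hr
    obtain ⟨i, _, rfl⟩ := mem_image.1 hr
    exact mem_range.2 (ZMod.val_lt _)
  · rw [card_image_of_injective, card_univ, Fintype.card_fin]
    intro i i' h
    by_contra hii
    refine hA.sep l hP i i' hii ?_
    have h1 := ZMod.val_injective l h
    have h2 : ((c i : ZMod l) + M * j0) * ((M : ZMod l) * (Dd τ : ℕ))⁻¹ =
        ((c i' : ZMod l) + M * j0) * ((M : ZMod l) * (Dd τ : ℕ))⁻¹ := sub_right_injective h1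
    have h3 := mul_right_cancel₀ (inv_ne_zero hne) h2
    have h4 : (c i : ZMod l) = c i' := add_right_cancel h3
    exact (ZMod.natCast_eq_natCast_iff _ _ _).1 h4

theorem local_upper : ∃ C : ℝ, 0 < C ∧ ∀ (k : ℕ) (P : Finset ℕ) (M : ℕ) (c : Fin k → ℕ),
    Adm P k M c → ∀ N Q : ℕ, 1 ≤ N → 2 ≤ Q → ∀ τ : Asg P k,
    (((range N).filter (fun j => act P k c M j = τ)).card : ℝ) *
        (1 - k * (∑ p ∈ P, Real.log p / p) / Real.log Q) ≤
      ((N : ℝ) + (1 + C * (Q : ℝ) ^ 2) * Dd τ) * nu τ := by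
  obtain ⟨C, hC, hls⟩ := sharp_arith
  refine ⟨C, hC, fun k P M c hA N Q hN hQ τ => ?_⟩
  have hnu := Local_nu_nonneg hA τ
  have hD := Local_Dd_pos hA τ
  rcases ((range N).filter (fun j => act P k c M j = τ)).eq_empty_or_nonempty with hemp | hne
  · rw [hemp, card_empty, Nat.cast_zero, zero_mul]
    positivity
  set S0 := (range N).filter (fun j => act P k c M j = τ) with hS0
  obtain ⟨j0, hj0m, hj0⟩ : ∃ j0 ∈ S0, ∀ j ∈ S0, j0 ≤ j :=
    ⟨S0.min' hne, S0.min'_mem hne, fun j hj => S0.min'_le j hj⟩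
  have hS0' : ∀ j ∈ S0, j < N ∧ act P k c M j = τ := fun j hj => by
    rw [hS0, mem_filter, mem_range] at hj
    exact hj
  have hdv : ∀ j ∈ S0, j = j0 + Dd τ * ((j - j0) / Dd τ) := fun j hj => by
    rw [Nat.mul_div_cancel' (Local_dvd hA (hj0 j hj) (hS0' j0 hj0m).2 (hS0' j hj).2)]
    have := hj0 j hj
    omega
  set S := S0.image (fun j => (j - j0) / Dd τ + 1) with hS
  have hcard : S.card = S0.card := by
    rw [hS]
    refine card_image_of_injOn fun a ha b hb hab => ?_
    have h1 : (a - j0) / Dd τ = (b - j0) / Dd τ := Nat.add_right_cancel hab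
    rw [hdv a ha, hdv b hb, h1]
  set X := (N - 1) / Dd τ + 1 with hX
  have hrange : ∀ n ∈ S, 1 ≤ n ∧ n ≤ X := by
    intro n hn
    obtain ⟨j, hj, rfl⟩ := mem_image.1 hn
    refine ⟨Nat.le_add_left 1 _, ?_⟩
    have h1 : j - j0 ≤ N - 1 := by
      have := (hS0' j hj).1
      omega
    exact Nat.add_le_add_right (Nat.div_le_div_right (c := Dd τ) h1) 1
  have hOm : ∀ l : ℕ, l.Prime → Local_Om c M j0 τ l ⊆ range l ∧ (Local_Om c M j0 τ l).card < l := by
    intro l hl
    by_cases hlP : l ∈ Local_P τ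
    · have h1 := Local_card hA j0 hlP
      refine ⟨h1.1, ?_⟩
      rw [h1.2]
      exact hA.lt l (Local_mem.1 hlP).1
    · unfold Local_Om
      rw [if_neg hlP]
      exact ⟨empty_subset _, by rw [card_empty]; exact hl.pos⟩
  have hav : ∀ n ∈ S, ∀ l : ℕ, l.Prime → n % l ∉ Local_Om c M j0 τ l := by
    intro n hn l hl hmem
    by_cases hlP : l ∈ Local_P τ
    · have := Fact.mk hl
      have hne' := Local_ne hA hlP
      obtain ⟨hP, hnone⟩ := Local_mem.1 hlP
      unfold Local_Om at hmem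
      rw [if_pos hlP] at hmem
      obtain ⟨i, _, hi⟩ := mem_image.1 hmem
      obtain ⟨j, hj, hjn⟩ := mem_image.1 hn
      have h1 : ((n : ℕ) : ZMod l) =
          1 - ((c i : ZMod l) + M * j0) * ((M : ZMod l) * (Dd τ : ℕ))⁻¹ := by
        rw [← ZMod.natCast_mod n l, ← hi, ZMod.natCast_zmod_val]
      have h2 : (((c i + M * j : ℕ)) : ZMod l) = 0 := by
        rw [hdv j hj]
        have h3 : ((((j - j0) / Dd τ : ℕ)) : ZMod l) = (n : ZMod l) - 1 := by
          rw [← hjn]
          push_cast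
          ring
        push_cast
        rw [h3, h1]
        have h4 : ((M : ZMod l) * (Dd τ : ℕ)) * ((M : ZMod l) * (Dd τ : ℕ))⁻¹ = 1 :=
          mul_inv_cancel₀ hne'
        linear_combination (-((c i : ZMod l) + M * j0)) * h4
      rw [ZMod.natCast_eq_zero_iff] at h2
      have h5 : act P k c M j ⟨l, hP⟩ = none := by rw [(hS0' j hj).2, hnone]
      exact Local_none h5 i h2
    · unfold Local_Om at hmem
      rw [if_neg hlP] at hmem
      exact absurd hmem (notMem_empty _)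
  have key := hls X Q (Nat.le_add_left 1 _) (by omega) (Local_Om c M j0 τ) hOm S hrange hav
  have hglow := g_low (Local_P τ) (fun p hp => hA.prime p (Local_mem.1 hp).1) (fun _ => k)
    (fun p hp => hA.lt p (Local_mem.1 hp).1) Q hQ
  rw [Local_prod hA τ] at hglow
  -- comparison of the two denominators
  have hcmp : ∑ d ∈ (Icc 1 Q).filter Squarefree, ∏ l ∈ d.primeFactors,
      (if l ∈ Local_P τ then (k : ℝ) / (l - k) else 0) ≤
      ∑ d ∈ (Icc 1 Q).filter Squarefree, ∏ l ∈ d.primeFactors,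
        ((Local_Om c M j0 τ l).card : ℝ) / (l - (Local_Om c M j0 τ l).card) := by
    refine sum_le_sum fun d _ => prod_le_prod ?_ ?_
    · intro l hl
      split_ifs with h
      · have h1 : (k : ℝ) < l := by exact_mod_cast hA.lt l (Local_mem.1 h).1
        exact div_nonneg (Nat.cast_nonneg _) (by linarith)
      · exact le_refl _
    · intro l hl
      split_ifs with h
      · rw [(Local_card hA j0 h).2]
      · unfold Local_Om
        rw [if_neg h]
        simp
  have hlogQ : 0 < Real.log Q := Real.log_pos (by exact_mod_cast (by omega : 1 < Q))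
  have hsum : ∑ p ∈ Local_P τ, (k : ℝ) / p * Real.log p ≤ k * ∑ p ∈ P, Real.log p / p := by
    rw [mul_sum]
    have h1 : Local_P τ ⊆ P := fun p hp => (Local_mem.1 hp).1
    calc ∑ p ∈ Local_P τ, (k : ℝ) / p * Real.log p ≤ ∑ p ∈ P, (k : ℝ) / p * Real.log p := by
          refine sum_le_sum_of_subset_of_nonneg h1 fun p _ _ => ?_
          exact mul_nonneg (by positivity) (Real.log_natCast_nonneg p)
      _ = ∑ p ∈ P, k * (Real.log p / p) := by
          refine sum_congr rfl fun p _ => ?_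
          ring
  have hXle : (X : ℝ) ≤ N / Dd τ + 1 := by
    rw [hX]
    push_cast
    have h1 : (((N - 1) / Dd τ : ℕ) : ℝ) ≤ ((N - 1 : ℕ) : ℝ) / Dd τ := Nat.cast_div_le
    have h2 : ((N - 1 : ℕ) : ℝ) / Dd τ ≤ N / Dd τ :=
      div_le_div_of_nonneg_right (by exact_mod_cast Nat.sub_le N 1) (Nat.cast_nonneg _)
    linarith
  have hDR : (0 : ℝ) < Dd τ := by exact_mod_cast hD
  have hV : 0 ≤ (Dd τ : ℝ) * nu τ := mul_nonneg hDR.le hnu
  have hSn : (0 : ℝ) ≤ S.card := Nat.cast_nonneg _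
  rw [← hcard]
  calc (S.card : ℝ) * (1 - k * (∑ p ∈ P, Real.log p / p) / Real.log Q)
      ≤ S.card * (1 - (∑ p ∈ Local_P τ, (k : ℝ) / p * Real.log p) / Real.log Q) := by
        refine mul_le_mul_of_nonneg_left ?_ hSn
        have := div_le_div_of_nonneg_right hsum hlogQ.le
        linarith
    _ ≤ S.card * ((Dd τ * nu τ) * ∑ d ∈ (Icc 1 Q).filter Squarefree, ∏ l ∈ d.primeFactors,
          (if l ∈ Local_P τ then (k : ℝ) / (l - k) else 0)) :=
        mul_le_mul_of_nonneg_left hglow hSn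
    _ ≤ S.card * ((Dd τ * nu τ) * ∑ d ∈ (Icc 1 Q).filter Squarefree, ∏ l ∈ d.primeFactors,
          ((Local_Om c M j0 τ l).card : ℝ) / (l - (Local_Om c M j0 τ l).card)) :=
        mul_le_mul_of_nonneg_left (mul_le_mul_of_nonneg_left hcmp hV) hSn
    _ = (Dd τ * nu τ) * (S.card * ∑ d ∈ (Icc 1 Q).filter Squarefree, ∏ l ∈ d.primeFactors,
          ((Local_Om c M j0 τ l).card : ℝ) / (l - (Local_Om c M j0 τ l).card)) := by ring
    _ ≤ (Dd τ * nu τ) * (X + C * (Q : ℝ) ^ 2) := mul_le_mul_of_nonneg_left key hV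
    _ ≤ (Dd τ * nu τ) * (N / Dd τ + 1 + C * (Q : ℝ) ^ 2) := by
        refine mul_le_mul_of_nonneg_left ?_ hV
        linarith
    _ = ((N : ℝ) + (1 + C * (Q : ℝ) ^ 2) * Dd τ) * nu τ := by
        field_simp
        ring

end Pool.Agent.H87S
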