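import Pool.Agent.H87S.Defs

/-!
A union of long intervals has upper logarithmic density 1.

PROOF PLAN.  The quotients are at most `(1 + log x)/log x → 1`, so the limsup is at most `1`; at `x = hi j` the sum is at least
`∑_{lo j <= n <= hi j} 1/n >= log (hi j) - log (lo j)` (integral comparison: `∑_{n=a}^b 1/n >= log ((b+1)/a)`),
so the quotient is at least `1 - log (lo j)/log (hi j) → 1`, and `hi j → ∞`.
-/

namespace Pool.Agent.H87S

open Finset Filter Topology

private theorem ld_lower (a : ℕ) (ha : 1 ≤ a) (b : ℕ) (hab : a ≤ b) :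
    Real.log ((b : ℝ) + 1) - Real.log a ≤ ∑ n ∈ Icc a b, (1 : ℝ) / n := by
  induction b, hab using Nat.le_induction with
  | base =>
    have h0 : (0 : ℝ) < a := by exact_mod_cast ha
    rw [Icc_self, sum_singleton, ← Real.log_div (by positivity) (by positivity)]
    have h1 := Real.log_le_sub_one_of_pos (show (0 : ℝ) < ((a : ℝ) + 1) / a by positivity)
    have h2 : ((a : ℝ) + 1) / a - 1 = 1 / a := by field_simp; ring
    linarith
  | succ b hb ih =>
    have h0 : (0 : ℝ) < (b : ℝ) + 1 := by positivity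
    rw [← insert_Icc_right_eq_Icc_add_one (by omega), sum_insert (by simp)]
    have h1 := Real.log_le_sub_one_of_pos (show (0 : ℝ) < ((b : ℝ) + 1 + 1) / ((b : ℝ) + 1) by
      positivity)
    have h2 : ((b : ℝ) + 1 + 1) / ((b : ℝ) + 1) - 1 = 1 / ((b : ℝ) + 1) := by field_simp; ring
    rw [Real.log_div (by positivity) (by positivity)] at h1
    push_cast
    linarith

private theorem ld_upper (x : ℕ) : ∑ n ∈ Icc 1 x, (1 : ℝ) / n ≤ 1 + Real.log x := by
  have h := harmonic_le_one_add_log x
  rw [harmonic_eq_sum_Icc] at h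
  push_cast at h
  simpa [one_div] using h

theorem upperLogDensity_union (lo hi : ℕ → ℕ) (h1 : ∀ j, 1 ≤ lo j) (h2 : ∀ j, lo j ≤ hi j)
    (h3 : Tendsto hi atTop atTop)
    (h4 : Tendsto (fun j => Real.log (lo j) / Real.log (hi j)) atTop (𝓝 0)) :
    upperLogDensity (⋃ j, Set.Icc (lo j) (hi j)) = 1 := by
  obtain ⟨X, hX⟩ : ∃ X : Set ℕ, X = ⋃ j, Set.Icc (lo j) (hi j) := ⟨_, rfl⟩
  rw [← hX]
  unfold upperLogDensity
  set u : ℕ → ℝ := fun x : ℕ =>
    (∑ n ∈ Icc 1 x, Set.indicator X (fun n : ℕ => (1 : ℝ) / n) n) / Real.log x with hu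
  have hlog : Tendsto (fun x : ℕ => Real.log x) atTop atTop :=
    Real.tendsto_log_atTop.comp tendsto_natCast_atTop_atTop
  have hu0 : ∀ x : ℕ, 0 ≤ u x := fun x => by
    refine div_nonneg (sum_nonneg fun n _ => Set.indicator_nonneg (fun _ _ => by positivity) _) ?_
    exact Real.log_natCast_nonneg x
  have hv : Tendsto (fun x : ℕ => (1 + Real.log x) / Real.log x) atTop (𝓝 1) := by
    have h5 : Tendsto (fun x : ℕ => 1 / Real.log x + 1) atTop (𝓝 (0 + 1)) :=
      (tendsto_const_nhds.div_atTop hlog).add tendsto_const_nhds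
    rw [zero_add] at h5
    refine h5.congr' ?_
    filter_upwards [hlog.eventually_gt_atTop 0] with x hx
    field_simp
  have huv : ∀ x : ℕ, u x ≤ (1 + Real.log x) / Real.log x := by
    intro x
    refine div_le_div_of_nonneg_right ?_ (Real.log_natCast_nonneg x)
    refine le_trans (sum_le_sum fun n _ => ?_) (ld_upper x)
    exact Set.indicator_le_self' (fun _ _ => by positivity) n
  have hbdd : IsBoundedUnder (· ≤ ·) atTop u :=
    hv.isBoundedUnder_le.mono_le (Eventually.of_forall huv)
  have hcob : IsCoboundedUnder (· ≤ ·) atTop u :=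
    (isBoundedUnder_of ⟨0, fun x => hu0 x⟩ : IsBoundedUnder (· ≥ ·) atTop u).isCoboundedUnder_le
  refine le_antisymm ?_ ?_
  · calc limsup u atTop ≤ limsup (fun x : ℕ => (1 + Real.log x) / Real.log x) atTop :=
          limsup_le_limsup (Eventually.of_forall huv) hcob hv.isBoundedUnder_le
      _ = 1 := hv.limsup_eq
  · refine le_of_forall_lt fun b hb => ?_
    have hb' : b < (b + 1) / 2 := by linarith
    refine lt_of_lt_of_le hb' ?_
    refine le_limsup_of_frequently_le ?_ hbdd
    have h5 : ∀ᶠ j in atTop, Real.log (lo j) / Real.log (hi j) < (1 - b) / 2 :=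
      h4.eventually_lt_const (by linarith)
    have h6 : ∀ᶠ j in atTop, 0 < Real.log (hi j) := (hlog.comp h3).eventually_gt_atTop 0
    refine (h3.frequently (p := fun x => (b + 1) / 2 ≤ u x) ?_)
    refine (h5.and h6).frequently.mono ?_
    rintro j ⟨h7, h8⟩
    have h9 : Real.log (hi j) - Real.log (lo j) ≤
        ∑ n ∈ Icc 1 (hi j), Set.indicator X (fun n : ℕ => (1 : ℝ) / n) n := by
      have ha := ld_lower (lo j) (h1 j) (hi j) (h2 j)
      have hb1 : Real.log (hi j) ≤ Real.log ((hi j : ℝ) + 1) := by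
        refine Real.log_le_log ?_ (by linarith)
        have := (h1 j).trans (h2 j)
        exact_mod_cast this
      have hc : ∑ n ∈ Icc (lo j) (hi j), (1 : ℝ) / n ≤
          ∑ n ∈ Icc 1 (hi j), Set.indicator X (fun n : ℕ => (1 : ℝ) / n) n := by
        have hd : ∑ n ∈ Icc (lo j) (hi j), (1 : ℝ) / n =
            ∑ n ∈ Icc (lo j) (hi j), Set.indicator X (fun n : ℕ => (1 : ℝ) / n) n := by
          refine sum_congr rfl fun n hn => ?_
          rw [Set.indicator_of_mem]
          rw [hX]
          rw [mem_Icc] at hn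
          exact Set.mem_iUnion.2 ⟨j, hn⟩
        rw [hd]
        refine sum_le_sum_of_subset_of_nonneg (Icc_subset_Icc (h1 j) le_rfl) fun n _ _ =>
          Set.indicator_nonneg (fun _ _ => by positivity) _
      linarith
    rw [hu]
    simp only
    rw [le_div_iff₀ h8]
    rw [div_lt_iff₀ h8] at h7
    linarith

end Pool.Agent.H87S
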