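import Pool.Agent.H87S.Finitary
import Pool.Agent.H87S.LogDens
import Pool.Agent.H87S.PrimeSums

/-!
Orthogonality along a set of upper logarithmic density 1.

PROOF PLAN.  For `j : ℕ` take the data `q, χ, t, u, v` of `CharWindows` for `B = (j+2)^2`; `W = q + u + |t|`
(real, `>= 4`), `lo j = ⌈W^(j+2)⌉₊`, `hi j = v`.  `log (lo j) <= (j+2) log W + 1`,
`log (hi j) >= (j+2)^2 log W`.  Given a deterministic `a` and `ε`, take `B, D, η, y0` from `finitary`.  For
`lo j <= x <= hi j` with `j` large, `y = ⌊x^(1/B)⌋₊`: `W <= x^(1/(j+2)) <= x^(1/B)`, so `q, u, |t| <= y`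
(`u >= 1`, so `|t| <= W - 1 < y`), `y^B <= x < (y+1)^B`, `y >= u >= (j+2)^2 >= y0`.  With `z = zf f χ t p`:
`|1 - z|^2 <= 2 (1 - Re z)` and Cauchy-Schwarz: `∑_{y < p <= x} |1-z|/p <= (2/(j+2)^2)^(1/2) (C (1 + log (log x/log y)))^(1/2)`
(`mertens_diff`, `log x <= B log (y+1) <= 2 B log y`), which is `<= η` for large `j`.  Each interval is
finite, so `x → ∞` in the union forces `j → ∞`.
-/

namespace Pool.Agent.H87S

open Finset Filter Topology

/-- the logarithmic sizes of the windows -/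
private theorem Main_ratio (W : ℕ → ℝ) (hW : ∀ j, 5 ≤ W j) (v : ℕ → ℕ)
    (hv : ∀ j, W j ^ ((j + 2) ^ 2) ≤ v j) :
    Tendsto (fun j : ℕ => Real.log ((⌈W j ^ (j + 2)⌉₊ : ℕ) : ℝ) / Real.log (v j)) atTop (𝓝 0) := by
  have hlim : Tendsto (fun j : ℕ => (2 : ℝ) * (1 / ((j : ℝ) + 1))) atTop (𝓝 0) := by
    have := (tendsto_one_div_add_atTop_nhds_zero_nat (𝕜 := ℝ)).const_mul 2
    simpa using this
  refine squeeze_zero (fun j => ?_) (fun j => ?_) hlim
  · exact div_nonneg (Real.log_natCast_nonneg _) (Real.log_natCast_nonneg _)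
  · have hWj := hW j
    have hL : 0 < Real.log (W j) := Real.log_pos (by linarith)
    have h1 : (1 : ℝ) ≤ W j ^ (j + 2) := one_le_pow₀ (by linarith)
    have h2 : ((⌈W j ^ (j + 2)⌉₊ : ℕ) : ℝ) ≤ W j ^ (j + 3) := by
      have h3 := (Nat.ceil_lt_add_one (zero_le_one.trans h1)).le
      have h4 : W j ^ (j + 3) = W j ^ (j + 2) * W j := by ring
      rw [h4]
      nlinarith
    have h3 : (0 : ℝ) < ((⌈W j ^ (j + 2)⌉₊ : ℕ) : ℝ) := by
      exact_mod_cast Nat.ceil_pos.2 (by linarith)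
    have h4 : Real.log ((⌈W j ^ (j + 2)⌉₊ : ℕ) : ℝ) ≤ ((j : ℝ) + 3) * Real.log (W j) := by
      have := Real.log_le_log h3 h2
      rw [Real.log_pow] at this
      push_cast at this
      exact this
    have h5 : ((j : ℝ) + 2) ^ 2 * Real.log (W j) ≤ Real.log (v j) := by
      have h6 : (0 : ℝ) < W j ^ ((j + 2) ^ 2) := by positivity
      have := Real.log_le_log h6 (hv j)
      rw [Real.log_pow] at this
      push_cast at this
      exact this
    have h6 : 0 < ((j : ℝ) + 2) ^ 2 * Real.log (W j) := by positivity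
    rw [div_le_iff₀ (h6.trans_le h5)]
    have h7 : (2 : ℝ) * (1 / ((j : ℝ) + 1)) * (((j : ℝ) + 2) ^ 2 * Real.log (W j)) ≤
        2 * (1 / ((j : ℝ) + 1)) * Real.log (v j) :=
      mul_le_mul_of_nonneg_left h5 (by positivity)
    refine h4.trans (le_trans ?_ h7)
    have h8 : (2 : ℝ) * (1 / ((j : ℝ) + 1)) * (((j : ℝ) + 2) ^ 2 * Real.log (W j)) =
        (2 * ((j : ℝ) + 2) ^ 2 / ((j : ℝ) + 1)) * Real.log (W j) := by ring
    rw [h8]
    refine mul_le_mul_of_nonneg_right ?_ hL.le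
    rw [le_div_iff₀ (by positivity)]
    have hj : (0 : ℝ) ≤ j := Nat.cast_nonneg j
    nlinarith

/-- The sum over the primes in the window. -/
private theorem Main_window (f : ℕ → ℂ) (hf : MultD f) {q : ℕ} (χ : DirichletCharacter ℂ q)
    (t : ℝ) {C : ℝ} (hC : ∀ y x : ℕ, 2 ≤ y → y ≤ x →
      ∑ p ∈ pr y x, (1 : ℝ) / p ≤ C * (1 + Real.log (Real.log x / Real.log y)))
    (hC0 : 0 < C) {u v y x B : ℕ} (hB : 2 ≤ B) (hy : 2 ≤ y) (huy : u ≤ y) (hxv : x ≤ v)
    (hyx : y ^ B ≤ x) (hxy : x < (y + 1) ^ B) {δ η : ℝ} (hη : 0 < η)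
    (hw : ∑ p ∈ pr u v, (1 - (zf f χ t p).re) / p ≤ δ)
    (hδ : 2 * δ * (C * (1 + Real.log (2 * B))) ≤ η ^ 2) (hδ0 : 0 ≤ δ) :
    ∑ p ∈ pr y x, ‖1 - zf f χ t p‖ / p ≤ η := by
  have hp : ∀ p ∈ pr y x, (0 : ℝ) < p ∧ 1 ≤ p := by
    intro p hp
    have := (mem_pr.1 hp).2.one_le
    exact ⟨by exact_mod_cast this, this⟩
  have hyx' : y ≤ x := (Nat.le_self_pow (by omega) y).trans hyx
  -- Cauchy-Schwarz
  have hCS := Finset.sum_mul_sq_le_sq_mul_sq (pr y x)
    (fun p => ‖1 - zf f χ t p‖ / Real.sqrt p) (fun p => 1 / Real.sqrt p)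
  have e1 : ∑ p ∈ pr y x, ‖1 - zf f χ t p‖ / Real.sqrt p * (1 / Real.sqrt p) =
      ∑ p ∈ pr y x, ‖1 - zf f χ t p‖ / p := by
    refine sum_congr rfl fun p h => ?_
    rw [div_mul_div_comm, mul_one, Real.mul_self_sqrt (hp p h).1.le]
  have e2 : ∑ p ∈ pr y x, (‖1 - zf f χ t p‖ / Real.sqrt p) ^ 2 ≤ 2 * δ := by
    have h1 : ∀ p ∈ pr y x, (‖1 - zf f χ t p‖ / Real.sqrt p) ^ 2 ≤
        2 * ((1 - (zf f χ t p).re) / p) := by
      intro p h
      rw [div_pow, Real.sq_sqrt (hp p h).1.le, mul_div_assoc']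
      refine div_le_div_of_nonneg_right ?_ (hp p h).1.le
      have h2 : ‖1 - zf f χ t p‖ ^ 2 = 1 - 2 * (zf f χ t p).re + ‖zf f χ t p‖ ^ 2 := by
        rw [← Complex.normSq_eq_norm_sq, ← Complex.normSq_eq_norm_sq, Complex.normSq_sub]
        simp
        ring
      have h3 := zf_norm_le hf χ t p (hp p h).2
      have h4 : ‖zf f χ t p‖ ^ 2 ≤ 1 := pow_le_one₀ (norm_nonneg _) h3
      rw [h2]
      linarith
    calc _ ≤ ∑ p ∈ pr y x, 2 * ((1 - (zf f χ t p).re) / p) := sum_le_sum h1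
      _ = 2 * ∑ p ∈ pr y x, (1 - (zf f χ t p).re) / p := by rw [mul_sum]
      _ ≤ 2 * ∑ p ∈ pr u v, (1 - (zf f χ t p).re) / p := by
          refine mul_le_mul_of_nonneg_left ?_ (by norm_num)
          refine sum_le_sum_of_subset_of_nonneg ?_ ?_
          · intro p h
            rw [mem_pr] at h ⊢
            exact ⟨⟨lt_of_le_of_lt huy h.1.1, h.1.2.trans hxv⟩, h.2⟩
          · intro p h _
            exact div_nonneg (zf_re_le hf χ t p (mem_pr.1 h).2.one_le) (Nat.cast_nonneg p)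
      _ ≤ 2 * δ := by linarith
  have hlog : Real.log (Real.log x / Real.log y) ≤ Real.log (2 * B) := by
    have hy0 : (0 : ℝ) < y := by exact_mod_cast (by omega : 0 < y)
    have hy2 : (2 : ℝ) ≤ y := by exact_mod_cast hy
    have hly : 0 < Real.log y := Real.log_pos (by linarith)
    have hx0 : (0 : ℝ) < x := lt_of_lt_of_le hy0 (by exact_mod_cast hyx')
    have hlx : 0 < Real.log x := Real.log_pos (by
      have : (y : ℝ) ≤ x := by exact_mod_cast hyx'
      linarith)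
    refine Real.log_le_log (by positivity) ?_
    rw [div_le_iff₀ hly]
    have h1 : Real.log x ≤ B * Real.log ((y : ℝ) + 1) := by
      have h2 : (x : ℝ) ≤ ((y : ℝ) + 1) ^ B := by exact_mod_cast hxy.le
      have h3 := Real.log_le_log hx0 h2
      rwa [Real.log_pow] at h3
    have h2 : Real.log ((y : ℝ) + 1) ≤ 2 * Real.log y := by
      have h3 : (y : ℝ) + 1 ≤ (y : ℝ) ^ 2 := by nlinarith
      have h4 := Real.log_le_log (by linarith) h3
      rw [Real.log_pow] at h4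
      exact_mod_cast h4
    have h3 : (B : ℝ) * Real.log ((y : ℝ) + 1) ≤ B * (2 * Real.log y) :=
      mul_le_mul_of_nonneg_left h2 (Nat.cast_nonneg B)
    linarith
  have e3 : ∑ p ∈ pr y x, (1 / Real.sqrt p) ^ 2 ≤ C * (1 + Real.log (2 * B)) := by
    have h1 : ∀ p ∈ pr y x, (1 / Real.sqrt p) ^ 2 = (1 : ℝ) / p := by
      intro p h
      rw [div_pow, one_pow, Real.sq_sqrt (hp p h).1.le]
    rw [sum_congr rfl h1]
    refine (hC y x hy hyx').trans ?_
    exact mul_le_mul_of_nonneg_left (by linarith) hC0.le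
  rw [e1] at hCS
  have h0 : 0 ≤ ∑ p ∈ pr y x, (1 / Real.sqrt p) ^ 2 := sum_nonneg fun p _ => sq_nonneg _
  have h1 : (∑ p ∈ pr y x, ‖1 - zf f χ t p‖ / p) ^ 2 ≤ η ^ 2 :=
    hCS.trans ((mul_le_mul e2 e3 h0 (by linarith)).trans hδ)
  exact le_of_sq_le_sq h1 hη.le

theorem main (f : ℕ → ℂ) (hf : MultD f) (hW : CharWindows f) :
    ∃ X : Set ℕ, upperLogDensity X = 1 ∧ ∀ a : ℕ → ℂ, Deterministic a →
      Tendsto (fun x : ℕ => (∑ n ∈ Icc 1 x, f n * a n) / x) (atTop ⊓ 𝓟 X) (𝓝 0) := by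
  have hW' := fun j : ℕ => hW ((j + 2) ^ 2) (Nat.one_le_pow _ _ (by omega))
  choose q χ t u v hq hu hv hwin hbig using hW'
  set W : ℕ → ℝ := fun j => (q j : ℝ) + u j + |t j| with hWdef
  have hq1 : ∀ j, (1 : ℝ) ≤ q j := fun j => by exact_mod_cast hq j
  have hu1 : ∀ j : ℕ, ((j : ℝ) + 2) ^ 2 ≤ u j := fun j => by exact_mod_cast hu j
  have hj0 : ∀ j : ℕ, (0 : ℝ) ≤ j := fun j => Nat.cast_nonneg j
  have hW5 : ∀ j, 5 ≤ W j := by
    intro j
    have h1 := hq1 j
    have h2 := hu1 j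
    have h3 := abs_nonneg (t j)
    have h4 := hj0 j
    show 5 ≤ (q j : ℝ) + u j + |t j|
    nlinarith
  have hWv : ∀ j, W j ^ ((j + 2) ^ 2) ≤ v j := hv
  have hpow1 : ∀ j, (1 : ℝ) ≤ W j ^ (j + 2) := fun j => one_le_pow₀ (by linarith [hW5 j])
  have hlohi : ∀ j, ⌈W j ^ (j + 2)⌉₊ ≤ v j := by
    intro j
    rw [Nat.ceil_le]
    refine le_trans ?_ (hWv j)
    exact pow_le_pow_right₀ (by linarith [hW5 j]) (Nat.le_self_pow (by norm_num) _)
  have hvj : ∀ j, j ≤ v j := by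
    intro j
    have h1 : W j ≤ W j ^ ((j + 2) ^ 2) :=
      le_self_pow₀ (by linarith [hW5 j]) (pow_ne_zero _ (by omega))
    have h2 : (u j : ℝ) ≤ W j := by
      have h1 := hq1 j
      have h3 := abs_nonneg (t j)
      show (u j : ℝ) ≤ (q j : ℝ) + u j + |t j|
      linarith
    have h3 : (j : ℝ) ≤ v j := by
      have h4 := hu1 j
      have h5 := hj0 j
      have h6 := hWv j
      nlinarith
    exact_mod_cast h3
  refine ⟨⋃ j, Set.Icc (⌈W j ^ (j + 2)⌉₊) (v j), ?_, ?_⟩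
  · refine upperLogDensity_union _ _ (fun j => ?_) hlohi ?_ (Main_ratio W hW5 v hWv)
    · exact Nat.ceil_pos.2 (by linarith [hpow1 j])
    · exact tendsto_atTop_mono hvj tendsto_id
  · intro a ha
    rw [Metric.tendsto_nhds]
    intro ε hε
    obtain ⟨B, D, η, y0, hB, hη, hfin⟩ := finitary a ha (ε / 2) (by linarith)
    obtain ⟨C, hC0, hC⟩ := mertens_diff
    obtain ⟨J, hJ⟩ := exists_nat_ge
      (max (max (B : ℝ) y0) (max D (2 * (C * (1 + Real.log (2 * B))) / η ^ 2)))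
    have hJ1 : (B : ℝ) ≤ J := ((le_max_left _ _).trans (le_max_left _ _)).trans hJ
    have hJ2 : (y0 : ℝ) ≤ J := ((le_max_right _ _).trans (le_max_left _ _)).trans hJ
    have hJ3 : D ≤ J := ((le_max_left _ _).trans (le_max_right _ _)).trans hJ
    have hJ4 : 2 * (C * (1 + Real.log (2 * B))) / η ^ 2 ≤ J :=
      ((le_max_right _ _).trans (le_max_right _ _)).trans hJ
    rw [eventually_inf_principal]
    filter_upwards [eventually_gt_atTop (∑ j ∈ range J, v j)] with x hx hxX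
    obtain ⟨j, hj1, hj2⟩ := Set.mem_iUnion.1 hxX
    have hjJ : J ≤ j := by
      by_contra hlt
      push Not at hlt
      have := single_le_sum (f := v) (fun _ _ => Nat.zero_le _) (mem_range.2 hlt)
      omega
    have hjJ' : (J : ℝ) ≤ j := by exact_mod_cast hjJ
    have hsq : (j : ℝ) ≤ ((j : ℝ) + 2) ^ 2 := by nlinarith [hj0 j]
    -- the number `y`
    have hxW : W j ^ (j + 2) ≤ x := Nat.ceil_le.1 hj1
    have hx1 : 1 ≤ x := by
      have : (1 : ℝ) ≤ x := (hpow1 j).trans hxW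
      exact_mod_cast this
    obtain ⟨y, hy1, hy2⟩ : ∃ y : ℕ, y ^ B ≤ x ∧ x < (y + 1) ^ B := by
      classical
      refine ⟨Nat.findGreatest (fun y => y ^ B ≤ x) x, ?_, ?_⟩
      · exact Nat.findGreatest_spec (P := fun y => y ^ B ≤ x) (Nat.zero_le x)
          (by rw [zero_pow (by omega)]; exact Nat.zero_le x)
      · by_contra hcon
        push Not at hcon
        have h1 : Nat.findGreatest (fun y => y ^ B ≤ x) x + 1 ≤ x :=
          (Nat.le_self_pow (by omega) _).trans hcon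
        exact Nat.findGreatest_is_greatest (P := fun y => y ^ B ≤ x) (Nat.lt_succ_self _) h1 hcon
    have hWy : ⌊W j⌋₊ ≤ y := by
      have h1 : (⌊W j⌋₊ : ℝ) ^ B ≤ x := by
        have h2 : (⌊W j⌋₊ : ℝ) ≤ W j := Nat.floor_le (by linarith [hW5 j])
        have h3 : (⌊W j⌋₊ : ℝ) ^ B ≤ W j ^ B := pow_le_pow_left₀ (Nat.cast_nonneg _) h2 B
        have h4 : W j ^ B ≤ W j ^ (j + 2) := by
          refine pow_le_pow_right₀ (by linarith [hW5 j]) ?_
          have : (B : ℝ) ≤ j := hJ1.trans hjJ'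
          have : B ≤ j := by exact_mod_cast this
          omega
        linarith
      have h2 : ⌊W j⌋₊ ^ B ≤ x := by exact_mod_cast h1
      have h3 : ⌊W j⌋₊ ^ B < (y + 1) ^ B := lt_of_le_of_lt h2 hy2
      have h4 := lt_of_pow_lt_pow_left₀ B (Nat.zero_le _) h3
      omega
    have hWy' : (⌊W j⌋₊ : ℝ) ≤ y := by exact_mod_cast hWy
    have hWfl := Nat.lt_floor_add_one (W j)
    have hWeq : W j = (q j : ℝ) + u j + |t j| := rfl
    have habs := abs_nonneg (t j)
    have hqy : q j ≤ y := by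
      refine le_trans (Nat.le_floor ?_) hWy
      have := hu1 j
      nlinarith [hj0 j]
    have huy : u j ≤ y := by
      refine le_trans (Nat.le_floor ?_) hWy
      have := hq1 j
      linarith
    have hty : |t j| ≤ y := by
      have h1 := hq1 j
      have h2 : (0 : ℝ) ≤ u j := Nat.cast_nonneg _
      linarith
    have huyR : (u j : ℝ) ≤ y := by exact_mod_cast huy
    have hy0 : y0 ≤ y := by
      have : (y0 : ℝ) ≤ y := by linarith [hu1 j]
      exact_mod_cast this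
    have hy2' : 2 ≤ y := by
      have h1 : (4 : ℝ) ≤ ((j : ℝ) + 2) ^ 2 := by nlinarith [hj0 j]
      have : (2 : ℝ) ≤ y := by linarith [hu1 j]
      exact_mod_cast this
    have hb : (((j + 2) ^ 2 : ℕ) : ℝ) = ((j : ℝ) + 2) ^ 2 := by push_cast; ring
    have hbp : (0 : ℝ) < ((j : ℝ) + 2) ^ 2 := by nlinarith [hj0 j]
    have hs1 : ∑ p ∈ pr y x, ‖1 - zf f (χ j) (t j) p‖ / p ≤ η := by
      refine Main_window f hf (χ j) (t j) hC hC0 hB hy2' huy hj2 hy1 hy2 hη (hwin j) ?_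
        (by positivity)
      rw [hb]
      have h1 : 2 * (C * (1 + Real.log (2 * B))) ≤ ((j : ℝ) + 2) ^ 2 * η ^ 2 := by
        have h2 : 2 * (C * (1 + Real.log (2 * B))) / η ^ 2 ≤ ((j : ℝ) + 2) ^ 2 := by linarith
        rwa [div_le_iff₀ (by positivity)] at h2
      have h2 : 2 * (1 / ((j : ℝ) + 2) ^ 2) * (C * (1 + Real.log (2 * B))) =
          2 * (C * (1 + Real.log (2 * B))) / ((j : ℝ) + 2) ^ 2 := by ring
      rw [h2, div_le_iff₀ hbp]
      linarith
    have hs2 : D ≤ ∑ p ∈ (pr 0 y).filter (fun p => ¬ p ∣ q j),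
        (1 - (zf f (χ j) (t j) p).re) / p := by
      have h1 := hbig j
      rw [hb] at h1
      have h2 : ∑ p ∈ (pr 0 (u j)).filter (fun p => ¬ p ∣ q j),
          (1 - (zf f (χ j) (t j) p).re) / p ≤
          ∑ p ∈ (pr 0 y).filter (fun p => ¬ p ∣ q j), (1 - (zf f (χ j) (t j) p).re) / p := by
        refine sum_le_sum_of_subset_of_nonneg ?_ ?_
        · intro p h
          rw [mem_filter, mem_pr] at h ⊢
          exact ⟨⟨⟨h.1.1.1, h.1.1.2.trans huy⟩, h.1.2⟩, h.2⟩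
        · intro p h _
          exact div_nonneg (zf_re_le hf (χ j) (t j) p (mem_pr.1 (mem_filter.1 h).1).2.one_le)
            (Nat.cast_nonneg p)
      linarith
    have hfinal := hfin y x hy0 hy1 f hf (q j) (χ j) (t j) (hq j) hqy hty hs1 hs2
    have hx0 : (0 : ℝ) < x := by exact_mod_cast hx1
    rw [dist_zero_right, norm_div, Complex.norm_natCast, div_lt_iff₀ hx0]
    have : ε / 2 * x < ε * x := by nlinarith
    linarith

end Pool.Agent.H87S
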