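import Pool.Agent.H91.PK.LSa
import Pool.Agent.H87S.Defs

/-!
The additive large sieve for Farey fractions with leading constant 1.

PROOF PLAN.  Duality (finite-dimensional: compare the proof of `Pool.Agent.H91.PK.additive_ls`): it
suffices that `∑_{n=1}^K |∑_α c_α ee(n α)|^2 <= (K + C R^2) ∑ |c_α|^2` for all complex `c`, `α` running over
the Farey fractions `b/r` (`r <= R`, `(b,r) = 1`, distinct modulo 1, distances modulo 1 at least `1/R^2`).
Insert the trapezoid `F(n) = (1/L) #{(i,j) : 0 <= i < K+L-1, 0 <= j < L, i + j = n + L - 2} `, `L = R^2`: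
`F >= 0`, `F(n) = 1` for `1 <= n <= K`, and `∑_n F(n) ee(nθ)` has absolute value
`(1/L) |D_{K+L-1}(θ)| |D_L(θ)| <= 1/(4 L ‖θ‖^2)` (geometric sums, `|sin πθ| >= 2‖θ‖`), and is
`K + L - 1` for `θ = 0`.  Expand: the diagonal gives `(K+L-1) ∑|c|^2`; for the rest use
`2|c_α c_β| <= |c_α|^2 + |c_β|^2` and `∑_{β ≠ α} 1/(4 L ‖α-β‖^2) <= 2 ∑_{k >= 1} R^4/(4 L k^2) <= R^2`
(at most two of the points `β` have `k/R^2 <= ‖α-β‖ < (k+1)/R^2` on each side...: at most `2` per `k`,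
up to constants; any absolute constant `C` is fine).
-/

namespace Pool.Agent.H87S

open Finset Pool.Agent.H91.PK

private theorem SharpAdd_ee_pow (i : ℕ) (θ : ℝ) : ee ((i : ℝ) * θ) = ee θ ^ i := by
  induction i with
  | zero => simp [ee]
  | succ n ih =>
    rw [pow_succ, ← ih, ← LSa_ee_add]
    congr 1
    push_cast
    ring

/-- The geometric sum. -/
private noncomputable def SharpAdd_D (N : ℕ) (θ : ℝ) : ℂ := ∑ i ∈ range N, ee ((i : ℝ) * θ)

private theorem SharpAdd_D_le (N : ℕ) (θ : ℝ) : ‖SharpAdd_D N θ‖ ≤ N := by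
  unfold SharpAdd_D
  refine (norm_sum_le _ _).trans ?_
  simp [LSa_norm_ee]

private theorem SharpAdd_norm_ee_sub (θ : ℝ) : ‖ee θ - 1‖ = 2 * |Real.sin (Real.pi * θ)| := by
  have h := Complex.norm_exp_I_mul_ofReal_sub_one (2 * Real.pi * θ)
  have h1 : (2 * Real.pi * θ : ℝ) / 2 = Real.pi * θ := by ring
  rw [h1, Real.norm_eq_abs, abs_mul, abs_two] at h
  rw [← h]
  unfold ee
  congr 2
  push_cast
  ring_nf

private theorem SharpAdd_D_sin (N : ℕ) (θ : ℝ) (hθ : Real.sin (Real.pi * θ) ≠ 0) :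
    ‖SharpAdd_D N θ‖ ≤ 1 / |Real.sin (Real.pi * θ)| := by
  have h1 : SharpAdd_D N θ * (ee θ - 1) = ee θ ^ N - 1 := by
    unfold SharpAdd_D
    rw [← geom_sum_mul]
    congr 1
    exact sum_congr rfl fun i _ => SharpAdd_ee_pow i θ
  have h2 : ‖SharpAdd_D N θ‖ * (2 * |Real.sin (Real.pi * θ)|) ≤ 2 := by
    rw [← SharpAdd_norm_ee_sub, ← norm_mul, h1]
    refine (norm_sub_le _ _).trans ?_
    rw [norm_pow, LSa_norm_ee, one_pow, norm_one]
    norm_num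
  have h3 : 0 < |Real.sin (Real.pi * θ)| := abs_pos.mpr hθ
  rw [le_div_iff₀ h3]
  linarith

/-- The sum of `1 / k ^ 2` over the integers. -/
private noncomputable def SharpAdd_C : ℝ := ∑' k : ℤ, 1 / (k : ℝ) ^ 2

private theorem SharpAdd_C_nonneg : 0 ≤ SharpAdd_C := by
  unfold SharpAdd_C
  exact tsum_nonneg fun k => by positivity

private theorem SharpAdd_sumA {ι : Type*} (T : Finset ι) (x : ι → ℝ) (hx : ∀ i ∈ T, 1 ≤ |x i|)
    (hs : ∀ i ∈ T, ∀ j ∈ T, i ≠ j → 1 ≤ |x i - x j|) :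
    ∑ i ∈ T, 1 / (x i) ^ 2 ≤ 4 * SharpAdd_C := by
  classical
  have hsum : Summable fun k : ℤ => 1 / (k : ℝ) ^ 2 :=
    Real.summable_one_div_int_pow.mpr (by norm_num)
  have hinj : Set.InjOn (fun i => ⌊x i⌋) (T : Set ι) := by
    intro i hi j hj hij
    by_contra hne
    have h1 := hs i hi j hj hne
    have h2 := Int.abs_sub_lt_one_of_floor_eq_floor hij
    linarith
  have hb : ∀ i ∈ T, 1 / (x i) ^ 2 ≤ 4 * (1 / ((⌊x i⌋ : ℤ) : ℝ) ^ 2) := by
    intro i hi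
    have h1 := hx i hi
    have h2 := Int.floor_le (x i)
    have h3 := Int.lt_floor_add_one (x i)
    have key : ((⌊x i⌋ : ℤ) : ℝ) ^ 2 ≤ 4 * (x i) ^ 2 ∧ 0 < ((⌊x i⌋ : ℤ) : ℝ) ^ 2 := by
      rcases le_abs.mp h1 with h4 | h4
      · have h5 : (1 : ℤ) ≤ ⌊x i⌋ := by
          rw [Int.le_floor]
          exact_mod_cast h4
        have h6 : (1 : ℝ) ≤ ((⌊x i⌋ : ℤ) : ℝ) := by exact_mod_cast h5
        constructor
        · nlinarith
        · positivity
      · have h5 : ⌊x i⌋ ≤ (-1 : ℤ) := by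
          have : ⌊x i⌋ ≤ ⌊(-1 : ℝ)⌋ := Int.floor_le_floor (by linarith)
          have h7 : ⌊(-1 : ℝ)⌋ = -1 := by
            have := Int.floor_intCast (R := ℝ) (-1)
            push_cast at this
            exact this
          rwa [h7] at this
        have h6 : ((⌊x i⌋ : ℤ) : ℝ) ≤ -1 := by exact_mod_cast h5
        constructor
        · nlinarith
        · have : ((⌊x i⌋ : ℤ) : ℝ) ≠ 0 := by linarith
          positivity
    have hx0 : 0 < (x i) ^ 2 := by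
      have : x i ≠ 0 := by
        intro h
        rw [h, abs_zero] at h1
        linarith
      positivity
    rw [mul_one_div, div_le_div_iff₀ hx0 key.2]
    linarith [key.1]
  refine (sum_le_sum hb).trans ?_
  rw [← mul_sum]
  refine mul_le_mul_of_nonneg_left ?_ (by norm_num)
  rw [← sum_image (f := fun k : ℤ => 1 / (k : ℝ) ^ 2) (g := fun i => ⌊x i⌋) hinj]
  unfold SharpAdd_C
  exact hsum.sum_le_tsum _ fun k _ => by positivity

private theorem SharpAdd_sumB {ι : Type*} (T : Finset ι) (y : ι → ℝ) {δ : ℝ} (hδ : 0 < δ)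
    (hx : ∀ i ∈ T, δ ≤ |y i|) (hs : ∀ i ∈ T, ∀ j ∈ T, i ≠ j → δ ≤ |y i - y j|) :
    ∑ i ∈ T, 1 / (4 * (y i) ^ 2) ≤ SharpAdd_C / δ ^ 2 := by
  have h := SharpAdd_sumA T (fun i => y i / δ)
    (fun i hi => by
      rw [abs_div, abs_of_pos hδ, le_div_iff₀ hδ, one_mul]
      exact hx i hi)
    (fun i hi j hj hij => by
      rw [← sub_div, abs_div, abs_of_pos hδ, le_div_iff₀ hδ, one_mul]
      exact hs i hi j hj hij)
  have e : ∑ i ∈ T, 1 / (4 * (y i) ^ 2) = (1 / (4 * δ ^ 2)) * ∑ i ∈ T, 1 / (y i / δ) ^ 2 := by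
    rw [mul_sum]
    refine sum_congr rfl fun i hi => ?_
    have hy : y i ≠ 0 := by
      intro h0
      have := hx i hi
      rw [h0, abs_zero] at this
      linarith
    field_simp
  rw [e]
  calc (1 / (4 * δ ^ 2)) * ∑ i ∈ T, 1 / (y i / δ) ^ 2 ≤ (1 / (4 * δ ^ 2)) * (4 * SharpAdd_C) :=
        mul_le_mul_of_nonneg_left h (by positivity)
    _ = SharpAdd_C / δ ^ 2 := by
        field_simp

private theorem SharpAdd_sin_low {θ : ℝ} (h0 : 0 < θ) (h1 : θ < 1) :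
    2 * θ ≤ Real.sin (Real.pi * θ) ∨ 2 * (1 - θ) ≤ Real.sin (Real.pi * θ) := by
  have hp := Real.pi_pos
  rcases le_total θ (1 / 2) with h | h
  · left
    have := Real.mul_le_sin (x := Real.pi * θ) (by positivity) (by nlinarith)
    calc 2 * θ = 2 / Real.pi * (Real.pi * θ) := by
          field_simp
      _ ≤ _ := this
  · right
    have := Real.mul_le_sin (x := Real.pi * (1 - θ)) (mul_nonneg hp.le (by linarith)) (by nlinarith)
    have e : Real.sin (Real.pi * (1 - θ)) = Real.sin (Real.pi * θ) := by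
      rw [← Real.sin_pi_sub]
      congr 1
      ring
    rw [e] at this
    calc 2 * (1 - θ) = 2 / Real.pi * (Real.pi * (1 - θ)) := by
          field_simp
      _ ≤ _ := this

private theorem SharpAdd_sin_sq {θ : ℝ} (h0 : θ ≠ 0) (h1 : |θ| < 1) :
    Real.sin (Real.pi * θ) ≠ 0 ∧
    1 / (Real.sin (Real.pi * θ)) ^ 2 ≤ 1 / (4 * θ ^ 2) + 1 / (4 * (1 - |θ|) ^ 2) := by
  have ha : 0 < |θ| := abs_pos.mpr h0
  have e : (Real.sin (Real.pi * θ)) ^ 2 = (Real.sin (Real.pi * |θ|)) ^ 2 := by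
    rcases abs_choice θ with h | h
    · rw [h]
    · rw [h, mul_neg, Real.sin_neg, neg_sq]
  have hθ2 : θ ^ 2 = |θ| ^ 2 := (sq_abs θ).symm
  have hpos : 0 < 1 - |θ| := by linarith
  have hsin : 0 < Real.sin (Real.pi * |θ|) := by
    rcases SharpAdd_sin_low ha h1 with h | h
    · linarith
    · linarith
  refine ⟨?_, ?_⟩
  · intro h
    rw [h] at e
    have : 0 < (Real.sin (Real.pi * |θ|)) ^ 2 := by positivity
    rw [← e] at this
    simp at this
  · rw [e, hθ2]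
    rcases SharpAdd_sin_low ha h1 with h | h
    · have h2 : 4 * |θ| ^ 2 ≤ (Real.sin (Real.pi * |θ|)) ^ 2 := by nlinarith
      have h3 : 1 / (Real.sin (Real.pi * |θ|)) ^ 2 ≤ 1 / (4 * |θ| ^ 2) :=
        one_div_le_one_div_of_le (by positivity) h2
      have h4 : 0 ≤ 1 / (4 * (1 - |θ|) ^ 2) := by positivity
      linarith
    · have h2 : 4 * (1 - |θ|) ^ 2 ≤ (Real.sin (Real.pi * |θ|)) ^ 2 := by nlinarith
      have h3 : 1 / (Real.sin (Real.pi * |θ|)) ^ 2 ≤ 1 / (4 * (1 - |θ|) ^ 2) :=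
        one_div_le_one_div_of_le (by positivity) h2
      have h4 : 0 ≤ 1 / (4 * |θ| ^ 2) := by positivity
      linarith

private theorem SharpAdd_sep {ι : Type*} [DecidableEq ι] (J : Finset ι) (α : ι → ℝ) {δ : ℝ}
    (hδ : 0 < δ) (hs : ∀ i ∈ J, ∀ j ∈ J, i ≠ j → δ ≤ |α i - α j| ∧ δ ≤ 1 - |α i - α j|)
    {a : ι} (ha : a ∈ J) :
    ∑ b ∈ J.erase a, 1 / (Real.sin (Real.pi * (α a - α b))) ^ 2 ≤ 3 * (SharpAdd_C / δ ^ 2) := by
  have hm : ∀ b ∈ J.erase a, b ∈ J ∧ a ≠ b := fun b hb =>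
    ⟨mem_of_mem_erase hb, (ne_of_mem_erase hb).symm⟩
  have h1 : ∀ b ∈ J.erase a, 1 / (Real.sin (Real.pi * (α a - α b))) ^ 2 ≤
      1 / (4 * (α a - α b) ^ 2) + 1 / (4 * (1 - |α a - α b|) ^ 2) := by
    intro b hb
    obtain ⟨hbJ, hne⟩ := hm b hb
    obtain ⟨h2, h3⟩ := hs a ha b hbJ hne
    refine (SharpAdd_sin_sq ?_ (by linarith)).2
    intro h
    rw [h, abs_zero] at h2
    linarith
  refine (sum_le_sum h1).trans ?_
  rw [sum_add_distrib]
  have s1 : ∑ b ∈ J.erase a, 1 / (4 * (α a - α b) ^ 2) ≤ SharpAdd_C / δ ^ 2 := by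
    refine SharpAdd_sumB (J.erase a) (fun b => α a - α b) hδ (fun b hb => ?_)
      (fun b hb c hc hbc => ?_)
    · obtain ⟨hbJ, hne⟩ := hm b hb
      exact (hs a ha b hbJ hne).1
    · have := (hs c (hm c hc).1 b (hm b hb).1 hbc.symm).1
      rwa [show α a - α b - (α a - α c) = α c - α b by ring]
  have s2 : ∑ b ∈ (J.erase a).filter (fun b => α b ≤ α a), 1 / (4 * (1 - |α a - α b|) ^ 2) ≤
      SharpAdd_C / δ ^ 2 := by
    have e : ∀ b ∈ (J.erase a).filter (fun b => α b ≤ α a),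
        1 / (4 * (1 - |α a - α b|) ^ 2) = 1 / (4 * (α b + 1 - α a) ^ 2) := by
      intro b hb
      rw [mem_filter] at hb
      rw [abs_of_nonneg (by linarith [hb.2]), show 1 - (α a - α b) = α b + 1 - α a by ring]
    rw [sum_congr rfl e]
    refine SharpAdd_sumB _ (fun b => α b + 1 - α a) hδ (fun b hb => ?_)
      (fun b hb c hc hbc => ?_)
    · rw [mem_filter] at hb
      obtain ⟨hbJ, hne⟩ := hm b hb.1
      have h2 := (hs a ha b hbJ hne).2
      rw [abs_of_nonneg (by linarith [hb.2] : (0 : ℝ) ≤ α a - α b)] at h2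
      rw [le_abs]
      left
      linarith
    · rw [mem_filter] at hb hc
      have := (hs b (hm b hb.1).1 c (hm c hc.1).1 hbc).1
      rwa [show α b + 1 - α a - (α c + 1 - α a) = α b - α c by ring]
  have s3 : ∑ b ∈ (J.erase a).filter (fun b => ¬ α b ≤ α a), 1 / (4 * (1 - |α a - α b|) ^ 2) ≤
      SharpAdd_C / δ ^ 2 := by
    have e : ∀ b ∈ (J.erase a).filter (fun b => ¬ α b ≤ α a),
        1 / (4 * (1 - |α a - α b|) ^ 2) = 1 / (4 * (α b - 1 - α a) ^ 2) := by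
      intro b hb
      rw [mem_filter] at hb
      have h2 := not_le.mp hb.2
      rw [abs_of_neg (by linarith), show 1 - -(α a - α b) = -(α b - 1 - α a) by ring, neg_sq]
    rw [sum_congr rfl e]
    refine SharpAdd_sumB _ (fun b => α b - 1 - α a) hδ (fun b hb => ?_)
      (fun b hb c hc hbc => ?_)
    · rw [mem_filter] at hb
      obtain ⟨hbJ, hne⟩ := hm b hb.1
      have h2 := (hs a ha b hbJ hne).2
      have h3 := not_le.mp hb.2
      rw [abs_of_neg (by linarith : α a - α b < 0)] at h2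
      rw [le_abs]
      right
      linarith
    · rw [mem_filter] at hb hc
      have := (hs b (hm b hb.1).1 c (hm c hc.1).1 hbc).1
      rwa [show α b - 1 - α a - (α c - 1 - α a) = α b - α c by ring]
  have s4 := sum_filter_add_sum_filter_not (J.erase a) (fun b => α b ≤ α a)
    (fun b => 1 / (4 * (1 - |α a - α b|) ^ 2))
  linarith

private theorem SharpAdd_expand {ι : Type*} (J : Finset ι) (α : ι → ℝ) (c : ι → ℂ) (M L : ℕ)
    (t : ℝ) :
    ((∑ i ∈ range M, ∑ l ∈ range L,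
        ‖∑ a ∈ J, c a * ee (((i : ℝ) + l + t) * α a)‖ ^ 2 : ℝ) : ℂ) =
      ∑ a ∈ J, ∑ b ∈ J, c a * (starRingEnd ℂ) (c b) * ee (t * (α a - α b)) *
        (SharpAdd_D M (α a - α b) * SharpAdd_D L (α a - α b)) := by
  have h1 : ∀ m : ℝ, ((‖∑ a ∈ J, c a * ee (m * α a)‖ ^ 2 : ℝ) : ℂ) =
      ∑ a ∈ J, ∑ b ∈ J, c a * (starRingEnd ℂ) (c b) * ee (m * (α a - α b)) := by
    intro m
    push_cast
    rw [← Complex.mul_conj', map_sum, Finset.sum_mul_sum]
    refine sum_congr rfl fun a _ => sum_congr rfl fun b _ => ?_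
    rw [map_mul, LSa_conj_ee]
    have : ee (m * (α a - α b)) = ee (m * α a) * ee (-(m * α b)) := by
      rw [← LSa_ee_add]
      congr 1
      ring
    rw [this]
    ring
  rw [Complex.ofReal_sum]
  simp_rw [Complex.ofReal_sum, h1]
  have h2 : ∀ a b : ι, c a * (starRingEnd ℂ) (c b) * ee (t * (α a - α b)) *
        (SharpAdd_D M (α a - α b) * SharpAdd_D L (α a - α b)) =
      ∑ i ∈ range M, ∑ l ∈ range L,
        c a * (starRingEnd ℂ) (c b) * ee (((i : ℝ) + l + t) * (α a - α b)) := by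
    intro a b
    unfold SharpAdd_D
    rw [Finset.sum_mul_sum, mul_sum]
    refine sum_congr rfl fun i _ => ?_
    rw [mul_sum]
    refine sum_congr rfl fun l _ => ?_
    have : ee (((i : ℝ) + l + t) * (α a - α b)) =
        ee (t * (α a - α b)) * (ee ((i : ℝ) * (α a - α b)) * ee ((l : ℝ) * (α a - α b))) := by
      rw [← LSa_ee_add, ← LSa_ee_add]
      congr 1
      ring
    rw [this]
    ring
  simp_rw [h2]
  rw [sum_comm' (s := range M) (t := fun _ => range L) (t' := range L) (s' := fun _ => range M)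
    (by intros; tauto)]
  rw [sum_comm' (s := range L) (t := fun _ => range M) (t' := range M) (s' := fun _ => range L)
    (by intros; tauto)]
  calc ∑ i ∈ range M, ∑ l ∈ range L, ∑ a ∈ J, ∑ b ∈ J,
        c a * (starRingEnd ℂ) (c b) * ee (((i : ℝ) + l + t) * (α a - α b))
      = ∑ i ∈ range M, ∑ a ∈ J, ∑ l ∈ range L, ∑ b ∈ J,
        c a * (starRingEnd ℂ) (c b) * ee (((i : ℝ) + l + t) * (α a - α b)) := by
        refine sum_congr rfl fun i _ => ?_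
        rw [sum_comm]
    _ = ∑ a ∈ J, ∑ i ∈ range M, ∑ l ∈ range L, ∑ b ∈ J,
        c a * (starRingEnd ℂ) (c b) * ee (((i : ℝ) + l + t) * (α a - α b)) := by
        rw [sum_comm]
    _ = ∑ a ∈ J, ∑ i ∈ range M, ∑ b ∈ J, ∑ l ∈ range L,
        c a * (starRingEnd ℂ) (c b) * ee (((i : ℝ) + l + t) * (α a - α b)) := by
        refine sum_congr rfl fun a _ => sum_congr rfl fun i _ => ?_
        rw [sum_comm]
    _ = _ := by
        refine sum_congr rfl fun a _ => ?_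
        rw [sum_comm]

private theorem SharpAdd_dual {ι : Type*} [DecidableEq ι] (J : Finset ι) (α : ι → ℝ) {B : ℝ}
    (hne : ∀ a ∈ J, ∀ b ∈ J, a ≠ b → Real.sin (Real.pi * (α a - α b)) ≠ 0)
    (hB : ∀ a ∈ J, ∑ b ∈ J.erase a, 1 / (Real.sin (Real.pi * (α a - α b))) ^ 2 ≤ B)
    (c : ι → ℂ) (M L : ℕ) (t : ℝ) :
    ∑ i ∈ range M, ∑ l ∈ range L, ‖∑ a ∈ J, c a * ee (((i : ℝ) + l + t) * α a)‖ ^ 2 ≤
      ((M : ℝ) * L + B) * ∑ a ∈ J, ‖c a‖ ^ 2 := by
  set W : ℝ := ∑ i ∈ range M, ∑ l ∈ range L,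
    ‖∑ a ∈ J, c a * ee (((i : ℝ) + l + t) * α a)‖ ^ 2 with hW
  have hW0 : 0 ≤ W := sum_nonneg fun _ _ => sum_nonneg fun _ _ => by positivity
  have h1 : W = ‖(W : ℂ)‖ := by rw [Complex.norm_real, Real.norm_of_nonneg hW0]
  have h2 : W ≤ ∑ a ∈ J, ∑ b ∈ J, ‖c a‖ * ‖c b‖ *
      (‖SharpAdd_D M (α a - α b)‖ * ‖SharpAdd_D L (α a - α b)‖) := by
    rw [h1, hW, SharpAdd_expand]
    refine (norm_sum_le _ _).trans (sum_le_sum fun a _ => ?_)
    refine (norm_sum_le _ _).trans (sum_le_sum fun b _ => ?_)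
    rw [norm_mul, norm_mul, norm_mul, norm_mul, LSa_norm_ee, mul_one, RCLike.norm_conj]
  have h3 : ∀ a ∈ J, ∑ b ∈ J, ‖c a‖ * ‖c b‖ *
      (‖SharpAdd_D M (α a - α b)‖ * ‖SharpAdd_D L (α a - α b)‖) ≤
      ‖c a‖ ^ 2 * ((M : ℝ) * L) + ∑ b ∈ J.erase a,
        (‖c a‖ ^ 2 + ‖c b‖ ^ 2) / 2 * (1 / (Real.sin (Real.pi * (α a - α b))) ^ 2) := by
    intro a ha
    rw [← add_sum_erase J _ ha]
    refine add_le_add ?_ (sum_le_sum fun b hb => ?_)
    · rw [← sq]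
      refine mul_le_mul_of_nonneg_left ?_ (by positivity)
      exact mul_le_mul (SharpAdd_D_le _ _) (SharpAdd_D_le _ _) (norm_nonneg _) (by positivity)
    · have hs := hne a ha b (mem_of_mem_erase hb) (ne_of_mem_erase hb).symm
      have d1 := SharpAdd_D_sin M _ hs
      have d2 := SharpAdd_D_sin L _ hs
      have d3 : ‖SharpAdd_D M (α a - α b)‖ * ‖SharpAdd_D L (α a - α b)‖ ≤
          1 / (Real.sin (Real.pi * (α a - α b))) ^ 2 := by
        refine (mul_le_mul d1 d2 (norm_nonneg _) (by positivity)).trans (le_of_eq ?_)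
        rw [div_mul_div_comm, one_mul, ← sq, sq_abs]
      have d4 : ‖c a‖ * ‖c b‖ ≤ (‖c a‖ ^ 2 + ‖c b‖ ^ 2) / 2 := by
        nlinarith [sq_nonneg (‖c a‖ - ‖c b‖)]
      exact mul_le_mul d4 d3 (by positivity) (by positivity)
  have h4 : ∑ a ∈ J, ∑ b ∈ J.erase a,
        (‖c a‖ ^ 2 + ‖c b‖ ^ 2) / 2 * (1 / (Real.sin (Real.pi * (α a - α b))) ^ 2) ≤
      B * ∑ a ∈ J, ‖c a‖ ^ 2 := by
    have e1 : ∑ a ∈ J, ∑ b ∈ J.erase a,
        ‖c b‖ ^ 2 / 2 * (1 / (Real.sin (Real.pi * (α a - α b))) ^ 2) =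
        ∑ a ∈ J, ∑ b ∈ J.erase a,
        ‖c a‖ ^ 2 / 2 * (1 / (Real.sin (Real.pi * (α a - α b))) ^ 2) := by
      rw [sum_comm' (s := J) (t := fun a => J.erase a) (t' := J) (s' := fun b => J.erase b)
        (by
          intro x y
          simp only [mem_erase]
          tauto)]
      refine sum_congr rfl fun a _ => sum_congr rfl fun b _ => ?_
      have : Real.sin (Real.pi * (α b - α a)) = - Real.sin (Real.pi * (α a - α b)) := by
        rw [← Real.sin_neg]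
        congr 1
        ring
      rw [this, neg_sq]
    have e2 : ∑ a ∈ J, ∑ b ∈ J.erase a,
        (‖c a‖ ^ 2 + ‖c b‖ ^ 2) / 2 * (1 / (Real.sin (Real.pi * (α a - α b))) ^ 2) =
        ∑ a ∈ J, ∑ b ∈ J.erase a,
        ‖c a‖ ^ 2 * (1 / (Real.sin (Real.pi * (α a - α b))) ^ 2) := by
      have e3 : ∀ a b : ι, (‖c a‖ ^ 2 + ‖c b‖ ^ 2) / 2 *
          (1 / (Real.sin (Real.pi * (α a - α b))) ^ 2) =
          ‖c a‖ ^ 2 / 2 * (1 / (Real.sin (Real.pi * (α a - α b))) ^ 2) +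
          ‖c b‖ ^ 2 / 2 * (1 / (Real.sin (Real.pi * (α a - α b))) ^ 2) := by
        intro a b
        ring
      simp_rw [e3, sum_add_distrib]
      rw [e1, ← sum_add_distrib]
      refine sum_congr rfl fun a _ => ?_
      rw [← sum_add_distrib]
      refine sum_congr rfl fun b _ => ?_
      ring
    rw [e2, mul_sum]
    refine sum_le_sum fun a ha => ?_
    rw [← mul_sum, mul_comm]
    exact mul_le_mul_of_nonneg_right (hB a ha) (by positivity)
  calc W ≤ _ := h2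
    _ ≤ ∑ a ∈ J, (‖c a‖ ^ 2 * ((M : ℝ) * L) + ∑ b ∈ J.erase a,
        (‖c a‖ ^ 2 + ‖c b‖ ^ 2) / 2 * (1 / (Real.sin (Real.pi * (α a - α b))) ^ 2)) :=
        sum_le_sum h3
    _ = ((M : ℝ) * L) * ∑ a ∈ J, ‖c a‖ ^ 2 + ∑ a ∈ J, ∑ b ∈ J.erase a,
        (‖c a‖ ^ 2 + ‖c b‖ ^ 2) / 2 * (1 / (Real.sin (Real.pi * (α a - α b))) ^ 2) := by
        rw [sum_add_distrib, ← sum_mul, mul_comm]
    _ ≤ _ := by
        rw [add_mul]
        linarith

private theorem SharpAdd_window {ι : Type*} (J : Finset ι) (α : ι → ℝ) (c : ι → ℂ) (K L : ℕ) :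
    (L : ℝ) * ∑ n ∈ Ioc 0 K, ‖∑ a ∈ J, c a * ee ((n : ℝ) * α a)‖ ^ 2 ≤
      ∑ i ∈ range (K + L - 1), ∑ l ∈ range L,
        ‖∑ a ∈ J, c a * ee (((i : ℝ) + l + (2 - (L : ℝ))) * α a)‖ ^ 2 := by
  rw [sum_comm]
  have h : ∀ l ∈ range L, ∑ n ∈ Ioc 0 K, ‖∑ a ∈ J, c a * ee ((n : ℝ) * α a)‖ ^ 2 ≤
      ∑ i ∈ range (K + L - 1), ‖∑ a ∈ J, c a * ee (((i : ℝ) + l + (2 - (L : ℝ))) * α a)‖ ^ 2 := by
    intro l hl
    rw [mem_range] at hl
    have e : ∑ n ∈ Ioc 0 K, ‖∑ a ∈ J, c a * ee ((n : ℝ) * α a)‖ ^ 2 =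
        ∑ i ∈ (Ioc 0 K).image (fun n => n + L - 2 - l),
          ‖∑ a ∈ J, c a * ee (((i : ℝ) + l + (2 - (L : ℝ))) * α a)‖ ^ 2 := by
      rw [sum_image]
      · refine sum_congr rfl fun n hn => ?_
        rw [mem_Ioc] at hn
        have h1 : (n + L - 2 - l) + l + 2 = n + L := by omega
        have h2 : (((n + L - 2 - l : ℕ) : ℝ)) + l + 2 = n + L := by exact_mod_cast h1
        have h3 : ((n + L - 2 - l : ℕ) : ℝ) + l + (2 - (L : ℝ)) = n := by linarith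
        rw [h3]
      · intro x hx y hy hxy
        simp only [coe_Ioc, Set.mem_Ioc] at hx hy
        simp only at hxy
        omega
    rw [e]
    refine sum_le_sum_of_subset_of_nonneg ?_ fun _ _ _ => by positivity
    intro i hi
    rw [mem_image] at hi
    obtain ⟨n, hn, rfl⟩ := hi
    rw [mem_Ioc] at hn
    rw [mem_range]
    omega
  calc (L : ℝ) * ∑ n ∈ Ioc 0 K, ‖∑ a ∈ J, c a * ee ((n : ℝ) * α a)‖ ^ 2 =
      ∑ l ∈ range L, ∑ n ∈ Ioc 0 K, ‖∑ a ∈ J, c a * ee ((n : ℝ) * α a)‖ ^ 2 := by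
        rw [sum_const, card_range, nsmul_eq_mul]
    _ ≤ _ := sum_le_sum h

theorem sharp_add : ∃ C : ℝ, 0 < C ∧ ∀ R K : ℕ, 1 ≤ R → 1 ≤ K → ∀ a : ℕ → ℂ,
    ∑ r ∈ Icc 1 R, ∑ b ∈ (Icc 1 r).filter (fun b => Nat.Coprime b r),
      ‖∑ n ∈ Ioc 0 K, a n * ee ((n : ℝ) * b / r)‖ ^ 2
      ≤ ((K : ℝ) + C * (R : ℝ) ^ 2) * ∑ n ∈ Ioc 0 K, ‖a n‖ ^ 2 := by
  refine ⟨1 + 3 * SharpAdd_C, by linarith [SharpAdd_C_nonneg], fun R K hR hK a => ?_⟩
  have hRr : (1 : ℝ) ≤ R := by exact_mod_cast hR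
  set δ : ℝ := 1 / (R : ℝ) ^ 2 with hδ
  have hδ0 : 0 < δ := by positivity
  set A : ℝ := ∑ n ∈ Ioc 0 K, ‖a n‖ ^ 2 with hA
  have hA0 : 0 ≤ A := sum_nonneg fun _ _ => by positivity
  -- the points
  set J : Finset (Σ _ : ℕ, ℕ) :=
    (Icc 1 R).sigma (fun r => (Icc 1 r).filter (fun b => Nat.Coprime b r)) with hJ
  have hmem : ∀ j ∈ J, 1 ≤ j.1 ∧ j.1 ≤ R ∧ 1 ≤ j.2 ∧ j.2 ≤ j.1 ∧ Nat.Coprime j.2 j.1 := by
    intro j hj
    rw [hJ, mem_sigma, mem_Icc, mem_filter, mem_Icc] at hj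
    exact ⟨hj.1.1, hj.1.2, hj.2.1.1, hj.2.1.2, hj.2.2⟩
  set α : (Σ _ : ℕ, ℕ) → ℝ := fun j => (j.2 : ℝ) / j.1 with hα
  have hsep : ∀ i ∈ J, ∀ j ∈ J, i ≠ j → δ ≤ |α i - α j| ∧ δ ≤ 1 - |α i - α j| := by
    rintro ⟨r, b⟩ hi ⟨q, d⟩ hj hne
    obtain ⟨r1, r2, b1, b2, b3⟩ := hmem _ hi
    obtain ⟨q1, q2, d1, d2, d3⟩ := hmem _ hj
    simp only [hα] at r1 r2 b1 b2 b3 q1 q2 d1 d2 d3 ⊢
    have hr0 : (0 : ℝ) < r := by exact_mod_cast r1
    have hq0 : (0 : ℝ) < q := by exact_mod_cast q1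
    have hne' : (b : ℤ) * q - d * r ≠ 0 := by
      intro h0
      have h1 : b * q = d * r := by
        have : (b : ℤ) * q = d * r := by linarith
        exact_mod_cast this
      have h2 : r ∣ q := by
        have : r ∣ b * q := ⟨d, by rw [h1]; ring⟩
        exact (Nat.Coprime.dvd_mul_left b3.symm).1 this
      have h3 : q ∣ r := by
        have : q ∣ d * r := ⟨b, by rw [← h1]; ring⟩
        exact (Nat.Coprime.dvd_mul_left d3.symm).1 this
      have h4 : r = q := Nat.dvd_antisymm h2 h3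
      subst h4
      have h5 : b = d := Nat.eq_of_mul_eq_mul_right r1 h1
      subst h5
      exact hne rfl
    have h6 : (1 : ℝ) ≤ |(b : ℝ) * q - d * r| := by
      have : (1 : ℤ) ≤ |(b : ℤ) * q - d * r| := Int.one_le_abs hne'
      exact_mod_cast this
    have h7 : (b : ℝ) / r - (d : ℝ) / q = ((b : ℝ) * q - d * r) / (r * q) := by
      field_simp
    have h8 : (r : ℝ) * q ≤ (R : ℝ) ^ 2 := by
      have h9 : (r : ℝ) ≤ R := by exact_mod_cast r2
      have h10 : (q : ℝ) ≤ R := by exact_mod_cast q2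
      nlinarith
    have h11 : (1 : ℝ) ≤ r * q - |(b : ℝ) * q - d * r| := by
      have hb : (b : ℤ) ≤ r := by exact_mod_cast b2
      have hd : (d : ℤ) ≤ q := by exact_mod_cast d2
      have hb1 : (1 : ℤ) ≤ b := by exact_mod_cast b1
      have hd1 : (1 : ℤ) ≤ d := by exact_mod_cast d1
      have hr1 : (1 : ℤ) ≤ r := by exact_mod_cast r1
      have hq1 : (1 : ℤ) ≤ q := by exact_mod_cast q1
      have k1 : (1 : ℤ) ≤ r * q - (b * q - d * r) := by nlinarith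
      have k2 : (1 : ℤ) ≤ r * q + (b * q - d * r) := by nlinarith
      have k3 : (1 : ℤ) ≤ r * q - |(b : ℤ) * q - d * r| := by
        rcases abs_cases ((b : ℤ) * q - d * r) with ⟨h, _⟩ | ⟨h, _⟩ <;> rw [h] <;> linarith
      exact_mod_cast k3
    have hrq : (0 : ℝ) < r * q := mul_pos hr0 hq0
    rw [h7, abs_div, abs_of_pos hrq, hδ]
    constructor
    · exact div_le_div₀ (by positivity) h6 hrq h8
    · have e : 1 - |(b : ℝ) * q - d * r| / (r * q) =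
          ((r : ℝ) * q - |(b : ℝ) * q - d * r|) / (r * q) := by
        rw [sub_div, div_self hrq.ne']
      rw [e]
      exact div_le_div₀ (by linarith) h11 hrq h8
  -- the sums
  set T : (Σ _ : ℕ, ℕ) → ℂ := fun j => ∑ n ∈ Ioc 0 K, a n * ee ((n : ℝ) * α j) with hT
  have hLHS : ∑ r ∈ Icc 1 R, ∑ b ∈ (Icc 1 r).filter (fun b => Nat.Coprime b r),
      ‖∑ n ∈ Ioc 0 K, a n * ee ((n : ℝ) * b / r)‖ ^ 2 = ∑ j ∈ J, ‖T j‖ ^ 2 := by
    rw [sum_sigma', hJ]
    refine sum_congr rfl fun j _ => ?_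
    rw [hT]
    simp only [hα, mul_div_assoc]
  rw [hLHS]
  set S : ℝ := ∑ j ∈ J, ‖T j‖ ^ 2 with hS
  have hS0 : 0 ≤ S := sum_nonneg fun _ _ => by positivity
  set c : (Σ _ : ℕ, ℕ) → ℂ := fun j => (starRingEnd ℂ) (T j) with hc
  have hcn : ∑ j ∈ J, ‖c j‖ ^ 2 = S := by
    rw [hS]
    refine sum_congr rfl fun j _ => ?_
    rw [hc]
    simp only [RCLike.norm_conj]
  -- the dual inequality
  have dual := (SharpAdd_window J α c K (R ^ 2)).trans
    (SharpAdd_dual J α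
      (fun i hi j hj hij => (SharpAdd_sin_sq (by
          intro h
          have := (hsep i hi j hj hij).1
          rw [h, abs_zero] at this
          linarith) (by linarith [(hsep i hi j hj hij).2])).1)
      (fun i hi => SharpAdd_sep J α hδ0 hsep hi) c (K + R ^ 2 - 1) (R ^ 2) (2 - ((R ^ 2 : ℕ) : ℝ)))
  rw [hcn] at dual
  set Q : ℝ := ∑ n ∈ Ioc 0 K, ‖∑ j ∈ J, c j * ee ((n : ℝ) * α j)‖ ^ 2 with hQ
  have hR2 : (0 : ℝ) < (R : ℝ) ^ 2 := by positivity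
  have hQle : Q ≤ ((K : ℝ) + (1 + 3 * SharpAdd_C) * (R : ℝ) ^ 2) * S := by
    have e1 : ((K + R ^ 2 - 1 : ℕ) : ℝ) ≤ (K : ℝ) + (R : ℝ) ^ 2 := by
      have : K + R ^ 2 - 1 ≤ K + R ^ 2 := Nat.sub_le _ _
      exact_mod_cast this
    have e2 : ((R ^ 2 : ℕ) : ℝ) = (R : ℝ) ^ 2 := by push_cast; ring
    have e3 : 3 * (SharpAdd_C / δ ^ 2) = (3 * SharpAdd_C * (R : ℝ) ^ 2) * (R : ℝ) ^ 2 := by
      rw [hδ]
      field_simp
    rw [e2, e3, ← add_mul] at dual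
    have e4 : (R : ℝ) ^ 2 * Q ≤ (R : ℝ) ^ 2 *
        (((K : ℝ) + (1 + 3 * SharpAdd_C) * (R : ℝ) ^ 2) * S) := by
      refine dual.trans ?_
      have e5 : (((K + R ^ 2 - 1 : ℕ) : ℝ) + 3 * SharpAdd_C * (R : ℝ) ^ 2) ≤
          (K : ℝ) + (1 + 3 * SharpAdd_C) * (R : ℝ) ^ 2 := by linarith
      calc (((K + R ^ 2 - 1 : ℕ) : ℝ) + 3 * SharpAdd_C * (R : ℝ) ^ 2) * (R : ℝ) ^ 2 * S ≤
          ((K : ℝ) + (1 + 3 * SharpAdd_C) * (R : ℝ) ^ 2) * (R : ℝ) ^ 2 * S :=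
            mul_le_mul_of_nonneg_right (mul_le_mul_of_nonneg_right e5 hR2.le) hS0
        _ = _ := by ring
    exact le_of_mul_le_mul_left e4 hR2
  -- duality
  have hSA : S ^ 2 ≤ A * Q := by
    have h1 : (S : ℂ) = ∑ n ∈ Ioc 0 K, a n * ∑ j ∈ J, c j * ee ((n : ℝ) * α j) := by
      rw [hS]
      push_cast
      have h2 : ∀ j ∈ J, ((‖T j‖ : ℂ)) ^ 2 = ∑ n ∈ Ioc 0 K, a n * (c j * ee ((n : ℝ) * α j)) := by
        intro j _
        rw [← Complex.mul_conj', hc]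
        simp only
        rw [mul_comm]
        conv_lhs => rw [hT]
        simp only
        rw [mul_sum]
        refine sum_congr rfl fun n _ => ?_
        ring
      rw [sum_congr rfl h2, sum_comm]
      refine sum_congr rfl fun n _ => ?_
      rw [mul_sum]
    have h3 : S ≤ ∑ n ∈ Ioc 0 K, ‖a n‖ * ‖∑ j ∈ J, c j * ee ((n : ℝ) * α j)‖ := by
      have h4 : S = ‖(S : ℂ)‖ := by rw [Complex.norm_real, Real.norm_of_nonneg hS0]
      rw [h4, h1]
      refine (norm_sum_le _ _).trans (sum_le_sum fun n _ => ?_)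
      rw [norm_mul]
    calc S ^ 2 ≤ (∑ n ∈ Ioc 0 K, ‖a n‖ * ‖∑ j ∈ J, c j * ee ((n : ℝ) * α j)‖) ^ 2 :=
          pow_le_pow_left₀ hS0 h3 2
      _ ≤ A * Q := sum_mul_sq_le_sq_mul_sq _ _ _
  rcases hS0.eq_or_lt with h0 | h0
  · rw [← h0]
    have := SharpAdd_C_nonneg
    positivity
  · have h5 : S * S ≤ ((K : ℝ) + (1 + 3 * SharpAdd_C) * (R : ℝ) ^ 2) * A * S := by
      calc S * S = S ^ 2 := (sq S).symm
        _ ≤ A * Q := hSA
        _ ≤ A * (((K : ℝ) + (1 + 3 * SharpAdd_C) * (R : ℝ) ^ 2) * S) :=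
            mul_le_mul_of_nonneg_left hQle hA0
        _ = _ := by ring
    exact le_of_mul_le_mul_right h5 h0

end Pool.Agent.H87S
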